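import Pool.Agent.P.MP_d483fb_an.Z.Ent.Sel

/-!
# Counting and Gibbs inequalities for the conditional law `condDistrib id lab μ`
-/

open MeasureTheory ProbabilityTheory Set Filter
open scoped ENNReal

namespace Pool.Agent.P.MP_d483fb_an.Z

variable {Ω Y D : Type*} [MeasurableSpace Ω] [StandardBorelSpace Ω] [Nonempty Ω]
  [MeasurableSpace Y] [MeasurableSpace D] [Countable D] [MeasurableSingletonClass D]
  {μ : Measure Ω} [IsFiniteMeasure μ] {lab : Ω → Y} {f : Ω → D}

/-- Disintegration along a label. -/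
theorem cd_lintegral (hl : Measurable lab) {Φ : Y × Ω → ℝ≥0∞} (hΦ : Measurable Φ) :
    ∫⁻ x, Φ (lab x, x) ∂μ = ∫⁻ x, ∫⁻ w, Φ (lab x, w) ∂(condDistrib id lab μ (lab x)) ∂μ := by
  have h1 : ∫⁻ x, Φ (lab x, x) ∂μ = ∫⁻ p, Φ p ∂(μ.map fun x => (lab x, id x)) :=
    (lintegral_map hΦ (hl.prodMk measurable_id)).symm
  rw [h1, ← compProd_map_condDistrib aemeasurable_id, Measure.lintegral_compProd hΦ,
    lintegral_map hΦ.lintegral_kernel_prod_right' hl]

omit [StandardBorelSpace Ω] [Nonempty Ω] in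
/-- The mass of the atom of a digit is a measurable function of the pair (label, point). -/
theorem cd_measurable (κ : Kernel Y Ω) (hf : Measurable f) :
    Measurable fun p : Y × Ω => κ p.1 (f ⁻¹' {f p.2}) := by
  have h : Measurable fun p : Y × D => κ p.1 (f ⁻¹' {p.2}) :=
    measurable_from_prod_countable_left fun i => κ.measurable_coe (hf (measurableSet_singleton i))
  exact h.comp (measurable_fst.prodMk (hf.comp measurable_snd))

omit [StandardBorelSpace Ω] [Nonempty Ω] in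
/-- Integral of a function of a digit. -/
theorem lintegral_digit (ν : Measure Ω) (hf : Measurable f) (g : D → ℝ≥0∞) :
    ∫⁻ w, g (f w) ∂ν = ∑' i, g i * ν (f ⁻¹' {i}) := by
  rw [← lintegral_map (measurable_of_countable g) hf, lintegral_countable']
  exact tsum_congr fun i => by rw [Measure.map_apply hf (measurableSet_singleton i)]

/-- E5, first form: `∫_B q(lab x, f x) / P(f | lab)(x) ≤ μ B` for a subprobability weight `q` and a
saturated set `B = lab ⁻¹' C`. -/
theorem cd_gibbs (hl : Measurable lab) (hf : Measurable f) {q : Y → D → ℝ≥0∞}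
    (hq : ∀ i, Measurable fun a => q a i) (hq1 : ∀ a, ∑' i, q a i ≤ 1) {C : Set Y}
    (hC : MeasurableSet C) :
    ∫⁻ x in lab ⁻¹' C, q (lab x) (f x) / condDistrib id lab μ (lab x) (f ⁻¹' {f x}) ∂μ
      ≤ μ (lab ⁻¹' C) := by
  classical
  set κ := condDistrib id lab μ with hκ
  have hq' : Measurable fun p : Y × Ω => q p.1 (f p.2) :=
    (measurable_from_prod_countable_left (f := fun p : Y × D => q p.1 p.2) hq).comp
      (measurable_fst.prodMk (hf.comp measurable_snd))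
  have hΦ : Measurable fun p : Y × Ω =>
      (Prod.fst ⁻¹' C).indicator (fun p : Y × Ω => q p.1 (f p.2) / κ p.1 (f ⁻¹' {f p.2})) p :=
    (hq'.div (cd_measurable κ hf)).indicator (measurable_fst hC)
  have h1 := cd_lintegral (μ := μ) hl hΦ
  rw [← lintegral_indicator (hl hC)]
  have h2 : ∀ x, (lab ⁻¹' C).indicator
      (fun x => q (lab x) (f x) / κ (lab x) (f ⁻¹' {f x})) x =
      (Prod.fst ⁻¹' C).indicator
        (fun p : Y × Ω => q p.1 (f p.2) / κ p.1 (f ⁻¹' {f p.2})) (lab x, x) := by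
    intro x
    by_cases hx : lab x ∈ C <;> simp [indicator, hx]
  simp_rw [h2]
  rw [h1, ← lintegral_indicator_one (hl hC)]
  refine lintegral_mono fun x => ?_
  by_cases hx : lab x ∈ C
  · have : ∀ w, (Prod.fst ⁻¹' C).indicator
        (fun p : Y × Ω => q p.1 (f p.2) / κ p.1 (f ⁻¹' {f p.2})) (lab x, w) =
        q (lab x) (f w) / κ (lab x) (f ⁻¹' {f w}) := fun w => by simp [indicator, hx]
    simp_rw [this]
    rw [lintegral_digit _ hf (fun i => q (lab x) i / κ (lab x) (f ⁻¹' {i}))]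
    simp only [indicator, mem_preimage, hx, if_true, Pi.one_apply]
    refine (ENNReal.tsum_le_tsum fun i => ?_).trans (hq1 (lab x))
    rw [mul_comm]
    exact ENNReal.mul_div_le
  · simp [indicator, hx]

/-- E14 (COUNT): if every atom of `lab` contains points of `G` with at most `Q` values of the digit
`f`, then `μ (G ∩ {P(f | lab) < c}) ≤ Q c μ(Ω)`. -/
theorem cd_count [StandardBorelSpace Y] (hl : Measurable lab) (hf : Measurable f) {G : Set Ω}
    (hG : MeasurableSet G) {Q : ℕ}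
    (hQ : ∀ a : Y, ∃ s : Finset D, s.card ≤ Q ∧ ∀ w ∈ G, lab w = a → f w ∈ s) (c : ℝ≥0∞) :
    μ {x | x ∈ G ∧ condDistrib id lab μ (lab x) (f ⁻¹' {f x}) ≤ c} ≤ Q * c * μ univ := by
  classical
  set κ := condDistrib id lab μ with hκ
  have hS : MeasurableSet {p : Y × Ω | p.2 ∈ G ∧ κ p.1 (f ⁻¹' {f p.2}) ≤ c} :=
    (measurable_snd hG).inter (measurableSet_le (cd_measurable κ hf) measurable_const)
  have h1 := cd_lintegral (μ := μ) hl (measurable_one.indicator hS)
  have hS' : MeasurableSet {x | x ∈ G ∧ κ (lab x) (f ⁻¹' {f x}) ≤ c} :=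
    (hl.prodMk measurable_id) hS
  rw [← lintegral_indicator_one hS']
  have h2 : ∀ x, {x | x ∈ G ∧ κ (lab x) (f ⁻¹' {f x}) ≤ c}.indicator (1 : Ω → ℝ≥0∞) x =
      {p : Y × Ω | p.2 ∈ G ∧ κ p.1 (f ⁻¹' {f p.2}) ≤ c}.indicator 1 (lab x, x) := by
    intro x
    simp [indicator]
  simp_rw [h2]
  rw [h1, ← lintegral_const]
  refine lintegral_mono_ae ?_
  filter_upwards [ae_condDistrib_atom μ hl MeasurableSet.univ (ae_of_all _ fun _ => trivial)]
    with x hx
  obtain ⟨s, hs, hs'⟩ := hQ (lab x)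
  have hT : MeasurableSet {w | w ∈ G ∧ κ (lab x) (f ⁻¹' {f w}) ≤ c} :=
    measurable_prodMk_left hS
  have h3 : ∀ w, {p : Y × Ω | p.2 ∈ G ∧ κ p.1 (f ⁻¹' {f p.2}) ≤ c}.indicator
      (1 : Y × Ω → ℝ≥0∞) (lab x, w) =
      {w | w ∈ G ∧ κ (lab x) (f ⁻¹' {f w}) ≤ c}.indicator 1 w := by
    intro w
    simp [indicator]
  simp_rw [h3]
  rw [lintegral_indicator_one hT]
  calc κ (lab x) {w | w ∈ G ∧ κ (lab x) (f ⁻¹' {f w}) ≤ c}
      ≤ κ (lab x) (⋃ i ∈ s.filter (fun i => κ (lab x) (f ⁻¹' {i}) ≤ c), f ⁻¹' {i}) := by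
        refine measure_mono_ae (hx.mono fun w hw hw' => ?_)
        exact mem_iUnion₂.2 ⟨f w, Finset.mem_filter.2 ⟨hs' w hw'.1 hw.1, hw'.2⟩, rfl⟩
    _ ≤ ∑ i ∈ s.filter (fun i => κ (lab x) (f ⁻¹' {i}) ≤ c), κ (lab x) (f ⁻¹' {i}) :=
        measure_biUnion_finset_le _ _
    _ ≤ ∑ _i ∈ s.filter (fun i => κ (lab x) (f ⁻¹' {i}) ≤ c), c :=
        Finset.sum_le_sum fun i hi => (Finset.mem_filter.1 hi).2
    _ ≤ Q * c := by
        rw [Finset.sum_const, nsmul_eq_mul]
        gcongr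
        exact (Finset.card_filter_le _ _).trans hs

end Pool.Agent.P.MP_d483fb_an.Z
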