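import Pool.Agent.P.MP_d483fb_an.Z.Ent.Lusin

/-!
Conditional information given a label: definitions.
A label is a measurable map to a standard Borel space, a digit a measurable map to a countable type.
-/

namespace Pool.Agent.P.MP_d483fb_an.Z.Ent

open MeasureTheory ProbabilityTheory Set Filter

section det
variable {Ω Y Z : Type*} [MeasurableSpace Ω]

/-- On a conull set the value of `g` determines the value of `f`. -/
def Det (μ : Measure Ω) (g : Ω → Y) (f : Ω → Z) : Prop :=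
  ∃ S : Set Ω, (∀ᵐ x ∂μ, x ∈ S) ∧ ∀ x ∈ S, ∀ y ∈ S, g x = g y → f x = f y

/-- The set `B` is a union of atoms of `g`, inside a conull set. -/
def Sat (μ : Measure Ω) (g : Ω → Y) (B : Set Ω) : Prop := Det μ g fun x => x ∈ B

/-- The pair of two labels. -/
abbrev pr2 (f : Ω → Y) (g : Ω → Z) : Ω → Y × Z := fun x => (f x, g x)

/-- An increasing label: the atoms of `F ∘ T` are those of `(F, d)`. -/
def Incr (μ : Measure Ω) (T : Ω → Ω) (F : Ω → Y) (d : Ω → Z) : Prop :=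
  Det μ (F ∘ T) (pr2 F d) ∧ Det μ (pr2 F d) (F ∘ T)

/-- The first `n` digits along the orbit. -/
def names (T : Ω → Ω) (d : Ω → Z) (n : ℕ) (x : Ω) : Fin n → Z := fun i => d (T^[i] x)

/-- Unconditional information of a digit. -/
noncomputable def I0 (μ : Measure Ω) (d : Ω → Z) (x : Ω) : ℝ :=
  -Real.log (μ.real {y | d y = d x})

/-- The digit has finite entropy. -/
def FinEnt (μ : Measure Ω) (d : Ω → Z) : Prop := Integrable (I0 μ d) μ

/-- Unconditional entropy of a digit. -/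
noncomputable def H0 (μ : Measure Ω) (d : Ω → Z) : ℝ := ∫ x, I0 μ d x ∂μ

/-- The rectangle property of the digit `e` on the atoms of `F` for the coordinates `s`, `al`. -/
def Rect {D S A : Type*} (μ : Measure Ω) (F : Ω → Z) (e : Ω → D) (s : Ω → S) (al : Ω → A) : Prop :=
  ∃ W : Set Ω, (∀ᵐ x ∂μ, x ∈ W) ∧ ∀ y₁ ∈ W, ∀ y₂ ∈ W, ∀ y₁' ∈ W, ∀ y₂' ∈ W,
    F y₁ = F y₂ → F y₁ = F y₁' → F y₁ = F y₂' → e y₁ = e y₂ → e y₁' = e y₂' →
    s y₁ = s y₁' → al y₂ = al y₂' → e y₁ = e y₁'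

/-- The `al`-diameters of the atoms of `(F, e n)` tend to zero off small sets. -/
def Shrink {D : ℕ → Type*} {A : Type*} [PseudoMetricSpace A] (μ : Measure Ω) (F : Ω → Z)
    (e : ∀ n, Ω → D n) (al : Ω → A) : Prop :=
  ∀ δ : ℝ, 0 < δ → ∀ η : ℝ, 0 < η → ∀ᶠ n in atTop, ∃ G : Set Ω, MeasurableSet G ∧
    μ.real Gᶜ ≤ η ∧ ∀ x ∈ G, ∀ y ∈ G, F x = F y → e n x = e n y → dist (al x) (al y) ≤ δ

/-- The label `g n` and the first `k` digits determine `Lam ∘ T^[k]` up to `Rel δ`, on `B n` off a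
small set, for all `k` in `[k₀, n)`. -/
def Near {D : Type*} {Y : ℕ → Type*} (μ : Measure Ω) (T : Ω → Ω) (d : Ω → D) (Lam : Ω → Z)
    (Rel : ℝ → Z → Z → Prop) (g : ∀ n, Ω → Y n) (B : ℕ → Set Ω) : Prop :=
  ∀ δ : ℝ, 0 < δ → ∀ η : ℝ, 0 < η → ∃ k₀ : ℕ, ∀ᶠ n in atTop, ∀ k, k₀ ≤ k → k < n →
    ∃ G : Set Ω, MeasurableSet G ∧ μ.real (B n \ G) ≤ η ∧ ∀ y ∈ G ∩ B n, ∀ y' ∈ G ∩ B n,
      g n y = g n y' → (∀ i < k, d (T^[i] y) = d (T^[i] y')) →
      Rel δ (Lam (T^[k] y)) (Lam (T^[k] y'))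

end det

variable {Ω Z D : Type*} [MeasurableSpace Ω] [StandardBorelSpace Ω] [Nonempty Ω]
  [MeasurableSpace Z]

/-- The conditional measure of `μ` on the atom of `x` for the label `g`. -/
noncomputable def cp (μ : Measure Ω) [IsFiniteMeasure μ] (g : Ω → Z) (x : Ω) : Measure Ω :=
  condDistrib id g μ (g x)

instance (μ : Measure Ω) [IsFiniteMeasure μ] (g : Ω → Z) (x : Ω) :
    IsProbabilityMeasure (cp μ g x) := by
  unfold cp
  infer_instance

/-- The conditional measures as a kernel. -/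
noncomputable def cpK (μ : Measure Ω) [IsFiniteMeasure μ] {g : Ω → Z} (hg : Measurable g) :
    Kernel Ω Ω :=
  (condDistrib id g μ).comap g hg

instance (μ : Measure Ω) [IsFiniteMeasure μ] {g : Ω → Z} (hg : Measurable g) :
    IsMarkovKernel (cpK μ hg) := by
  unfold cpK
  infer_instance

@[simp] theorem cpK_apply (μ : Measure Ω) [IsFiniteMeasure μ] {g : Ω → Z} (hg : Measurable g)
    (x : Ω) : cpK μ hg x = cp μ g x := rfl

/-- Conditional probability of the value of the digit `f` at `x` given the label `g`. -/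
noncomputable def Pc (μ : Measure Ω) [IsFiniteMeasure μ] (f : Ω → D) (g : Ω → Z) (x : Ω) : ℝ :=
  (cp μ g x).real {y | f y = f x}

/-- Conditional information. -/
noncomputable def Ic (μ : Measure Ω) [IsFiniteMeasure μ] (f : Ω → D) (g : Ω → Z) (x : Ω) : ℝ :=
  -Real.log (Pc μ f g x)

/-- Conditional entropy. -/
noncomputable def Hc (μ : Measure Ω) [IsFiniteMeasure μ] (f : Ω → D) (g : Ω → Z) : ℝ :=
  ∫ x, Ic μ f g x ∂μ

end Pool.Agent.P.MP_d483fb_an.Z.Ent
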