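import Pool.Agent.P.MP_d483fb_an.Z.Ent.Defs

/-!
The calculus of `Det` and the basic properties of conditional measures (E1, uniqueness).
-/

namespace Pool.Agent.P.MP_d483fb_an.Z.Ent

open MeasureTheory ProbabilityTheory Set Filter
open scoped ENNReal

section det
variable {Ω Ω' X Y Z : Type*} [MeasurableSpace Ω] [MeasurableSpace Ω'] {μ : Measure Ω}

theorem Det.of_forall {g : Ω → Y} {f : Ω → Z} (h : ∀ x y, g x = g y → f x = f y) : Det μ g f :=
  ⟨univ, ae_of_all _ fun _ => mem_univ _, fun x _ y _ => h x y⟩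

theorem Det.refl (g : Ω → Y) : Det μ g g := Det.of_forall fun _ _ h => h

theorem Det.trans {f : Ω → X} {g : Ω → Y} {h : Ω → Z} (h1 : Det μ f g) (h2 : Det μ g h) :
    Det μ f h := by
  obtain ⟨S, hS, h1⟩ := h1
  obtain ⟨S', hS', h2⟩ := h2
  exact ⟨S ∩ S', hS.and hS', fun x hx y hy e => h2 x hx.2 y hy.2 (h1 x hx.1 y hy.1 e)⟩

theorem Det.pair {f : Ω → X} {g : Ω → Y} {h : Ω → Z} (h1 : Det μ f g) (h2 : Det μ f h) :
    Det μ f (pr2 g h) := by
  obtain ⟨S, hS, h1⟩ := h1
  obtain ⟨S', hS', h2⟩ := h2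
  exact ⟨S ∩ S', hS.and hS', fun x hx y hy e =>
    Prod.ext (h1 x hx.1 y hy.1 e) (h2 x hx.2 y hy.2 e)⟩

theorem Det.fst (f : Ω → X) (g : Ω → Y) : Det μ (pr2 f g) f :=
  Det.of_forall fun _ _ h => congrArg Prod.fst h

theorem Det.snd (f : Ω → X) (g : Ω → Y) : Det μ (pr2 f g) g :=
  Det.of_forall fun _ _ h => congrArg Prod.snd h

theorem Det.of_ae_eq {g : Ω → Y} {f : Ω → Z} (φ : Y → Z) (h : ∀ᵐ x ∂μ, f x = φ (g x)) :
    Det μ g f :=
  ⟨{x | f x = φ (g x)}, h, fun x hx y hy e => by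
    rw [show f x = φ (g x) from hx, show f y = φ (g y) from hy, e]⟩

theorem Det.pi {ι : Type*} [Countable ι] {W : ι → Type*} {g : Ω → Y} {f : ∀ i, Ω → W i}
    (h : ∀ i, Det μ g (f i)) : Det μ g fun x i => f i x := by
  choose S hS h using h
  refine ⟨⋂ i, S i, ?_, fun x hx y hy e => funext fun i =>
    h i x (mem_iInter.1 hx i) y (mem_iInter.1 hy i) e⟩
  filter_upwards [ae_all_iff.2 hS] with x hx using mem_iInter.2 hx

theorem Det.mono_ac {ν : Measure Ω} (hν : ν ≪ μ) {g : Ω → Y} {f : Ω → Z} (h : Det μ g f) :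
    Det ν g f := by
  obtain ⟨S, hS, h⟩ := h
  exact ⟨S, hν.ae_le hS, h⟩

theorem Det.restrict {g : Ω → Y} {f : Ω → Z} (h : Det μ g f) (B : Set Ω) :
    Det (μ.restrict B) g f :=
  h.mono_ac Measure.absolutelyContinuous_restrict

theorem Det.comp {ν : Measure Ω'} {T : Ω → Ω'} (hT : Measure.QuasiMeasurePreserving T μ ν)
    {g : Ω' → Y} {f : Ω' → Z} (h : Det ν g f) : Det μ (g ∘ T) (f ∘ T) := by
  obtain ⟨S, hS, h⟩ := h
  exact ⟨T ⁻¹' S, hT.ae hS, fun x hx y hy e => h _ hx _ hy e⟩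

theorem Det.exists_measurableSet {g : Ω → Y} {f : Ω → Z} (h : Det μ g f) :
    ∃ S : Set Ω, MeasurableSet S ∧ (∀ᵐ x ∂μ, x ∈ S) ∧
      ∀ x ∈ S, ∀ y ∈ S, g x = g y → f x = f y := by
  obtain ⟨S, hS, h⟩ := h
  obtain ⟨t, ht, htm, ht0⟩ := exists_measurable_superset_of_null (mem_ae_iff.1 hS)
  have hsub : ∀ x ∈ tᶜ, x ∈ S := fun x hx => by
    by_contra hxS
    exact hx (ht hxS)
  refine ⟨tᶜ, htm.compl, ?_, fun x hx y hy => h x (hsub x hx) y (hsub y hy)⟩
  rw [ae_iff]
  simpa using ht0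

theorem Sat.univ (g : Ω → Y) : Sat μ g univ := Det.of_forall fun _ _ _ => rfl

theorem Sat.compl {g : Ω → Y} {B : Set Ω} (h : Sat μ g B) : Sat μ g Bᶜ :=
  Det.trans h (Det.of_forall fun _ _ e => congrArg Not e)

theorem Sat.inter {g : Ω → Y} {B C : Set Ω} (h : Sat μ g B) (h' : Sat μ g C) :
    Sat μ g (B ∩ C) :=
  Det.trans (Det.pair h h') (Det.of_forall fun _ _ e =>
    congrArg (fun p : Prop × Prop => p.1 ∧ p.2) e)

theorem Sat.of_det {f : Ω → X} {g : Ω → Y} {B : Set Ω} (h : Det μ f g) (hB : Sat μ g B) :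
    Sat μ f B := Det.trans h hB

theorem Sat.preimage {f : Ω → X} {g : Ω → Y} (h : Det μ f g) (C : Set Y) :
    Sat μ f (g ⁻¹' C) :=
  Det.trans h (Det.of_forall fun _ _ e => congrArg (fun z => z ∈ C) e)

theorem measurable_names [MeasurableSpace Z] {T : Ω → Ω} (hT : Measurable T) {d : Ω → Z}
    (hd : Measurable d) (n : ℕ) : Measurable (names T d n) :=
  measurable_pi_lambda _ fun i => hd.comp (hT.iterate i)

omit [MeasurableSpace Ω] in
theorem names_eq_iff {T : Ω → Ω} {d : Ω → Z} {n : ℕ} {x y : Ω} :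
    names T d n x = names T d n y ↔ ∀ i < n, d (T^[i] x) = d (T^[i] y) :=
  ⟨fun h i hi => congrFun h ⟨i, hi⟩, fun h => funext fun i => h i i.2⟩

/-- Iterating an increasing label. -/
theorem Incr.iter {T : Ω → Ω} (hT : Measure.QuasiMeasurePreserving T μ μ) {F : Ω → Y} {d : Ω → Z}
    (h : Incr μ T F d) (n : ℕ) :
    Det μ (F ∘ T^[n]) (pr2 F (names T d n)) ∧ Det μ (pr2 F (names T d n)) (F ∘ T^[n]) := by
  induction n with
  | zero =>
    exact ⟨Det.of_forall fun x y e => Prod.ext e (names_eq_iff.2 fun i hi => absurd hi (by omega)),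
      Det.fst _ _⟩
  | succ n ih =>
    have h1 := h.1.comp (hT.iterate n)
    have h2 := h.2.comp (hT.iterate n)
    rw [Function.iterate_succ']
    constructor
    · have a : Det μ (F ∘ T ∘ T^[n]) (F ∘ T^[n]) :=
        h1.trans (Det.of_forall fun _ _ e => congrArg Prod.fst e)
      have b : Det μ (F ∘ T ∘ T^[n]) (d ∘ T^[n]) :=
        h1.trans (Det.of_forall fun _ _ e => congrArg Prod.snd e)
      refine ((a.trans ih.1).pair b).trans (Det.of_forall fun x y e => ?_)
      have e1 : F x = F y := congrArg (fun p => p.1.1) e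
      have e2 : names T d n x = names T d n y := congrArg (fun p => p.1.2) e
      have e3 : d (T^[n] x) = d (T^[n] y) := congrArg Prod.snd e
      refine Prod.ext e1 (names_eq_iff.2 fun i hi => ?_)
      rcases Nat.lt_succ_iff_lt_or_eq.1 hi with hi | rfl
      · exact names_eq_iff.1 e2 i hi
      · exact e3
    · have a : Det μ (pr2 F (names T d (n + 1))) (pr2 F (names T d n)) :=
        Det.of_forall fun x y e => Prod.ext (Prod.ext_iff.1 e).1 (names_eq_iff.2 fun i hi =>
          names_eq_iff.1 (Prod.ext_iff.1 e).2 i (by omega))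
      have b : Det μ (pr2 F (names T d (n + 1))) (d ∘ T^[n]) :=
        Det.of_forall fun x y e => names_eq_iff.1 (congrArg Prod.snd e) n (by omega)
      exact ((a.trans ih.2).pair b).trans h2

end det

variable {Ω Y Z : Type*} [MeasurableSpace Ω] [StandardBorelSpace Ω]
  [MeasurableSpace Y] [StandardBorelSpace Y] [MeasurableSpace Z] [StandardBorelSpace Z]
  {μ : Measure Ω}

/-- E2, factorisation. -/
theorem Det.exists_factor [Nonempty Ω] {g : Ω → Y} {f : Ω → Z} (hg : Measurable g)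
    (hf : Measurable f) (h : Det μ g f) : ∃ φ : Y → Z, Measurable φ ∧ ∀ᵐ x ∂μ, f x = φ (g x) := by
  have : Nonempty Z := ⟨f (Classical.arbitrary Ω)⟩
  obtain ⟨S, hS, h⟩ := h
  exact exists_factor_ae hg hf hS h

theorem Sat.exists_set {g : Ω → Y} (hg : Measurable g) {B : Set Ω} (hB : MeasurableSet B)
    (h : Sat μ g B) : ∃ C : Set Y, MeasurableSet C ∧ ∀ᵐ x ∂μ, (x ∈ B ↔ g x ∈ C) := by
  obtain ⟨S, hS, hS', h⟩ := Det.exists_measurableSet h
  obtain ⟨C, hC, hC'⟩ := exists_sat hg hS hB fun x hx y hy e hb => (h x hx y hy e).mp hb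
  exact ⟨C, hC, hS'.mono hC'⟩

variable [Nonempty Ω] [IsFiniteMeasure μ] {g : Ω → Z}

omit [StandardBorelSpace Z] in
theorem cp_eq_of_eq {x y : Ω} (h : g x = g y) : cp μ g x = cp μ g y := by
  unfold cp
  rw [h]

omit [StandardBorelSpace Z] in
theorem measurable_cp (hg : Measurable g) : Measurable (cp μ g) := (cpK μ hg).measurable

omit [StandardBorelSpace Z] in
/-- Disintegration. -/
theorem lintegral_cp (hg : Measurable g) {F : Z → Ω → ℝ≥0∞} (hF : Measurable (Function.uncurry F)) :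
    ∫⁻ x, ∫⁻ y, F (g x) y ∂(cp μ g x) ∂μ = ∫⁻ y, F (g y) y ∂μ := by
  have h1 := Measure.lintegral_compProd (μ := μ.map g) (κ := condDistrib id g μ) hF
  rw [compProd_map_condDistrib aemeasurable_id, lintegral_map hF (hg.prodMk measurable_id),
    lintegral_map hF.lintegral_kernel_prod_right' hg] at h1
  exact h1.symm

omit [StandardBorelSpace Z] in
theorem bind_cp (hg : Measurable g) : μ.bind (cp μ g) = μ := by
  ext A hA
  rw [Measure.bind_apply hA (measurable_cp hg).aemeasurable]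
  simpa [cp] using setLIntegral_preimage_condDistrib (μ := μ) (Y := id) hg aemeasurable_id hA
    MeasurableSet.univ

omit [StandardBorelSpace Z] in
theorem setLIntegral_cp (hg : Measurable g) {C : Set Z} (hC : MeasurableSet C) {A : Set Ω}
    (hA : MeasurableSet A) : ∫⁻ x in g ⁻¹' C, cp μ g x A ∂μ = μ (g ⁻¹' C ∩ A) :=
  setLIntegral_preimage_condDistrib (μ := μ) (Y := id) hg aemeasurable_id hA hC

omit [StandardBorelSpace Z] in
theorem ae_cp (hg : Measurable g) {p : Ω → Prop} (h : ∀ᵐ x ∂μ, p x) :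
    ∀ᵐ x ∂μ, ∀ᵐ y ∂(cp μ g x), p y := by
  rw [← bind_cp (μ := μ) hg] at h
  exact Measure.ae_ae_of_ae_bind (measurable_cp hg).aemeasurable h

omit [StandardBorelSpace Z] in
theorem ae_of_ae_cp (hg : Measurable g) {p : Ω → Prop} (hp : MeasurableSet {x | p x})
    (h : ∀ᵐ x ∂μ, ∀ᵐ y ∂(cp μ g x), p y) : ∀ᵐ x ∂μ, p x := by
  have hp' : MeasurableSet {x | ¬ p x} := hp.compl
  rw [ae_iff, ← bind_cp (μ := μ) hg, Measure.bind_apply hp' (measurable_cp hg).aemeasurable]
  rw [lintegral_congr_ae (g := fun _ => 0) (h.mono fun x hx => ae_iff.1 hx), lintegral_zero]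

/-- The conditional measure is carried by the atom. -/
theorem cp_atom (hg : Measurable g) : ∀ᵐ x ∂μ, ∀ᵐ y ∂(cp μ g x), g y = g x :=
  (ae_condDistrib_atom μ hg MeasurableSet.univ (ae_of_all _ fun _ => mem_univ _)).mono
    fun _ h => h.mono fun _ h => h.1

/-- Whatever the label determines is constant under the conditional measure. -/
theorem Det.ae_cp {W : Type*} (hg : Measurable g) {f : Ω → W} (h : Det μ g f) :
    ∀ᵐ x ∂μ, ∀ᵐ y ∂(cp μ g x), f y = f x := by
  obtain ⟨S, hS, h⟩ := h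
  filter_upwards [hS, Ent.ae_cp hg hS, cp_atom (μ := μ) hg] with x hx h1 h2
  filter_upwards [h1, h2] with y hy e using h y hy x hx e

/-- Exchangeability of the pair law. -/
theorem lintegral_cp_swap (hg : Measurable g) {F : Ω → Ω → ℝ≥0∞}
    (hF : Measurable (Function.uncurry F)) :
    ∫⁻ x, ∫⁻ y, F x y ∂(cp μ g x) ∂μ = ∫⁻ x, ∫⁻ y, F y x ∂(cp μ g x) ∂μ := by
  have key : ∀ {F : Ω → Ω → ℝ≥0∞}, Measurable (Function.uncurry F) →
      ∫⁻ x, ∫⁻ y, F x y ∂(cp μ g x) ∂μ =
        ∫⁻ x, ∫⁻ x', ∫⁻ y, F x' y ∂(cp μ g x) ∂(cp μ g x) ∂μ := by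
    intro F hF
    have hm : Measurable (Function.uncurry fun (z : Z) (x' : Ω) =>
        ∫⁻ y, F x' y ∂(condDistrib id g μ z)) :=
      Measurable.lintegral_kernel_prod_right'
        (κ := (condDistrib id g μ).comap (Prod.fst : Z × Ω → Z) measurable_fst)
        (f := fun p : (Z × Ω) × Ω => F p.1.2 p.2)
        (hF.comp ((measurable_snd.comp measurable_fst).prodMk measurable_snd))
    exact (lintegral_cp hg hm).symm
  have hF' : Measurable (Function.uncurry fun x y => F y x) := hF.comp measurable_swap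
  rw [key hF, key hF']
  exact lintegral_congr fun x => lintegral_lintegral_swap hF.aemeasurable

theorem compProd_cpK_swap (hg : Measurable g) :
    (μ ⊗ₘ cpK μ hg).map Prod.swap = μ ⊗ₘ cpK μ hg := by
  ext s hs
  rw [Measure.map_apply measurable_swap hs, ← lintegral_indicator_one hs,
    ← lintegral_indicator_one (measurable_swap hs),
    Measure.lintegral_compProd (measurable_one.indicator hs),
    Measure.lintegral_compProd (measurable_one.indicator (measurable_swap hs))]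
  exact (lintegral_cp_swap hg (F := fun x y => s.indicator 1 (x, y))
    (measurable_one.indicator hs)).symm

theorem setLIntegral_cp_sat (hg : Measurable g) {B A : Set Ω} (hB : MeasurableSet B)
    (hs : Sat μ g B) (hA : MeasurableSet A) : ∫⁻ x in B, cp μ g x A ∂μ = μ (B ∩ A) := by
  obtain ⟨C, hC, h⟩ := hs.exists_set hg hB
  have e : B =ᵐ[μ] g ⁻¹' C := h.mono fun x hx => propext hx
  rw [setLIntegral_congr e, setLIntegral_cp hg hC hA]
  exact (measure_congr (e.inter (ae_eq_refl A))).symm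

/-- Uniqueness of conditional measures. -/
theorem cp_unique (hg : Measurable g) {κ : Ω → Measure Ω} (hκ : Measurable κ) (hd : Det μ g κ)
    (h : ∀ C : Set Z, MeasurableSet C → ∀ A : Set Ω, MeasurableSet A →
      ∫⁻ x in g ⁻¹' C, κ x A ∂μ = μ (g ⁻¹' C ∩ A)) : ∀ᵐ x ∂μ, κ x = cp μ g x := by
  have key : ∀ A : Set Ω, MeasurableSet A → ∀ᵐ x ∂μ, κ x A = cp μ g x A := by
    intro A hA
    have hm : Measurable fun x => κ x A := (Measure.measurable_coe hA).comp hκ
    obtain ⟨φ, hφ, e⟩ := Det.exists_factor hg hm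
      (hd.trans (Det.of_forall fun _ _ e => congrArg (fun m : Measure Ω => m A) e))
    have h2 : φ =ᵐ[μ.map g] fun z => condDistrib id g μ z A := by
      refine ae_eq_of_forall_setLIntegral_eq_of_sigmaFinite hφ (Kernel.measurable_coe _ hA)
        fun C hC _ => ?_
      rw [setLIntegral_map hC hφ hg, setLIntegral_map hC (Kernel.measurable_coe _ hA) hg]
      refine Eq.trans ?_ ((h C hC A hA).trans (setLIntegral_cp hg hC hA).symm)
      exact lintegral_congr_ae (ae_restrict_of_ae (e.mono fun x hx => hx.symm))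
    filter_upwards [e, ae_of_ae_map hg.aemeasurable h2] with x h1 h2 using h1.trans h2
  let 𝒜 := generateSetAlgebra (MeasurableSpace.countableGeneratingSet Ω)
  have hc : 𝒜.Countable :=
    countable_generateSetAlgebra MeasurableSpace.countable_countableGeneratingSet
  have hgen : ‹MeasurableSpace Ω› = MeasurableSpace.generateFrom 𝒜 := by
    rw [generateFrom_generateSetAlgebra_eq, MeasurableSpace.generateFrom_countableGeneratingSet]
  have hme : ∀ A ∈ 𝒜, MeasurableSet A := fun A hA =>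
    hgen ▸ MeasurableSpace.measurableSet_generateFrom hA
  filter_upwards [(ae_ball_iff hc).2 fun A hA => key A (hme A hA), key univ MeasurableSet.univ]
    with x h1 h2
  exact (ext_of_generate_finite 𝒜 hgen
    isSetAlgebra_generateSetAlgebra.isSetRing.isSetSemiring.isPiSystem (fun A hA => (h1 A hA).symm) h2.symm).symm

theorem cp_unique' (hg : Measurable g) {κ : Ω → Measure Ω} (hκ : Measurable κ) (hd : Det μ g κ)
    (ha : ∀ᵐ x ∂μ, ∀ᵐ y ∂(κ x), g y = g x)
    (h : ∀ A : Set Ω, MeasurableSet A → ∫⁻ x, κ x A ∂μ = μ A) : ∀ᵐ x ∂μ, κ x = cp μ g x := by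
  refine cp_unique hg hκ hd fun C hC A hA => ?_
  rw [← h _ ((hg hC).inter hA), ← lintegral_indicator (hg hC)]
  refine lintegral_congr_ae (ha.mono fun x hx => ?_)
  by_cases hx' : g x ∈ C
  · rw [indicator_of_mem (show x ∈ g ⁻¹' C from hx')]
    refine measure_congr (hx.mono fun y hy => propext ⟨fun h => ⟨?_, h⟩, fun h => h.2⟩)
    show g y ∈ C
    rwa [hy]
  · rw [indicator_of_notMem (show x ∉ g ⁻¹' C from hx')]
    refine (measure_mono_null (fun y hy => ?_) (ae_iff.1 hx)).symm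
    intro e
    exact hx' (e ▸ hy.1)

end Pool.Agent.P.MP_d483fb_an.Z.Ent
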