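import Pool.Agent.P.MP_d483fb_an.Z.Ent.Gibbs

/-!
# Fano's inequality with side information
-/

open MeasureTheory ProbabilityTheory Set Filter
open scoped ENNReal

namespace Pool.Agent.P.MP_d483fb_an.Z.Ent

section step

variable {Ω Y D ι : Type*} [MeasurableSpace Ω] [StandardBorelSpace Ω] [Nonempty Ω]
  [MeasurableSpace Y] [StandardBorelSpace Y]
  [MeasurableSpace D] [Countable D] [MeasurableSingletonClass D]
  [Fintype ι] [MeasurableSpace ι] [MeasurableSingletonClass ι]
  {μ : Measure Ω} [IsProbabilityMeasure μ] {g : Ω → Y} {f : Ω → D}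

/-- Fano's inequality with side information.  The finite digit `Λ` is guessed from the label `g` by
`φ`; given `Λ` the digit `f` is coded with the weights `p`. -/
theorem fano_step (hg : Measurable g) (hf : Measurable f) {Λ : Ω → ι} (hΛ : Measurable Λ)
    {φ : Y → ι} (hφ : Measurable φ) {p : ι → D → ℝ≥0∞} (hp : ∀ l, ∑' i, p l i ≤ 1)
    {B : Set Ω} (hB : MeasurableSet B) (hS : Sat μ g B) {J : Ω → ℝ} (hJ : IntegrableOn J B μ)
    (hJp : ∀ᵐ x ∂μ, ENNReal.ofReal (Real.exp (-J x)) ≤ p (Λ x) (f x))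
    {e : ℝ} (he0 : 0 < e) (he1 : e < 1) :
    IntegrableOn (Ic μ f g) B μ ∧ ∫ x in B, Ic μ f g x ∂μ ≤ -Real.log (1 - e) +
      Real.log (Fintype.card ι / e) * μ.real {x | x ∈ B ∧ Λ x ≠ φ (g x)} + ∫ x in B, J x ∂μ := by
  classical
  have hne : Nonempty ι := ⟨Λ (Classical.arbitrary Ω)⟩
  have hc : (1 : ℝ) ≤ Fintype.card ι := by exact_mod_cast Fintype.card_pos
  set c : ℝ := (Fintype.card ι : ℝ) with hcdef
  set w : ι → ι → ℝ := fun j l => (if l = j then 1 - e else 0) + e / c with hw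
  have hw0 : ∀ j l, 0 ≤ w j l := fun j l => by
    simp only [hw]
    split_ifs <;> [positivity; positivity]
  have hw1 : ∀ j, ∑ l, w j l = 1 := fun j => by
    simp only [hw, Finset.sum_add_distrib, Finset.sum_ite_eq', Finset.mem_univ, if_true,
      Finset.sum_const, Finset.card_univ, nsmul_eq_mul, ← hcdef]
    field_simp
    ring
  set q : Y → D → ℝ≥0∞ := fun a i => ∑ l, ENNReal.ofReal (w (φ a) l) * p l i with hq
  have hqm : ∀ i, Measurable fun a => q a i := fun i =>
    (measurable_of_countable (fun j => ∑ l, ENNReal.ofReal (w j l) * p l i)).comp hφ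
  have hq1 : ∀ a, ∑' i, q a i ≤ 1 := fun a => by
    simp only [hq]
    rw [Summable.tsum_finsetSum fun _ _ => ENNReal.summable]
    calc ∑ l, ∑' i, ENNReal.ofReal (w (φ a) l) * p l i
        ≤ ∑ l, ENNReal.ofReal (w (φ a) l) := Finset.sum_le_sum fun l _ => by
          rw [ENNReal.tsum_mul_left]
          exact mul_le_of_le_one_right' (hp l)
      _ = 1 := by
          rw [← ENNReal.ofReal_sum_of_nonneg fun l _ => hw0 _ l, hw1, ENNReal.ofReal_one]
  set E : Set Ω := {x | Λ x ≠ φ (g x)} with hE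
  have hEm : MeasurableSet E := (measurableSet_eq_fun hΛ (hφ.comp hg)).compl
  have hl0 : 0 ≤ -Real.log (1 - e) :=
    neg_nonneg.2 (Real.log_nonpos (by linarith) (by linarith))
  set u : Ω → ℝ := fun x => (-Real.log (1 - e) + E.indicator (fun _ => Real.log (c / e)) x) + J x
    with hu
  have hi1 : IntegrableOn (fun x => E.indicator (fun _ => Real.log (c / e)) x) B μ :=
    (integrable_const _).indicator hEm
  have hi2 : IntegrableOn
      (fun x => -Real.log (1 - e) + E.indicator (fun _ => Real.log (c / e)) x) B μ :=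
    (integrable_const _).add hi1
  have hui : IntegrableOn u B μ := hi2.add hJ
  have hqu : ∀ᵐ x ∂μ, x ∈ B → ENNReal.ofReal (Real.exp (-u x)) ≤ q (g x) (f x) := by
    filter_upwards [hJp] with x hx _
    have h1 : Real.exp (-(-Real.log (1 - e) + E.indicator (fun _ => Real.log (c / e)) x))
        ≤ w (φ (g x)) (Λ x) := by
      by_cases hxE : x ∈ E
      · have hne' : Λ x ≠ φ (g x) := hxE
        simp only [hw, indicator_of_mem hxE, if_neg hne', zero_add]
        calc Real.exp (-(-Real.log (1 - e) + Real.log (c / e)))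
            ≤ Real.exp (-Real.log (c / e)) := Real.exp_le_exp.2 (by linarith)
          _ = e / c := by rw [Real.exp_neg, Real.exp_log (by positivity), inv_div]
      · have heq : Λ x = φ (g x) := not_not.1 hxE
        simp only [hw, indicator_of_notMem hxE, if_pos heq, add_zero, neg_neg]
        rw [Real.exp_log (by linarith)]
        exact le_add_of_nonneg_right (by positivity)
    calc ENNReal.ofReal (Real.exp (-u x))
        = ENNReal.ofReal (Real.exp (-(-Real.log (1 - e) +
            E.indicator (fun _ => Real.log (c / e)) x))) * ENNReal.ofReal (Real.exp (-J x)) := by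
          rw [← ENNReal.ofReal_mul (Real.exp_pos _).le, ← Real.exp_add, hu, neg_add]
      _ ≤ ENNReal.ofReal (w (φ (g x)) (Λ x)) * p (Λ x) (f x) :=
          mul_le_mul' (ENNReal.ofReal_le_ofReal h1) hx
      _ ≤ q (g x) (f x) :=
          Finset.single_le_sum (f := fun l => ENNReal.ofReal (w (φ (g x)) l) * p l (f x))
            (fun _ _ => zero_le) (Finset.mem_univ (Λ x))
  obtain ⟨hI, hle⟩ := gb_le hg hf hqm hq1 hB hS hui hqu
  refine ⟨hI, hle.trans ?_⟩
  rw [hu, integral_add hi2 hJ, integral_add (integrable_const _) hi1,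
    integral_indicator_const _ hEm]
  have h2 : (μ.restrict B).real E = μ.real {x | x ∈ B ∧ Λ x ≠ φ (g x)} := by
    rw [measureReal_restrict_apply hEm, inter_comm]
    rfl
  have h3 : μ.real B ≤ 1 := measureReal_le_one
  simp only [integral_const, MeasurableSet.univ, measureReal_restrict_apply, univ_inter,
    smul_eq_mul, h2]
  nlinarith [mul_le_mul_of_nonneg_right h3 hl0]

end step

/-- A number `e` with `-log (1 - e) ≤ ε`. -/
theorem exists_fano_e {ε : ℝ} (hε : 0 < ε) : ∃ e : ℝ, 0 < e ∧ e < 1 ∧ -Real.log (1 - e) ≤ ε := by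
  refine ⟨1 - Real.exp (-ε), ?_, ?_, ?_⟩
  · have := Real.exp_lt_one_iff.2 (neg_neg_of_pos hε)
    linarith
  · linarith [Real.exp_pos (-ε)]
  · simp

/-- Fano–Lusin with side information: for `ε > 0` there are `δ, η > 0`, depending only on the law
`ν`, on `L` and on `Rel`, such that `∫_B I(f | g) ≤ ε + ∫_B J` whenever the label `g` determines
`Lam` up to `Rel δ` on `B` off a set of measure `η` and `J` codes `f` given `L ∘ Lam`. -/
theorem fano_side {Z : Type*} [TopologicalSpace Z] [PolishSpace Z] [MeasurableSpace Z]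
    [BorelSpace Z] {Rel : ℝ → Z → Z → Prop} (hR : LusinRel Rel) (ν : Measure Z)
    [IsFiniteMeasure ν] {ι : Type*} [Fintype ι] [Nonempty ι] [MeasurableSpace ι]
    [MeasurableSingletonClass ι] {L : Z → ι} (hL : Measurable L) {ε : ℝ} (hε : 0 < ε) :
    ∃ δ > 0, ∃ η > 0, ∀ {Ω Y D : Type*} [MeasurableSpace Ω] [StandardBorelSpace Ω] [Nonempty Ω]
      [MeasurableSpace Y] [StandardBorelSpace Y] [MeasurableSpace D] [Countable D]
      [MeasurableSingletonClass D] (μ : Measure Ω) [IsProbabilityMeasure μ] (Lam : Ω → Z)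
      (g : Ω → Y) (f : Ω → D) (G B : Set Ω) (p : ι → D → ℝ≥0∞) (J : Ω → ℝ),
      Measurable Lam → μ.map Lam = ν → Measurable g → Measurable f → MeasurableSet G →
      MeasurableSet B → Sat μ g B → μ.real (B \ G) ≤ η →
      (∀ y ∈ G ∩ B, ∀ y' ∈ G ∩ B, g y = g y' → Rel δ (Lam y) (Lam y')) →
      (∀ l, ∑' i, p l i ≤ 1) → IntegrableOn J B μ →
      (∀ᵐ x ∂μ, ENNReal.ofReal (Real.exp (-J x)) ≤ p (L (Lam x)) (f x)) →
      ∫ x in B, Ic μ f g x ∂μ ≤ ε + ∫ x in B, J x ∂μ := by
  obtain ⟨e, he0, he1, he⟩ := exists_fano_e (half_pos hε)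
  have hc : (1 : ℝ) ≤ Fintype.card ι := by exact_mod_cast Fintype.card_pos
  set K : ℝ := Real.log (Fintype.card ι / e) with hK
  have hK0 : 0 ≤ K := Real.log_nonneg (by rw [le_div_iff₀ he0]; linarith)
  set η : ℝ := ε / (4 * (K + 1)) with hη
  have hη0 : 0 < η := by positivity
  obtain ⟨δ, hδ, hguess⟩ := hR.exists_guess ν hL (η := ENNReal.ofReal η) (by simpa using hη0)
  refine ⟨δ, hδ, η, hη0, ?_⟩
  intro Ω Y D _ _ _ _ _ _ _ _ μ _ Lam g f G B p J hLam hmap hg hf hG hB hS hBG hrel hp hJ hJp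
  obtain ⟨φ, hφ, hφ'⟩ := hguess μ Lam g (G ∩ B) hLam hmap hg (hG.inter hB) hrel
  have h1 := (fano_step hg hf (Λ := fun x => L (Lam x)) (hL.comp hLam) hφ hp hB hS hJ hJp
    he0 he1).2
  have h2 : μ.real {x | x ∈ B ∧ L (Lam x) ≠ φ (g x)} ≤ η + η := by
    calc μ.real {x | x ∈ B ∧ L (Lam x) ≠ φ (g x)}
        ≤ μ.real ((B \ G) ∪ {y | y ∈ G ∩ B ∧ L (Lam y) ≠ φ (g y)}) := by
          refine measureReal_mono fun x hx => ?_
          by_cases hxG : x ∈ G
          · exact Or.inr ⟨⟨hxG, hx.1⟩, hx.2⟩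
          · exact Or.inl ⟨hx.1, hxG⟩
      _ ≤ μ.real (B \ G) + μ.real {y | y ∈ G ∩ B ∧ L (Lam y) ≠ φ (g y)} :=
          measureReal_union_le _ _
      _ ≤ η + η := add_le_add hBG (ENNReal.toReal_le_of_le_ofReal hη0.le hφ')
  have h3 : K * (η + η) ≤ ε / 2 := by
    rw [hη, ← two_mul, mul_div_assoc', mul_div_assoc', div_le_div_iff₀ (by positivity) two_pos]
    nlinarith
  have h4 := mul_le_mul_of_nonneg_left h2 hK0
  linarith

end Pool.Agent.P.MP_d483fb_an.Z.Ent
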