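import Pool.Agent.P.MP_d483fb_an.Z.Ent.E6
import Pool.Agent.P.MP_d483fb_an.Z.Ent.Fano

/-!
E8: the Fano-Lusin estimate.
-/

namespace Pool.Agent.P.MP_d483fb_an.Z.Ent

open MeasureTheory ProbabilityTheory Set Filter
open scoped ENNReal

universe w

variable {Ω Z : Type*} [MeasurableSpace Ω] [StandardBorelSpace Ω] [Nonempty Ω]
  [TopologicalSpace Z] [PolishSpace Z] [MeasurableSpace Z] [BorelSpace Z]

theorem fano_lusin (μ : Measure Ω) [IsProbabilityMeasure μ] (ν : Measure Z) [IsFiniteMeasure ν]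
    {Rel : ℝ → Z → Z → Prop} (hR : LusinRel Rel) {p : ℕ} {L : Z → Fin (p + 1)} (hL : Measurable L)
    {ε : ℝ} (hε : 0 < ε) : ∃ δ : ℝ, 0 < δ ∧ ∃ η : ℝ, 0 < η ∧
      ∀ (Y : Type w) [MeasurableSpace Y] [StandardBorelSpace Y] (Lam : Ω → Z) (g : Ω → Y)
        (G B : Set Ω), Measurable Lam → μ.map Lam = ν → Measurable g → MeasurableSet G →
        MeasurableSet B → Sat μ g B → μ.real (B \ G) ≤ η →
        (∀ y ∈ G ∩ B, ∀ y' ∈ G ∩ B, g y = g y' → Rel δ (Lam y) (Lam y')) →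
        ∫ x in B, Ic μ (L ∘ Lam) g x ∂μ ≤ ε := by
  classical
  obtain ⟨δ, hδ, η, hη, h⟩ := fano_side.{_, _, _, w, 0} hR ν hL hε
  refine ⟨δ, hδ, η, hη, ?_⟩
  intro Y _ _ Lam g G B hLam hmap hg hG hB hS hBG hrel
  have := h μ Lam g (L ∘ Lam) G B (fun l i => if i = l then 1 else 0) (fun _ => 0) hLam hmap hg
    (hL.comp hLam) hG hB hS hBG hrel (fun l => by simp) (integrable_const 0)
    (ae_of_all _ fun x => by simp)
  simpa using this

end Pool.Agent.P.MP_d483fb_an.Z.Ent
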