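import Pool.Agent.P.MP_d483fb_an.Z.Ent.E7
import Pool.Agent.P.MP_d483fb_an.Z.Ent.E8
import Pool.Agent.P.MP_d483fb_an.Z.Erg.Birkhoff

/-!
E10: upper bound for the information of names.
-/

namespace Pool.Agent.P.MP_d483fb_an.Z.Ent

open MeasureTheory ProbabilityTheory Set Filter
open scoped ENNReal

variable {Ω Z D : Type*} [MeasurableSpace Ω] [StandardBorelSpace Ω] [Nonempty Ω]
  [TopologicalSpace Z] [PolishSpace Z] [MeasurableSpace Z] [BorelSpace Z]
  [MeasurableSpace D] [Countable D] [MeasurableSingletonClass D]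
  {μ : Measure Ω} [IsProbabilityMeasure μ] {T : Ω → Ω} {d : Ω → D}

omit [StandardBorelSpace Ω] [Nonempty Ω] in
/-- The `L¹` ergodic theorem on a sequence of sets. -/
theorem setIntegral_birkhoffSum_le (hT : Ergodic T μ) {J : Ω → ℝ} (hJ : Integrable J μ) {ε : ℝ}
    (hε : 0 < ε) : ∀ᶠ n : ℕ in atTop, ∀ B : Set Ω,
      ∫ x in B, birkhoffSum T J n x ∂μ ≤ n * (μ.real B * ∫ x, J x ∂μ + ε) := by
  have h1 := birkhoff_L1 hT.toMeasurePreserving hJ
  have h2 : ∀ n : ℕ, ∫ x, |birkhoffSum T J n x / n - (μ[J|MeasurableSpace.invariants T]) x| ∂μ =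
      ∫ x, |birkhoffSum T J n x / n - ∫ y, J y ∂μ| ∂μ := fun n =>
    integral_congr_ae ((condExp_invariants_of_ergodic hT J).mono fun x hx => by simp only [hx])
  simp only [h2] at h1
  filter_upwards [h1.eventually (ge_mem_nhds hε), eventually_gt_atTop 0] with n hn hn0 B
  have hn0' : (0 : ℝ) < n := by exact_mod_cast hn0
  have hi := integrable_birkhoffSum hT.toMeasurePreserving hJ n
  have hi2 : Integrable (fun x => birkhoffSum T J n x / n - ∫ y, J y ∂μ) μ :=
    (hi.div_const _).sub (integrable_const _)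
  have h3 : ∫ x in B, (birkhoffSum T J n x / n - ∫ y, J y ∂μ) ∂μ ≤ ε :=
    calc ∫ x in B, (birkhoffSum T J n x / n - ∫ y, J y ∂μ) ∂μ
        ≤ ∫ x in B, |birkhoffSum T J n x / n - ∫ y, J y ∂μ| ∂μ :=
          integral_mono hi2.integrableOn hi2.abs.integrableOn fun x => le_abs_self _
      _ ≤ ∫ x, |birkhoffSum T J n x / n - ∫ y, J y ∂μ| ∂μ :=
          setIntegral_le_integral hi2.abs (ae_of_all _ fun x => abs_nonneg _)
      _ ≤ ε := hn
  rw [integral_sub (hi.div_const _).integrableOn (integrable_const _), integral_div,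
    setIntegral_const, smul_eq_mul, sub_le_iff_le_add, div_le_iff₀ hn0'] at h3
  linarith

theorem names_upper (hT : Ergodic T μ) (hd : Measurable d) (hH : FinEnt μ d) {Lam : Ω → Z}
    (hL : Measurable Lam) {Rel : ℝ → Z → Z → Prop} (hR : LusinRel Rel) {Y : ℕ → Type*}
    [∀ n, MeasurableSpace (Y n)] [∀ n, StandardBorelSpace (Y n)] {g : ∀ n, Ω → Y n}
    (hg : ∀ n, Measurable (g n)) {B : ℕ → Set Ω} (hB : ∀ n, MeasurableSet (B n))
    (hs : ∀ n, Sat μ (g n) (B n)) (hN : Near μ T d Lam Rel g B) {ε : ℝ} (hε : 0 < ε) :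
    ∀ᶠ n : ℕ in atTop, ∫ x in B n, Ic μ (names T d n) (g n) x ∂μ ≤
      n * (μ.real (B n) * Hc μ d Lam + ε) := by
  classical
  have hε4 : 0 < ε / 4 := by positivity
  have hTm := hT.toMeasurePreserving
  obtain ⟨p, L, hLm, hLH⟩ := exists_finite_label hH hd hL hε4
  have hLL : Measurable (L ∘ Lam) := hLm.comp hL
  set J : Ω → ℝ := Ic μ d (L ∘ Lam) with hJdef
  have hJ : Integrable J μ := hH.integrable hd hLL
  set pw : Fin (p + 1) → D → ℝ≥0∞ := fun l i => condDistrib id (L ∘ Lam) μ l (d ⁻¹' {i}) with hpw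
  have hpw1 : ∀ l, ∑' i, pw l i ≤ 1 := fun l => by
    have := lintegral_digit (condDistrib id (L ∘ Lam) μ l) hd (fun _ => 1)
    simp only [lintegral_const, measure_univ, one_mul] at this
    exact this.ge
  have hJp : ∀ᵐ y ∂μ, ENNReal.ofReal (Real.exp (-J y)) ≤ pw (L (Lam y)) (d y) := by
    filter_upwards [exp_neg_Ic (μ := μ) hd hLL] with y hy
    rw [hJdef, hy]
    exact ENNReal.ofReal_toReal_le
  have hJk : ∀ k : ℕ, Integrable (fun x => J (T^[k] x)) μ := fun k =>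
    (hTm.iterate k).integrable_comp_of_integrable hJ
  have hJpk : ∀ k : ℕ, ∀ᵐ x ∂μ, ENNReal.ofReal (Real.exp (-J (T^[k] x))) ≤
      pw (L (Lam (T^[k] x))) (d (T^[k] x)) := fun k =>
    (hTm.iterate k).quasiMeasurePreserving.ae hJp
  have hTk : ∀ k : ℕ, Measurable (T^[k]) := fun k => hTm.measurable.iterate k
  obtain ⟨δ, hδ, η, hη, hF⟩ := fano_side hR (μ.map Lam) hLm hε4
  obtain ⟨k₀, hk₀⟩ := hN δ hδ η hη
  set K : ℝ := -Real.log (1 - 1 / 2) + Real.log (Fintype.card (Fin (p + 1)) / (1 / 2)) with hK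
  have hK2 : 0 ≤ Real.log (Fintype.card (Fin (p + 1)) / (1 / 2 : ℝ)) := by
    refine Real.log_nonneg ?_
    rw [Fintype.card_fin, le_div_iff₀ (by norm_num)]
    push_cast
    linarith [Nat.cast_nonneg (α := ℝ) p]
  have hK1 : 0 ≤ -Real.log (1 - 1 / 2 : ℝ) :=
    neg_nonneg.2 (Real.log_nonpos (by norm_num) (by norm_num))
  have hK0 : 0 ≤ K := add_nonneg hK1 hK2
  have hev : ∀ᶠ n : ℕ in atTop, k₀ * K ≤ n * (ε / 4) :=
    (tendsto_natCast_atTop_atTop.atTop_mul_const hε4).eventually_ge_atTop _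
  filter_upwards [hk₀, hev, setIntegral_birkhoffSum_le hT hJ hε4] with n hn hnK hnB
  have hgk : ∀ k, Measurable (pr2 (g n) (names T d k)) := fun k =>
    (hg n).prodMk (measurable_names hTm.measurable hd k)
  have hsk : ∀ k, Sat μ (pr2 (g n) (names T d k)) (B n) := fun k =>
    Sat.of_det (Det.fst _ _) (hs n)
  have hall : ∀ k, IntegrableOn (Ic μ (d ∘ T^[k]) (pr2 (g n) (names T d k))) (B n) μ ∧
      ∫ x in B n, Ic μ (d ∘ T^[k]) (pr2 (g n) (names T d k)) x ∂μ ≤
        K + ∫ x in B n, J (T^[k] x) ∂μ := fun k => by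
    obtain ⟨h1, h2⟩ := fano_step (hgk k) (hd.comp (hTk k))
      (Λ := fun x => L (Lam (T^[k] x))) (hLL.comp (hTk k)) (φ := fun _ => 0) measurable_const
      hpw1 (hB n) (hsk k) (hJk k).integrableOn (hJpk k) (e := 1 / 2) (by norm_num) (by norm_num)
    refine ⟨h1, h2.trans ?_⟩
    have := mul_le_of_le_one_right hK2
      (measureReal_le_one (μ := μ) (s := {x | x ∈ B n ∧ L (Lam (T^[k] x)) ≠ 0}))
    rw [hK]
    linarith
  have hgood : ∀ k, k₀ ≤ k → k < n →
      ∫ x in B n, Ic μ (d ∘ T^[k]) (pr2 (g n) (names T d k)) x ∂μ ≤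
        ε / 4 + ∫ x in B n, J (T^[k] x) ∂μ := fun k h1 h2 => by
    obtain ⟨G, hG, hGη, hGr⟩ := hn k h1 h2
    refine hF μ (fun x => Lam (T^[k] x)) _ _ G (B n) pw _ (hL.comp (hTk k)) ?_ (hgk k)
      (hd.comp (hTk k)) hG (hB n) (hsk k) hGη ?_ hpw1 (hJk k).integrableOn (hJpk k)
    · conv_rhs => rw [← (hTm.iterate k).map_eq]
      exact (Measure.map_map hL (hTk k)).symm
    · intro y hy y' hy' hyy
      exact hGr y hy y' hy' (congrArg Prod.fst hyy) (names_eq_iff.1 (congrArg Prod.snd hyy))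
  rw [integral_congr_ae (ae_restrict_of_ae (Ic_names hTm.measurable hd (hg n) n)),
    integral_finsetSum _ fun k _ => (hall k).1]
  have hsum : ∑ k ∈ Finset.range n,
      ∫ x in B n, Ic μ (d ∘ T^[k]) (pr2 (g n) (names T d k)) x ∂μ ≤
      ∑ k ∈ Finset.range n, ((if k < k₀ then K else 0) + ε / 4 +
        ∫ x in B n, J (T^[k] x) ∂μ) := by
    refine Finset.sum_le_sum fun k hk => ?_
    by_cases hkk : k < k₀
    · rw [if_pos hkk]
      linarith [(hall k).2]
    · rw [if_neg hkk, zero_add]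
      exact hgood k (not_lt.1 hkk) (Finset.mem_range.1 hk)
  have h1 : ∑ k ∈ Finset.range n, (if k < k₀ then K else 0) ≤ k₀ * K := by
    rw [← Finset.sum_filter, Finset.sum_const, nsmul_eq_mul]
    refine mul_le_mul_of_nonneg_right ?_ hK0
    have : ((Finset.range n).filter (· < k₀)).card ≤ (Finset.range k₀).card :=
      Finset.card_le_card fun k hk => Finset.mem_range.2 (Finset.mem_filter.1 hk).2
    rw [Finset.card_range] at this
    exact_mod_cast this
  have h2 : ∑ k ∈ Finset.range n, ∫ x in B n, J (T^[k] x) ∂μ =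
      ∫ x in B n, birkhoffSum T J n x ∂μ :=
    (integral_finsetSum (f := fun k x => J (T^[k] x)) _ fun k _ => (hJk k).integrableOn).symm
  rw [Finset.sum_add_distrib, Finset.sum_add_distrib, h2, Finset.sum_const, Finset.card_range,
    nsmul_eq_mul] at hsum
  have h3 := hnB (B n)
  have h4 : μ.real (B n) * ∫ x, J x ∂μ ≤ μ.real (B n) * Hc μ d Lam + ε / 4 := by
    have h5 : μ.real (B n) * ∫ x, J x ∂μ ≤ μ.real (B n) * (Hc μ d Lam + ε / 4) :=
      mul_le_mul_of_nonneg_left hLH measureReal_nonneg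
    have h6 := mul_le_of_le_one_left hε4.le (measureReal_le_one (μ := μ) (s := B n))
    linarith
  have h7 := mul_le_mul_of_nonneg_left h4 (Nat.cast_nonneg (α := ℝ) n)
  linarith

end Pool.Agent.P.MP_d483fb_an.Z.Ent
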