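import Pool.Agent.P.MP_d483fb_an.Z.Ent.E10

/-!
E11: lower bound for the information of a transversal digit.
-/

namespace Pool.Agent.P.MP_d483fb_an.Z.Ent

open MeasureTheory ProbabilityTheory Set Filter Topology
open scoped ENNReal

section abstract
variable {Ω : Type*} [MeasurableSpace Ω] {μ : Measure Ω} [IsProbabilityMeasure μ]

/-- Almost everywhere convergence of averages gives a small lower tail. -/
theorem E11_low {u : ℕ → Ω → ℝ} (hu : ∀ n, AEStronglyMeasurable (u n) μ) {h : ℝ}
    (hl : ∀ᵐ x ∂μ, Tendsto (fun n : ℕ => u n x / n) atTop (𝓝 h)) {η : ℝ} (hη : 0 < η) :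
    Tendsto (fun n : ℕ => μ.real {x | u n x < n * (h - η)}) atTop (𝓝 0) := by
  have h1 : TendstoInMeasure μ (fun (n : ℕ) x => u n x / n) atTop fun _ => h :=
    tendstoInMeasure_of_tendsto_ae (fun n => by
      simpa only [div_eq_mul_inv] using (hu n).mul_const ((n : ℝ)⁻¹)) hl
  have h2 := (tendstoInMeasure_iff_measureReal_dist.1 h1) η hη
  refine squeeze_zero' (Eventually.of_forall fun n => measureReal_nonneg) ?_ h2
  filter_upwards [eventually_gt_atTop 0] with n hn
  refine measureReal_mono (fun x hx => ?_) (measure_ne_top _ _)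
  have hn' : (0 : ℝ) < n := by exact_mod_cast hn
  simp only [mem_ofPred_eq] at hx ⊢
  have h3 : u n x / n < h - η := by
    rw [div_lt_iff₀ hn']
    linarith
  rw [Real.dist_eq]
  exact le_trans (by linarith) (neg_le_abs _)

/-- One step of the reversed Markov argument. -/
theorem E11_markov {W : Ω → ℝ} (hm : Measurable W) (hi : Integrable W μ) (h0 : ∀ x, 0 ≤ W x)
    {a b c : ℝ} (hab : a ≤ b) (hc : ∫ x, W x ∂μ ≤ c) :
    (b - a) * μ.real {x | b < W x} ≤ c - a + |a| * μ.real {x | W x < a} := by
  have hU : MeasurableSet {x | b < W x} := measurableSet_lt measurable_const hm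
  have hA : MeasurableSet {x | W x < a} := measurableSet_lt hm measurable_const
  have i1 : Integrable ({x | b < W x}.indicator fun _ => b - a) μ :=
    (integrable_const _).indicator hU
  have i2 : Integrable ({x | W x < a}.indicator fun _ => |a|) μ :=
    (integrable_const _).indicator hA
  have h1 : ∫ x, (a + {x | b < W x}.indicator (fun _ => b - a) x -
      {x | W x < a}.indicator (fun _ => |a|) x) ∂μ ≤ ∫ x, W x ∂μ := by
    refine integral_mono (((integrable_const a).add i1).sub i2) hi fun x => ?_
    have := h0 x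
    have h2 := le_abs_self a
    by_cases hx : b < W x
    · have hx' : ¬ W x < a := by linarith
      simp only [indicator, mem_ofPred_eq, hx, hx', if_true, if_false]
      linarith
    · by_cases hx' : W x < a
      · simp only [indicator, mem_ofPred_eq, hx, hx', if_true, if_false]
        linarith
      · simp only [indicator, mem_ofPred_eq, hx, hx', if_false]
        linarith
  have i3 : Integrable (fun x => a + {x | b < W x}.indicator (fun _ => b - a) x) μ :=
    (integrable_const a).add i1
  rw [integral_sub i3 i2, integral_add (integrable_const a) i1,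
    integral_indicator hU, integral_indicator hA] at h1
  simp only [integral_const, smul_eq_mul, probReal_univ, one_mul, measureReal_restrict_apply_univ]
    at h1
  nlinarith

/-- A nonnegative variable with mean at most its typical lower bound is concentrated. -/
theorem E11_conc {W : ℕ → Ω → ℝ} (hm : ∀ n, Measurable (W n)) (hi : ∀ n, Integrable (W n) μ)
    (h0 : ∀ n x, 0 ≤ W n x) {h : ℝ}
    (hup : ∀ η : ℝ, 0 < η → ∀ᶠ n : ℕ in atTop, ∫ x, W n x ∂μ ≤ n * (h + η))
    (hlo : ∀ η : ℝ, 0 < η → Tendsto (fun n : ℕ => μ.real {x | W n x < n * (h - η)}) atTop (𝓝 0))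
    {ε : ℝ} (hε : 0 < ε) :
    Tendsto (fun n : ℕ => μ.real {x | n * (h + ε) < W n x}) atTop (𝓝 0) := by
  rw [Metric.tendsto_nhds]
  intro δ hδ
  have hη : 0 < ε * δ / 4 := by positivity
  set η := ε * δ / 4 with hηd
  have hk : 0 < η / (|h - η| + 1) := by positivity
  filter_upwards [hup η hη, (hlo η hη).eventually (gt_mem_nhds hk), eventually_gt_atTop 0]
    with n h1 h2 hn
  have hn' : (0 : ℝ) < n := by exact_mod_cast hn
  have h3 := E11_markov (hm n) (hi n) (h0 n) (a := n * (h - η)) (b := n * (h + ε))
    (by nlinarith) h1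
  rw [abs_mul, abs_of_pos hn'] at h3
  rw [lt_div_iff₀ (by positivity)] at h2
  set u := μ.real {x | n * (h + ε) < W n x} with hu
  set v := μ.real {x | W n x < n * (h - η)} with hv
  have hu0 : 0 ≤ u := measureReal_nonneg
  have hv0 : 0 ≤ v := measureReal_nonneg
  have h4 : (n : ℝ) * ((ε + η) * u) ≤ n * (2 * η + |h - η| * v) := by nlinarith
  have h5 := le_of_mul_le_mul_left h4 hn'
  have h6 : ε * u < ε * δ := by nlinarith
  rw [Real.dist_eq, sub_zero, abs_of_nonneg hu0]
  exact lt_of_mul_lt_mul_left h6 hε.le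

theorem E11_exp {η : ℝ} (hη : 0 < η) :
    Tendsto (fun n : ℕ => Real.exp (-(n * η))) atTop (𝓝 0) :=
  Real.tendsto_exp_neg_atTop_nhds_zero.comp
    (tendsto_natCast_atTop_atTop.atTop_mul_const hη)

/-- A union bound up to a null set. -/
theorem E11_union {A B C : Set Ω} (h : ∀ᵐ x ∂μ, x ∈ A → x ∈ B ∨ x ∈ C) :
    μ.real A ≤ μ.real B + μ.real C := by
  refine le_trans ?_ (measureReal_union_le B C)
  refine ENNReal.toReal_mono (measure_ne_top _ _) (measure_mono_ae ?_)
  filter_upwards [h] with x hx hA using hx hA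

end abstract

variable {Ω Y Z D : Type*} [MeasurableSpace Ω] [StandardBorelSpace Ω] [Nonempty Ω]
  [MeasurableSpace Y] [StandardBorelSpace Y]
  [TopologicalSpace Z] [PolishSpace Z] [MeasurableSpace Z] [BorelSpace Z]
  [MeasurableSpace D] [Countable D] [MeasurableSingletonClass D]
  {μ : Measure Ω} [IsProbabilityMeasure μ] {T : Ω → Ω} {d : Ω → D}

/-- The information of the names given an increasing label has a small lower tail. -/
theorem E11_incr (hT : Ergodic T μ) (hd : Measurable d) (hH : FinEnt μ d) {F : Ω → Y}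
    (hF : Measurable F) (iF : Incr μ T F d) {η : ℝ} (hη : 0 < η) :
    Tendsto (fun n : ℕ => μ.real {x | Ic μ (names T d n) F x < n * (Hc μ d F - η)})
      atTop (𝓝 0) := by
  have hm : Measurable T := hT.toMeasurePreserving.measurable
  refine E11_low (fun n => (measurable_Ic (measurable_names hm hd n) hF).aestronglyMeasurable)
    ?_ hη
  filter_upwards [birkhoff_ergodic hT (hH.integrable hd hF),
    ae_all_iff.2 fun n => iF.Ic_names hT.toMeasurePreserving hd hF n] with x h1 h2
  simpa only [h2, Hc] using h1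

theorem digit_lower (hT : Ergodic T μ) (hd : Measurable d) (hH : FinEnt μ d) {F : Ω → Y}
    {S : Ω → Z} (hF : Measurable F) (hS : Measurable S) (iF : Incr μ T F d) (iS : Incr μ T S d)
    (hSF : Det μ S F) {Rel : ℝ → Z → Z → Prop} (hR : LusinRel Rel) {E : ℕ → Type*}
    [∀ n, MeasurableSpace (E n)] [∀ n, Countable (E n)] [∀ n, MeasurableSingletonClass (E n)]
    {sig : ∀ n, Ω → E n} (hsig : ∀ n, Measurable (sig n)) (hdet : ∀ n, Det μ S (sig n))
    (hN : Near μ T d S Rel (fun n => pr2 F (sig n)) fun _ => univ) {ε : ℝ} (hε : 0 < ε) :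
    Tendsto (fun n : ℕ => μ.real {x | Ic μ (sig n) F x < n * (Hc μ d F - Hc μ d S - ε)})
      atTop (𝓝 0) := by
  have hm : Measurable T := hT.toMeasurePreserving.measurable
  have hnm : ∀ n, Measurable (names T d n) := measurable_names hm hd
  have hg : ∀ n, Measurable (pr2 F (sig n)) := fun n => hF.prodMk (hsig n)
  have hlo : ∀ η : ℝ, 0 < η → Tendsto (fun n : ℕ =>
      μ.real {x | Ic μ (names T d n) (pr2 F (sig n)) x < n * (Hc μ d S - η)}) atTop (𝓝 0) := by
    intro η hη
    have h1 := (E11_incr hT hd hH hS iS (half_pos hη)).add (E11_exp (half_pos hη))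
    rw [add_zero] at h1
    refine squeeze_zero (fun n => measureReal_nonneg) (fun n => ?_) h1
    have h2 := meas_Ic_finer (μ := μ) (hnm n) hS (hg n) (hSF.pair (hdet n)) (n * (η / 2))
    rw [probReal_univ, mul_one] at h2
    refine le_trans (E11_union (Eventually.of_forall fun x hx => ?_)) (add_le_add le_rfl h2)
    simp only [mem_ofPred_eq] at hx ⊢
    by_contra hc
    push Not at hc
    nlinarith [hc.1, hc.2]
  have hup : ∀ η : ℝ, 0 < η → ∀ᶠ n : ℕ in atTop,
      ∫ x, Ic μ (names T d n) (pr2 F (sig n)) x ∂μ ≤ n * (Hc μ d S + η) := by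
    intro η hη
    filter_upwards [names_upper hT hd hH hS hR hg (fun _ => MeasurableSet.univ)
      (fun n => Sat.univ _) hN hη] with n hn
    simpa only [Measure.restrict_univ, probReal_univ, one_mul] using hn
  have hW := E11_conc (fun n => measurable_Ic (hnm n) (hg n))
    (fun n => (hH.names hT.toMeasurePreserving hd n).1.integrable (hnm n) (hg n))
    (fun n x => Ic_nonneg x) hup hlo (half_pos hε)
  have h1 := (E11_incr hT hd hH hF iF (half_pos hε)).add hW
  rw [add_zero] at h1
  refine squeeze_zero (fun n => measureReal_nonneg) (fun n => E11_union ?_) h1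
  filter_upwards [Ic_pair (μ := μ) (hsig n) (hnm n) hF,
    Ic_mono (μ := μ) (f := pr2 (sig n) (names T d n)) ((hsig n).prodMk (hnm n)) hF
      (e := names T d n) ((Det.snd _ _).trans (Det.snd _ _))] with x h2 h3 hx
  by_contra hc
  push Not at hc
  nlinarith [hc.1, hc.2]

end Pool.Agent.P.MP_d483fb_an.Z.Ent
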