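import Pool.Agent.P.MP_d483fb_an.Z.Ent.E1

/-!
Conditional measures: change of label, of measure, of space (E2, E3, E3', E4).
-/

namespace Pool.Agent.P.MP_d483fb_an.Z.Ent

open MeasureTheory ProbabilityTheory Set Filter
open scoped ENNReal

variable {Ω Y Z D : Type*} [MeasurableSpace Ω] [StandardBorelSpace Ω] [Nonempty Ω]
  [MeasurableSpace Y] [StandardBorelSpace Y] [MeasurableSpace Z] [StandardBorelSpace Z]
  [MeasurableSpace D] [Countable D] [MeasurableSingletonClass D]
  {μ : Measure Ω} [IsFiniteMeasure μ] {g : Ω → Z} {g' : Ω → Y} {f : Ω → D}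

omit [StandardBorelSpace Z] in
theorem E2_lintegral (hg : Measurable g) {A : Set Ω} (hA : MeasurableSet A) :
    ∫⁻ x, cp μ g x A ∂μ = μ A := by
  simpa using setLIntegral_cp (μ := μ) hg MeasurableSet.univ hA

omit [StandardBorelSpace Z] in
theorem E2_det {ν : Measure Ω} : Det ν g (cp μ g) :=
  Det.of_forall fun _ _ e => cp_eq_of_eq e

omit [StandardBorelSpace Z] in
theorem E2_meas (hg : Measurable g) {A : Set Ω} (hA : MeasurableSet A) :
    Measurable fun x => cp μ g x A :=
  (Measure.measurable_coe hA).comp (measurable_cp hg)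

/-- E2. -/
theorem cp_congr (hg : Measurable g) (hg' : Measurable g') (h : Det μ g g') (h' : Det μ g' g) :
    ∀ᵐ x ∂μ, cp μ g x = cp μ g' x := by
  have := cp_unique' (μ := μ) hg (κ := cp μ g') (measurable_cp hg') (h.trans E2_det)
    (Det.ae_cp hg' h') fun A hA => E2_lintegral hg' hA
  exact this.mono fun x hx => hx.symm

/-- Tower property, `g'` finer than `g`. -/
theorem cp_tower (hg : Measurable g) (hg' : Measurable g') (h : Det μ g' g) :
    ∀ᵐ x ∂μ, (cp μ g x).bind (cp μ g') = cp μ g x := by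
  refine cp_unique' (μ := μ) hg (κ := fun x => (cp μ g x).bind (cp μ g'))
    ((Measure.measurable_bind' (measurable_cp hg')).comp (measurable_cp hg))
    (Det.of_forall fun x y e => by rw [cp_eq_of_eq e]) ?_ ?_
  · filter_upwards [cp_atom (μ := μ) hg, ae_cp hg (Det.ae_cp hg' h)] with x h1 h2
    have hm : MeasurableSet {y | ¬ g y = g x} := (hg (measurableSet_singleton (g x))).compl
    rw [ae_iff, Measure.bind_apply hm (measurable_cp hg').aemeasurable]
    refine (lintegral_congr_ae (g := fun _ => 0) ?_).trans lintegral_zero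
    filter_upwards [h1, h2] with z hz1 hz2
    rw [← hz1]
    exact ae_iff.1 hz2
  · intro A hA
    simp only [Measure.bind_apply hA (measurable_cp (μ := μ) hg').aemeasurable]
    rw [lintegral_cp (μ := μ) hg (F := fun _ y => cp μ g' y A)
      ((E2_meas hg' hA).comp measurable_snd), E2_lintegral hg' hA]

/-- Conditioning inside an atom. -/
theorem cp_cp (hg : Measurable g) (hg' : Measurable g') :
    ∀ᵐ x ∂μ, ∀ᵐ y ∂(cp μ g x), cp (cp μ g x) g' y = cp μ (pr2 g g') y := by
  have hp : Measurable (pr2 g g') := hg.prodMk hg'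
  filter_upwards [cp_atom (μ := μ) hg, ae_cp hg (cp_atom (μ := μ) hp),
    cp_tower (μ := μ) hg hp (Det.fst g g')] with x h1 h2 h3
  have := cp_unique' (μ := cp μ g x) hg' (κ := cp μ (pr2 g g')) (measurable_cp hp)
    ⟨{y | g y = g x}, h1, fun y hy z hz e => cp_eq_of_eq (Prod.ext (hy.trans hz.symm) e)⟩
    (h2.mono fun y hy => hy.mono fun z hz => congrArg Prod.snd hz) fun A hA => by
      rw [← Measure.bind_apply hA (measurable_cp (μ := μ) hp).aemeasurable, h3]
  exact this.mono fun y hy => hy.symm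

theorem cp_smul (hg : Measurable g) {c : ℝ≥0∞} (h0 : c ≠ 0) {ν : Measure Ω} [IsFiniteMeasure ν]
    (h : ν = c • μ) : ∀ᵐ x ∂μ, cp ν g x = cp μ g x := by
  by_cases hc : c = ∞
  · have h1 : ν univ ≠ ∞ := measure_ne_top _ _
    rw [h, hc, Measure.smul_apply, smul_eq_mul] at h1
    have h2 : μ univ = 0 := by
      by_contra h2
      exact h1 (ENNReal.top_mul h2)
    rw [ae_iff]
    exact measure_mono_null (subset_univ _) h2
  have hac : μ ≪ ν := h ▸ Measure.absolutelyContinuous_smul h0
  refine cp_unique' (μ := μ) hg (κ := cp ν g) (measurable_cp hg) E2_det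
    (hac.ae_le (cp_atom hg)) fun A hA => ?_
  have h1 := E2_lintegral (μ := ν) hg hA
  have h2 : ∫⁻ x, cp ν g x A ∂ν = c * ∫⁻ x, cp ν g x A ∂μ := by
    generalize (fun x => cp ν g x A) = F
    rw [h, lintegral_smul_measure, smul_eq_mul]
  have h3 : ν A = c * μ A := by rw [h, Measure.smul_apply, smul_eq_mul]
  rw [h2, h3] at h1
  exact (ENNReal.mul_right_inj h0 hc).1 h1

/-- E3', general form. -/
theorem cp_restrict (hg : Measurable g) {B : Set Ω} (hB : MeasurableSet B) :
    ∀ᵐ x ∂(μ.restrict B), cp μ g x B ≠ 0 ∧ cp (μ.restrict B) g x = (cp μ g x)[|B] := by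
  have hN : MeasurableSet {x | cp μ g x B = 0} := E2_meas hg hB (measurableSet_singleton 0)
  have hs : Sat μ g {x | cp μ g x B = 0} :=
    Det.of_forall fun x y e => by simp only [mem_ofPred_eq, cp_eq_of_eq e]
  have h1 : μ ({x | cp μ g x B = 0} ∩ B) = 0 := by
    rw [← setLIntegral_cp_sat hg hN hs hB,
      setLIntegral_congr_fun hN (g := fun _ => 0) fun x hx => hx, lintegral_zero]
  have hpos : ∀ᵐ x ∂(μ.restrict B), cp μ g x B ≠ 0 := by
    rw [ae_iff]
    simp only [not_not]
    rwa [Measure.restrict_apply hN]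
  have hκ : Measurable fun x => (cp μ g x)[|B] := by
    refine Measure.measurable_of_measurable_coe _ fun A hA => ?_
    simp only [cond_apply hB]
    exact (E2_meas hg hB).inv.mul (E2_meas hg (hB.inter hA))
  have h2 := cp_unique' (μ := μ.restrict B) hg (κ := fun x => (cp μ g x)[|B]) hκ
    (Det.of_forall fun x y e => by rw [cp_eq_of_eq e])
    ((ae_restrict_of_ae (cp_atom (μ := μ) hg)).mono fun x hx =>
      cond_absolutelyContinuous.ae_le hx) fun A hA => by
      have hφ : Measurable fun z => (condDistrib id g μ z)[A|B] := by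
        simp only [cond_apply hB]
        exact (Kernel.measurable_coe _ hB).inv.mul (Kernel.measurable_coe _ (hB.inter hA))
      have e := lintegral_cp (μ := μ) hg
        (F := fun z y => (condDistrib id g μ z)[A|B] * B.indicator 1 y)
        ((hφ.comp measurable_fst).mul ((measurable_one.indicator hB).comp measurable_snd))
      have e1 : ∀ x, ∫⁻ y, (condDistrib id g μ (g x))[A|B] * B.indicator 1 y ∂(cp μ g x) =
          cp μ g x (B ∩ A) := by
        intro x
        rw [lintegral_const_mul _ (measurable_one.indicator hB), lintegral_indicator_one hB]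
        exact cond_mul_eq_inter hB A (cp μ g x)
      have e2 : ∀ y, (condDistrib id g μ (g y))[A|B] * B.indicator 1 y =
          B.indicator (fun y => (cp μ g y)[A|B]) y := by
        intro y
        by_cases hy : y ∈ B
        · simp only [indicator_of_mem hy, Pi.one_apply, mul_one]
          rfl
        · simp only [indicator_of_notMem hy, mul_zero]
      simp only [e1, e2] at e
      rw [lintegral_indicator hB, E2_lintegral hg (hB.inter hA)] at e
      rw [← e, Measure.restrict_apply hA, inter_comm]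
  filter_upwards [hpos, h2] with x h3 h4
  exact ⟨h3, h4.symm⟩

omit [StandardBorelSpace Ω] [Nonempty Ω] [IsFiniteMeasure μ] in
theorem E2_cond_ac (B : Set Ω) : μ[|B] ≪ μ.restrict B :=
  Measure.smul_absolutelyContinuous

theorem E2_cond (hg : Measurable g) (B : Set Ω) :
    ∀ᵐ x ∂(μ.restrict B), cp (μ[|B]) g x = cp (μ.restrict B) g x :=
  cp_smul (μ := μ.restrict B) hg (c := (μ B)⁻¹) (ENNReal.inv_ne_zero.2 (measure_ne_top _ _)) rfl

theorem cp_cond (hg : Measurable g) {B : Set Ω} (hB : MeasurableSet B) :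
    ∀ᵐ x ∂(μ[|B]), cp μ g x B ≠ 0 ∧ cp (μ[|B]) g x = (cp μ g x)[|B] := by
  refine (E2_cond_ac B).ae_le ?_
  filter_upwards [cp_restrict (μ := μ) hg hB, E2_cond (μ := μ) hg B] with x h1 h2
  exact ⟨h1.1, h2.trans h1.2⟩

/-- E3' for a saturated set. -/
theorem cp_restrict_sat (hg : Measurable g) {B : Set Ω} (hB : MeasurableSet B) (hs : Sat μ g B) :
    ∀ᵐ x ∂(μ.restrict B), cp (μ.restrict B) g x = cp μ g x := by
  filter_upwards [cp_restrict (μ := μ) hg hB, ae_restrict_of_ae (Det.ae_cp hg hs),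
    ae_restrict_mem hB] with x h1 h2 hx
  have h3 : ∀ᵐ y ∂(cp μ g x), y ∈ B := h2.mono fun y hy => hy.symm ▸ hx
  have h4 : (cp μ g x).restrict B = cp μ g x := Measure.restrict_eq_self_of_ae_mem h3
  have h5 : cp μ g x B = 1 := by
    rw [← Measure.restrict_apply_univ, h4, measure_univ]
  rw [h1.2, ProbabilityTheory.cond, h4, h5, inv_one, one_smul]

theorem cp_cond_sat (hg : Measurable g) {B : Set Ω} (hB : MeasurableSet B) (hs : Sat μ g B) :
    ∀ᵐ x ∂(μ[|B]), cp (μ[|B]) g x = cp μ g x := by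
  refine (E2_cond_ac B).ae_le ?_
  filter_upwards [cp_restrict_sat (μ := μ) hg hB hs, E2_cond (μ := μ) hg B] with x h1 h2
  exact h2.trans h1

/-- E2 on a set saturated for both labels. -/
theorem cp_congr_on (hg : Measurable g) (hg' : Measurable g') {B : Set Ω} (hB : MeasurableSet B)
    (hs : Sat μ g B) (hs' : Sat μ g' B) (h : Det (μ.restrict B) g g')
    (h' : Det (μ.restrict B) g' g) : ∀ᵐ x ∂(μ.restrict B), cp μ g x = cp μ g' x := by
  filter_upwards [cp_restrict_sat (μ := μ) hg hB hs, cp_restrict_sat (μ := μ) hg' hB hs',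
    cp_congr hg hg' h h'] with x h1 h2 h3
  rw [← h1, ← h2, h3]

/-- E3. -/
theorem cp_pair (hg : Measurable g) (hf : Measurable f) :
    ∀ᵐ x ∂μ, cp μ g x {y | f y = f x} ≠ 0 ∧
      cp μ (pr2 g f) x = (cp μ g x)[|{y | f y = f x}] := by
  have hp : Measurable (pr2 g f) := hg.prodMk hf
  have key : ∀ i : D, ∀ᵐ x ∂μ, x ∈ f ⁻¹' {i} → cp μ g x (f ⁻¹' {i}) ≠ 0 ∧
      cp μ (pr2 g f) x = (cp μ g x)[|f ⁻¹' {i}] := by
    intro i
    have hB : MeasurableSet (f ⁻¹' {i}) := hf (measurableSet_singleton i)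
    rw [← ae_restrict_iff' hB]
    have hd : Det (μ.restrict (f ⁻¹' {i})) g (pr2 g f) :=
      ⟨f ⁻¹' {i}, ae_restrict_mem hB, fun x hx y hy e =>
        Prod.ext e ((mem_singleton_iff.1 hx).trans (mem_singleton_iff.1 hy).symm)⟩
    filter_upwards [cp_restrict (μ := μ) hg hB,
      cp_restrict_sat (μ := μ) hp hB (Sat.preimage (Det.snd g f) {i}),
      cp_congr hg hp hd (Det.fst g f)] with x h1 h2 h3
    exact ⟨h1.1, by rw [← h2, ← h3, h1.2]⟩
  filter_upwards [ae_all_iff.2 key] with x hx
  exact hx (f x) rfl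

omit [StandardBorelSpace Z] in
/-- E4; no inverse of `T` is needed. -/
theorem cp_map {Ω' : Type*} [MeasurableSpace Ω'] [StandardBorelSpace Ω'] [Nonempty Ω']
    {ν : Measure Ω'} [IsFiniteMeasure ν] {T : Ω' → Ω} (hT : MeasurePreserving T ν μ)
    (hg : Measurable g) : ∀ᵐ x ∂ν, cp μ g (T x) = (cp ν (g ∘ T) x).map T := by
  have hm := hT.measurable
  obtain rfl : ν.map T = μ := hT.map_eq
  have h1 := condDistrib_map (X := g) (Y := (id : Ω → Ω)) (ν := ν) (f := T)
    hg.aemeasurable aemeasurable_id hm.aemeasurable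
  have h2 := condDistrib_comp (μ := ν) (Y := (id : Ω' → Ω')) (mβ := inferInstance) (g ∘ T)
    aemeasurable_id hm
  filter_upwards [ae_of_ae_map (hg.comp hm).aemeasurable h1,
    ae_of_ae_map (hg.comp hm).aemeasurable h2] with x e1 e2
  rw [Kernel.map_apply _ hm] at e2
  exact e1.trans e2

theorem cp_unit {μ : Measure Ω} [IsProbabilityMeasure μ] :
    ∀ᵐ x ∂μ, cp μ (fun _ => ()) x = μ := by
  have := cp_unique' (μ := μ) (g := fun _ => ()) measurable_const (κ := fun _ => μ)
    measurable_const (Det.of_forall fun _ _ _ => rfl)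
    (Eventually.of_forall fun _ => Eventually.of_forall fun _ => rfl) fun A _ => by simp
  exact this.mono fun x hx => hx.symm

end Pool.Agent.P.MP_d483fb_an.Z.Ent
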