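import Pool.Agent.P.MP_d483fb_an.Z.Ent.E2

/-!
Pointwise properties of conditional information.
-/

namespace Pool.Agent.P.MP_d483fb_an.Z.Ent

open MeasureTheory ProbabilityTheory Set Filter
open scoped ENNReal

variable {Ω Y Z D D' : Type*} [MeasurableSpace Ω] [StandardBorelSpace Ω] [Nonempty Ω]
  [MeasurableSpace Y] [StandardBorelSpace Y] [MeasurableSpace Z] [StandardBorelSpace Z]
  [MeasurableSpace D] [Countable D] [MeasurableSingletonClass D]
  [MeasurableSpace D'] [Countable D'] [MeasurableSingletonClass D']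
  {μ : Measure Ω} [IsFiniteMeasure μ] {g : Ω → Z} {g' : Ω → Y} {f : Ω → D} {e : Ω → D'}

section
omit [StandardBorelSpace Z] [MeasurableSpace D] [Countable D] [MeasurableSingletonClass D]

theorem Pc_nonneg (x : Ω) : 0 ≤ Pc μ f g x :=
  measureReal_nonneg

theorem Pc_le_one (x : Ω) : Pc μ f g x ≤ 1 :=
  measureReal_le_one

theorem Ic_nonneg (x : Ω) : 0 ≤ Ic μ f g x :=
  neg_nonneg.2 (Real.log_nonpos (Pc_nonneg x) (Pc_le_one x))

theorem Hc_nonneg : 0 ≤ Hc μ f g :=
  integral_nonneg fun x => Ic_nonneg x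

end

omit [StandardBorelSpace Z] in
theorem measurable_Pc (hf : Measurable f) (hg : Measurable g) : Measurable (Pc μ f g) := by
  have h : Measurable fun p : Ω × D => (cp μ g p.1).real {y | f y = p.2} :=
    measurable_from_prod_countable_left fun i =>
      ((Measure.measurable_coe (hf (measurableSet_singleton i))).comp
        (measurable_cp hg)).ennreal_toReal
  exact h.comp (measurable_id.prodMk hf)

omit [StandardBorelSpace Z] in
theorem measurable_Ic (hf : Measurable f) (hg : Measurable g) : Measurable (Ic μ f g) :=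
  (measurable_Pc hf hg).log.neg

theorem Pc_pos (hf : Measurable f) (hg : Measurable g) : ∀ᵐ x ∂μ, 0 < Pc μ f g x := by
  filter_upwards [cp_pair (μ := μ) hg hf] with x hx
  exact ENNReal.toReal_pos hx.1 (measure_ne_top _ _)

theorem exp_neg_Ic (hf : Measurable f) (hg : Measurable g) :
    ∀ᵐ x ∂μ, Real.exp (-Ic μ f g x) = Pc μ f g x := by
  filter_upwards [Pc_pos (μ := μ) hf hg] with x hx
  rw [Ic, neg_neg, Real.exp_log hx]

/-- Chain rule. -/
theorem Pc_pair (hf : Measurable f) (he : Measurable e) (hg : Measurable g) :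
    ∀ᵐ x ∂μ, Pc μ (pr2 f e) g x = Pc μ f g x * Pc μ e (pr2 g f) x := by
  filter_upwards [cp_pair (μ := μ) hg hf] with x hx
  have hA : MeasurableSet {y | f y = f x} := hf (measurableSet_singleton (f x))
  have hs : {y | pr2 f e y = pr2 f e x} = {y | f y = f x} ∩ {y | e y = e x} := by
    ext y
    exact Prod.ext_iff
  unfold Pc
  rw [hx.2, hs, measureReal_def, measureReal_def, measureReal_def, cond_apply hA,
    ← ENNReal.toReal_mul, ← mul_assoc, ENNReal.mul_inv_cancel hx.1 (measure_ne_top _ _), one_mul]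

theorem Ic_pair (hf : Measurable f) (he : Measurable e) (hg : Measurable g) :
    ∀ᵐ x ∂μ, Ic μ (pr2 f e) g x = Ic μ f g x + Ic μ e (pr2 g f) x := by
  filter_upwards [Pc_pair (μ := μ) hf he hg, Pc_pos (μ := μ) hf hg,
    Pc_pos (μ := μ) he (hg.prodMk hf)] with x h1 h2 h3
  unfold Ic
  rw [h1, Real.log_mul h2.ne' h3.ne', neg_add]

/-- A digit determined by another one (given the label) carries less information. -/
theorem Pc_mono (hg : Measurable g) {W W' : Type*} {f : Ω → W} {e : Ω → W'}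
    (h : Det μ (pr2 g f) e) : ∀ᵐ x ∂μ, Pc μ f g x ≤ Pc μ e g x := by
  obtain ⟨S, hS, h⟩ := h
  filter_upwards [hS, ae_cp hg hS, cp_atom (μ := μ) hg] with x hx h1 h2
  refine ENNReal.toReal_mono (measure_ne_top _ _) (measure_mono_ae ?_)
  filter_upwards [h1, h2] with y hy hgy hfy
  exact h y hy x hx (Prod.ext hgy hfy)

theorem Ic_mono (hf : Measurable f) (hg : Measurable g) {W' : Type*} {e : Ω → W'}
    (h : Det μ (pr2 g f) e) : ∀ᵐ x ∂μ, Ic μ e g x ≤ Ic μ f g x := by
  filter_upwards [Pc_mono hg h, Pc_pos (μ := μ) hf hg] with x h1 h2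
  exact neg_le_neg (Real.log_le_log h2 h1)

theorem Pc_congr (hg : Measurable g) (hg' : Measurable g') (h : Det μ g g') (h' : Det μ g' g)
    {W W' : Type*} {f : Ω → W} {e : Ω → W'} (h1 : Det μ (pr2 g f) e) (h2 : Det μ (pr2 g e) f) :
    ∀ᵐ x ∂μ, Pc μ f g x = Pc μ e g' x := by
  filter_upwards [Pc_mono hg h1, Pc_mono hg h2, cp_congr hg hg' h h'] with x k1 k2 k3
  rw [le_antisymm k1 k2]
  unfold Pc
  rw [k3]

theorem Ic_congr (hg : Measurable g) (hg' : Measurable g') (h : Det μ g g') (h' : Det μ g' g)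
    {W W' : Type*} {f : Ω → W} {e : Ω → W'} (h1 : Det μ (pr2 g f) e) (h2 : Det μ (pr2 g e) f) :
    ∀ᵐ x ∂μ, Ic μ f g x = Ic μ e g' x := by
  filter_upwards [Pc_congr hg hg' h h' h1 h2] with x hx
  unfold Ic
  rw [hx]

theorem Ic_eq_zero (hg : Measurable g) {W : Type*} {f : Ω → W} (h : Det μ g f) :
    ∀ᵐ x ∂μ, Ic μ f g x = 0 := by
  filter_upwards [h.ae_cp hg] with x hx
  have e : cp μ g x {y | f y = f x} = cp μ g x univ := measure_congr (eventuallyEq_univ.2 hx)
  unfold Ic Pc
  rw [measureReal_def, e, measure_univ, ENNReal.toReal_one, Real.log_one, neg_zero]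

/-- Localisation to a saturated set. -/
theorem Ic_restrict (hg : Measurable g) {B : Set Ω} (hB : MeasurableSet B) (hs : Sat μ g B)
    {W : Type*} (f : Ω → W) : ∀ᵐ x ∂(μ.restrict B), Ic (μ.restrict B) f g x = Ic μ f g x := by
  filter_upwards [cp_restrict_sat hg hB hs] with x hx
  unfold Ic Pc
  rw [hx]

theorem Ic_cond (hg : Measurable g) {B : Set Ω} (hB : MeasurableSet B) (hs : Sat μ g B)
    {W : Type*} (f : Ω → W) : ∀ᵐ x ∂(μ[|B]), Ic (μ[|B]) f g x = Ic μ f g x := by
  filter_upwards [cp_cond_sat hg hB hs] with x hx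
  unfold Ic Pc
  rw [hx]

theorem Ic_eq_zero_on (hg : Measurable g) {B : Set Ω} (hB : MeasurableSet B) (hs : Sat μ g B)
    {W : Type*} {f : Ω → W} (h : Det (μ.restrict B) g f) :
    ∀ᵐ x ∂(μ.restrict B), Ic μ f g x = 0 := by
  filter_upwards [Ic_eq_zero hg h, Ic_restrict hg hB hs f] with x h1 h2
  rw [← h2, h1]

section comp
variable {Ω' : Type*} [MeasurableSpace Ω'] [StandardBorelSpace Ω'] [Nonempty Ω']
  {ν : Measure Ω'} [IsFiniteMeasure ν] {T : Ω' → Ω}
omit [StandardBorelSpace Z]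

/-- E4. -/
theorem Pc_comp (hT : MeasurePreserving T ν μ) (hf : Measurable f) (hg : Measurable g) :
    ∀ᵐ x ∂ν, Pc ν (f ∘ T) (g ∘ T) x = Pc μ f g (T x) := by
  filter_upwards [cp_map hT hg] with x hx
  have hA : MeasurableSet {y | f y = f (T x)} := hf (measurableSet_singleton (f (T x)))
  unfold Pc
  rw [hx, measureReal_def, measureReal_def, Measure.map_apply hT.measurable hA]
  rfl

theorem Ic_comp (hT : MeasurePreserving T ν μ) (hf : Measurable f) (hg : Measurable g) :
    ∀ᵐ x ∂ν, Ic ν (f ∘ T) (g ∘ T) x = Ic μ f g (T x) := by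
  filter_upwards [Pc_comp hT hf hg] with x hx
  unfold Ic
  rw [hx]

theorem Hc_comp (hT : MeasurePreserving T ν μ) (hf : Measurable f) (hg : Measurable g) :
    Hc ν (f ∘ T) (g ∘ T) = Hc μ f g := by
  unfold Hc
  have h := integral_map (μ := ν) hT.aemeasurable
    (measurable_Ic (μ := μ) hf hg).aestronglyMeasurable
  rw [hT.map_eq] at h
  rw [integral_congr_ae (Ic_comp hT hf hg), h]

end comp

/-- Chain rule along the orbit. -/
theorem Ic_names {T : Ω → Ω} (hT : Measurable T) (hf : Measurable f) (hg : Measurable g) (n : ℕ) :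
    ∀ᵐ x ∂μ, Ic μ (names T f n) g x =
      ∑ k ∈ Finset.range n, Ic μ (f ∘ T^[k]) (pr2 g (names T f k)) x := by
  induction n with
  | zero =>
    filter_upwards [Ic_eq_zero (μ := μ) hg (f := names T f 0)
      (Det.of_forall fun x y _ => funext fun i => i.elim0)] with x hx
    rw [hx, Finset.sum_range_zero]
  | succ n ih =>
    have h1 : Det μ (pr2 g (names T f (n + 1))) (pr2 (names T f n) (f ∘ T^[n])) :=
      Det.of_forall fun x y h => by
        have h' := names_eq_iff.1 (Prod.ext_iff.1 h).2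
        exact Prod.ext (names_eq_iff.2 fun i hi => h' i (Nat.lt_succ_of_lt hi))
          (h' n (Nat.lt_succ_self n))
    have h2 : Det μ (pr2 g (pr2 (names T f n) (f ∘ T^[n]))) (names T f (n + 1)) :=
      Det.of_forall fun x y h => by
        have h' := Prod.ext_iff.1 (Prod.ext_iff.1 h).2
        refine names_eq_iff.2 fun i hi => ?_
        rcases Nat.lt_succ_iff_lt_or_eq.1 hi with hi | rfl
        · exact names_eq_iff.1 h'.1 i hi
        · exact h'.2
    filter_upwards [ih, Ic_congr hg hg (Det.refl g) (Det.refl g) h1 h2,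
      Ic_pair (μ := μ) (measurable_names hT hf n) (hf.comp (hT.iterate n)) hg] with x k1 k2 k3
    rw [k2, k3, k1, Finset.sum_range_succ]

/-- The information of the names given an increasing label is a Birkhoff sum. -/
theorem Incr.Ic_names {T : Ω → Ω} (hT : MeasurePreserving T μ μ) (hf : Measurable f)
    (hg : Measurable g) (h : Incr μ T g f) (n : ℕ) :
    ∀ᵐ x ∂μ, Ic μ (names T f n) g x = birkhoffSum T (Ic μ f g) n x := by
  have key : ∀ k : ℕ, ∀ᵐ x ∂μ,
      Ic μ (f ∘ T^[k]) (pr2 g (names T f k)) x = Ic μ f g (T^[k] x) := fun k => by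
    have hi := h.iter hT.quasiMeasurePreserving k
    filter_upwards [Ic_congr (hg.prodMk (measurable_names hT.measurable hf k))
      (hg.comp (hT.measurable.iterate k)) hi.2 hi.1 (Det.snd _ (f ∘ T^[k])) (Det.snd _ (f ∘ T^[k])),
      Ic_comp (hT.iterate k) hf hg] with x k1 k2
    exact k1.trans k2
  filter_upwards [Ent.Ic_names (μ := μ) hT.measurable hf hg n, ae_all_iff.2 key] with x k1 k2
  rw [k1, birkhoffSum]
  exact Finset.sum_congr rfl fun k _ => k2 k

section prob
variable {μ : Measure Ω} [IsProbabilityMeasure μ]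

theorem Ic_unit {W : Type*} (f : Ω → W) : ∀ᵐ x ∂μ, Ic μ f (fun _ => ()) x = I0 μ f x := by
  filter_upwards [cp_unit (μ := μ)] with x hx
  unfold Ic Pc I0
  rw [hx]

theorem I0_pair (hf : Measurable f) (he : Measurable e) :
    ∀ᵐ x ∂μ, I0 μ (pr2 f e) x = I0 μ f x + Ic μ e f x := by
  have hu : Measurable fun _ : Ω => () := measurable_const
  filter_upwards [Ic_unit (μ := μ) (pr2 f e), Ic_unit (μ := μ) f, Ic_pair (μ := μ) hf he hu,
    Ic_congr (μ := μ) (hu.prodMk hf) hf (Det.snd _ f)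
      (Det.of_forall fun x y h => Prod.ext rfl h) (Det.snd _ e) (Det.snd _ e)] with x k1 k2 k3 k4
  rw [← k1, ← k2, k3]
  exact congrArg _ k4

end prob

end Pool.Agent.P.MP_d483fb_an.Z.Ent
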