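import Pool.Agent.P.MP_d483fb_an.Z.Ent.E3

/-!
Gibbs inequality and its consequences (E5, E6, COUNT, LOW).
-/

namespace Pool.Agent.P.MP_d483fb_an.Z.Ent

open MeasureTheory ProbabilityTheory Set Filter
open scoped ENNReal

variable {Ω Y Z D D' : Type*} [MeasurableSpace Ω] [StandardBorelSpace Ω] [Nonempty Ω]
  [MeasurableSpace Y] [StandardBorelSpace Y] [MeasurableSpace Z] [StandardBorelSpace Z]
  [MeasurableSpace D] [Countable D] [MeasurableSingletonClass D]
  [MeasurableSpace D'] [Countable D'] [MeasurableSingletonClass D']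
  {μ : Measure Ω} [IsFiniteMeasure μ] {g : Ω → Z} {g' : Ω → Y} {f : Ω → D} {e : Ω → D'}

/-- Sub-probability weights on the digits that depend only on the label. -/
structure Wts (μ : Measure Ω) (g : Ω → Z) (q : Ω → D → ℝ) : Prop where
  meas : ∀ i, Measurable fun x => q x i
  nonneg : ∀ x i, 0 ≤ q x i
  det : Det μ g q
  sum : ∀ᵐ x ∂μ, ∀ s : Finset D, ∑ i ∈ s, q x i ≤ 1

omit [StandardBorelSpace Ω] [Nonempty Ω] in
theorem E5_meas (hf : Measurable f) {q : Ω → D → ℝ} (hq : ∀ i, Measurable fun x => q x i) :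
    Measurable fun x => q x (f x) :=
  (measurable_from_prod_countable_left (f := fun p : Ω × D => q p.1 p.2) hq).comp
    (measurable_id.prodMk hf)

theorem E5_dis (hg : Measurable g) {Φ : Ω → ℝ≥0∞} (hΦ : Measurable Φ) :
    ∫⁻ x, Φ x ∂μ = ∫⁻ x, ∫⁻ y, Φ y ∂(cp μ g x) ∂μ :=
  (lintegral_cp hg (F := fun _ y => Φ y) (hΦ.comp measurable_snd)).symm

omit [StandardBorelSpace Ω] [Nonempty Ω] in
theorem E5_inner (ν : Measure Ω) [IsFiniteMeasure ν] (hf : Measurable f) {w : D → ℝ}
    (h0 : ∀ i, 0 ≤ w i) (h1 : ∀ s : Finset D, ∑ i ∈ s, w i ≤ 1) :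
    ∫⁻ y, ENNReal.ofReal (w (f y) / ν.real {y' | f y' = f y}) ∂ν ≤ 1 := by
  have e := lintegral_map (μ := ν)
    (f := fun i => ENNReal.ofReal (w i / ν.real {y' | f y' = i})) (measurable_of_countable _) hf
  rw [← e, lintegral_countable']
  calc ∑' i, ENNReal.ofReal (w i / ν.real {y' | f y' = i}) * (ν.map f) {i}
      ≤ ∑' i, ENNReal.ofReal (w i) := by
        refine ENNReal.tsum_le_tsum fun i => ?_
        rw [Measure.map_apply hf (measurableSet_singleton i)]
        have e2 : ν (f ⁻¹' {i}) = ENNReal.ofReal (ν.real {y' | f y' = i}) :=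
          (ofReal_measureReal (measure_ne_top _ _)).symm
        rw [e2, ← ENNReal.ofReal_mul (div_nonneg (h0 i) measureReal_nonneg)]
        refine ENNReal.ofReal_le_ofReal ?_
        rcases eq_or_ne (ν.real {y' | f y' = i}) 0 with h | h
        · rw [h, mul_zero]
          exact h0 i
        · rw [div_mul_cancel₀ _ h]
    _ ≤ 1 := by
        rw [ENNReal.tsum_eq_iSup_sum]
        refine iSup_le fun s => ?_
        rw [← ENNReal.ofReal_sum_of_nonneg fun i _ => h0 i]
        exact ENNReal.ofReal_le_one.mpr (h1 s)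

omit [StandardBorelSpace Ω] [Nonempty Ω] in
theorem E5_mono {A B : Set Ω} (h : ∀ᵐ x ∂μ, x ∈ A → x ∈ B) : μ.real A ≤ μ.real B :=
  ENNReal.toReal_mono (measure_ne_top _ _) (measure_mono_ae h)

/-- The conditional law given a coarser label is a family of weights. -/
theorem wts_cp (hf : Measurable f) (hg' : Measurable g') (h : Det μ g g') :
    Wts μ g fun x i => (cp μ g' x).real {y | f y = i} where
  meas i := ((Measure.measurable_coe (hf (measurableSet_singleton i))).comp
    (measurable_cp hg')).ennreal_toReal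
  nonneg _ _ := measureReal_nonneg
  det := h.trans (Det.of_forall fun x y hxy => by rw [cp_eq_of_eq hxy])
  sum := ae_of_all _ fun x s =>
    (sum_measureReal_preimage_singleton (μ := cp μ g' x) s
      (fun i _ => hf (measurableSet_singleton i))).trans_le measureReal_le_one

/-- E5, first form. -/
theorem lintegral_ratio (hf : Measurable f) (hg : Measurable g) {q : Ω → D → ℝ} (hq : Wts μ g q)
    {B : Set Ω} (hB : MeasurableSet B) (hs : Sat μ g B) :
    ∫⁻ x in B, ENNReal.ofReal (q x (f x) / Pc μ f g x) ∂μ ≤ μ B := by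
  have hΦ : Measurable fun x => ENNReal.ofReal (q x (f x) / Pc μ f g x) :=
    ((E5_meas hf hq.meas).div (measurable_Pc hf hg)).ennreal_ofReal
  rw [← lintegral_indicator hB, E5_dis hg (hΦ.indicator hB), ← lintegral_indicator_one hB]
  refine lintegral_mono_ae ?_
  filter_upwards [Det.ae_cp hg hs, hq.det.ae_cp hg, cp_atom (μ := μ) hg, hq.sum] with x h1 h2 h3 h4
  by_cases hx : x ∈ B
  · rw [indicator_of_mem hx]
    refine le_trans (lintegral_mono_ae ?_) (E5_inner (cp μ g x) hf (hq.nonneg x) h4)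
    filter_upwards [h2, h3] with y a2 a3
    refine (indicator_le_self _ _ y).trans (le_of_eq ?_)
    rw [a2, Pc, cp_eq_of_eq a3]
  · rw [indicator_of_notMem hx]
    refine le_of_eq ((lintegral_congr_ae ?_).trans lintegral_zero)
    filter_upwards [h1] with y a1
    exact indicator_of_notMem (fun hy => hx (a1 ▸ hy)) _

/-- E5, Gibbs inequality on a saturated set. -/
theorem gibbs (hf : Measurable f) (hg : Measurable g) {q : Ω → D → ℝ} (hq : Wts μ g q)
    {B : Set Ω} (hB : MeasurableSet B) (hs : Sat μ g B) (h0 : ∀ᵐ x ∂(μ.restrict B), 0 < q x (f x))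
    (hi : IntegrableOn (fun x => -Real.log (q x (f x))) B μ) :
    IntegrableOn (Ic μ f g) B μ ∧
      ∫ x in B, Ic μ f g x ∂μ ≤ ∫ x in B, -Real.log (q x (f x)) ∂μ := by
  have hr : Measurable fun x => q x (f x) / Pc μ f g x :=
    (E5_meas hf hq.meas).div (measurable_Pc hf hg)
  have hn : ∀ x, 0 ≤ q x (f x) / Pc μ f g x := fun x => div_nonneg (hq.nonneg _ _) (Pc_nonneg x)
  have hl := lintegral_ratio hf hg hq hB hs
  have i1 : IntegrableOn (fun x => q x (f x) / Pc μ f g x) B μ :=
    ⟨hr.aestronglyMeasurable, (hasFiniteIntegral_iff_ofReal (ae_of_all _ hn)).mpr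
      (hl.trans_lt (measure_lt_top _ _))⟩
  have i2 : ∫ x in B, q x (f x) / Pc μ f g x ∂μ ≤ μ.real B := by
    rw [integral_eq_lintegral_of_nonneg_ae (ae_of_all _ hn) hr.aestronglyMeasurable]
    exact ENNReal.toReal_mono (measure_ne_top _ _) hl
  have hb : ∀ᵐ x ∂(μ.restrict B),
      Ic μ f g x ≤ -Real.log (q x (f x)) + q x (f x) / Pc μ f g x - 1 := by
    filter_upwards [h0, ae_restrict_of_ae (Pc_pos (μ := μ) hf hg)] with x a1 a2
    have a3 := Real.log_le_sub_one_of_pos (div_pos a1 a2)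
    rw [Real.log_div a1.ne' a2.ne'] at a3
    rw [Ic]
    linarith
  have i3 : IntegrableOn (fun x => -Real.log (q x (f x)) + q x (f x) / Pc μ f g x) B μ :=
    Integrable.add hi i1
  have i4 : IntegrableOn (fun x => -Real.log (q x (f x)) + q x (f x) / Pc μ f g x - 1) B μ :=
    Integrable.sub i3 (integrable_const 1)
  have i5 : IntegrableOn (Ic μ f g) B μ :=
    Integrable.mono' i4 (measurable_Ic hf hg).aestronglyMeasurable
      (hb.mono fun x hx => by rwa [Real.norm_of_nonneg (Ic_nonneg x)])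
  refine ⟨i5, (integral_mono_ae i5 i4 hb).trans ?_⟩
  rw [integral_sub i3 (integrable_const 1), integral_add hi i1, integral_const,
    measureReal_restrict_apply_univ, smul_eq_mul, mul_one]
  linarith

/-- E5, tail form. -/
theorem meas_ratio (hf : Measurable f) (hg : Measurable g) {q : Ω → D → ℝ} (hq : Wts μ g q)
    (t : ℝ) : μ.real {x | Real.exp t * Pc μ f g x < q x (f x)} ≤ Real.exp (-t) * μ.real univ := by
  have hΦ : Measurable fun x => ENNReal.ofReal (q x (f x) / Pc μ f g x) :=
    ((E5_meas hf hq.meas).div (measurable_Pc hf hg)).ennreal_ofReal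
  have h1 := lintegral_ratio hf hg hq MeasurableSet.univ (Sat.univ g)
  rw [Measure.restrict_univ] at h1
  have h2 := (mul_meas_ge_le_lintegral hΦ (μ := μ) (ENNReal.ofReal (Real.exp t))).trans h1
  have h3 := ENNReal.toReal_mono (measure_ne_top _ _) h2
  rw [ENNReal.toReal_mul, ENNReal.toReal_ofReal (Real.exp_pos t).le] at h3
  have h4 : μ.real {x | Real.exp t * Pc μ f g x < q x (f x)} ≤ μ.real
      {x | ENNReal.ofReal (Real.exp t) ≤ ENNReal.ofReal (q x (f x) / Pc μ f g x)} := by
    refine E5_mono ?_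
    filter_upwards [Pc_pos (μ := μ) hf hg] with x a1 a2
    exact ENNReal.ofReal_le_ofReal ((le_div_iff₀ a1).mpr (le_of_lt a2))
  refine h4.trans ?_
  rw [Real.exp_neg, ← div_eq_inv_mul, le_div_iff₀ (Real.exp_pos t), mul_comm]
  exact h3

theorem meas_Ic_gt (hf : Measurable f) (hg : Measurable g) {q : Ω → D → ℝ} (hq : Wts μ g q)
    (t : ℝ) : μ.real {x | 0 < q x (f x) ∧ -Real.log (q x (f x)) + t < Ic μ f g x} ≤
      Real.exp (-t) * μ.real univ := by
  refine le_trans (E5_mono ?_) (meas_ratio hf hg hq t)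
  filter_upwards [Pc_pos (μ := μ) hf hg] with x a1 ⟨a2, a3⟩
  show Real.exp t * Pc μ f g x < q x (f x)
  rw [← Real.exp_log a1, ← Real.exp_log a2, ← Real.exp_add, Real.exp_lt_exp]
  rw [Ic] at a3
  linarith

/-- A finer label `g` does not increase the information, up to `t`. -/
theorem meas_Ic_finer (hf : Measurable f) (hg : Measurable g) (hg' : Measurable g')
    (h : Det μ g g') (t : ℝ) :
    μ.real {x | Ic μ f g' x + t < Ic μ f g x} ≤ Real.exp (-t) * μ.real univ := by
  refine le_trans (E5_mono ?_) (meas_Ic_gt hf hg (wts_cp hf hg' h) t)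
  filter_upwards [Pc_pos (μ := μ) hf hg'] with x a1 a2
  exact ⟨a1, a2⟩

/-- E6. -/
theorem setIntegral_Ic_finer (hf : Measurable f) (hg : Measurable g) (hg' : Measurable g')
    (h : Det μ g g') {B : Set Ω} (hB : MeasurableSet B) (hs : Sat μ g B)
    (hi : IntegrableOn (Ic μ f g') B μ) :
    IntegrableOn (Ic μ f g) B μ ∧ ∫ x in B, Ic μ f g x ∂μ ≤ ∫ x in B, Ic μ f g' x ∂μ :=
  gibbs hf hg (wts_cp hf hg' h) hB hs (ae_restrict_of_ae (Pc_pos (μ := μ) hf hg')) hi

theorem Hc_finer (hf : Measurable f) (hg : Measurable g) (hg' : Measurable g') (h : Det μ g g')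
    (hi : Integrable (Ic μ f g') μ) : Integrable (Ic μ f g) μ ∧ Hc μ f g ≤ Hc μ f g' := by
  have h1 := setIntegral_Ic_finer hf hg hg' h MeasurableSet.univ (Sat.univ g) hi.integrableOn
  rw [integrableOn_univ, Measure.restrict_univ] at h1
  exact h1

/-- A digit with finitely many values. -/
theorem setIntegral_Ic_card [Fintype D] (hf : Measurable f) (hg : Measurable g) {B : Set Ω}
    (hB : MeasurableSet B) (hs : Sat μ g B) : IntegrableOn (Ic μ f g) B μ ∧
      ∫ x in B, Ic μ f g x ∂μ ≤ μ.real B * Real.log (Fintype.card D) := by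
  have : Nonempty D := ⟨f (Classical.arbitrary Ω)⟩
  have hc : (0 : ℝ) < Fintype.card D := by exact_mod_cast Fintype.card_pos
  have hq : Wts μ g fun (_ : Ω) (_ : D) => ((Fintype.card D : ℝ))⁻¹ :=
    ⟨fun _ => measurable_const, fun _ _ => (inv_pos.mpr hc).le, Det.of_forall fun _ _ _ => rfl,
      ae_of_all _ fun _ s => by
        rw [Finset.sum_const, nsmul_eq_mul, ← div_eq_mul_inv, div_le_one hc]
        exact_mod_cast s.card_le_univ⟩
  have h1 := gibbs hf hg hq hB hs (ae_of_all _ fun _ => inv_pos.mpr hc) (integrable_const _)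
  rw [integral_const, measureReal_restrict_apply_univ, smul_eq_mul, Real.log_inv, neg_neg] at h1
  exact h1

/-- E14, COUNT. -/
theorem meas_count (hf : Measurable f) (hg : Measurable g) {G : Set Ω} (hG : MeasurableSet G)
    {Q : ℝ} (hQ : 0 < Q)
    (h : ∀ z : Z, ∃ s : Finset D, (s.card : ℝ) ≤ Q ∧ ∀ y ∈ G, g y = z → f y ∈ s) (t : ℝ) :
    μ.real (G ∩ {x | Real.log Q + t < Ic μ f g x}) ≤ Real.exp (-t) * μ.real univ := by
  classical
  have hS : MeasurableSet (G ∩ {x | Real.log Q + t < Ic μ f g x}) :=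
    hG.inter (measurableSet_lt measurable_const (measurable_Ic hf hg))
  have h1 : μ (G ∩ {x | Real.log Q + t < Ic μ f g x}) ≤
      ENNReal.ofReal (Real.exp (-t)) * μ univ := by
    rw [← lintegral_indicator_one hS, E5_dis hg (measurable_one.indicator hS), ← lintegral_const]
    refine lintegral_mono_ae ?_
    filter_upwards [cp_atom (μ := μ) hg] with x hx
    obtain ⟨s, hs, hs'⟩ := h (g x)
    rw [lintegral_indicator_one hS, ← ofReal_measureReal (measure_ne_top _ _)]
    refine ENNReal.ofReal_le_ofReal ?_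
    set s' := s.filter fun i => Real.log Q + t < -Real.log ((cp μ g x).real {y | f y = i})
    have a1 : (cp μ g x).real (G ∩ {x | Real.log Q + t < Ic μ f g x}) ≤
        (cp μ g x).real (f ⁻¹' (s' : Set D)) := by
      refine E5_mono ?_
      filter_upwards [hx] with y b1 ⟨b2, b3⟩
      refine Finset.mem_coe.mpr (Finset.mem_filter.mpr ⟨hs' y b2 b1, ?_⟩)
      rw [← cp_eq_of_eq b1]
      exact b3
    rw [← sum_measureReal_preimage_singleton s' fun i _ => hf (measurableSet_singleton i)] at a1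
    have a2 : ∀ i ∈ s', (cp μ g x).real (f ⁻¹' {i}) ≤ Real.exp (-t) / Q := fun i hi => by
      have b1 := (Finset.mem_filter.mp hi).2
      rcases (measureReal_nonneg (μ := cp μ g x) (s := {y | f y = i})).eq_or_lt with b2 | b2
      · exact b2.symm.trans_le (by positivity)
      · show (cp μ g x).real {y | f y = i} ≤ _
        rw [← Real.exp_log b2, ← Real.exp_log hQ, ← Real.exp_sub, Real.exp_le_exp]
        linarith
    have a3 := Finset.sum_le_card_nsmul _ _ _ a2
    have a4 : (s'.card : ℝ) ≤ Q := le_trans (by exact_mod_cast s.card_filter_le _) hs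
    rw [nsmul_eq_mul] at a3
    refine a1.trans (a3.trans ((mul_le_mul_of_nonneg_right a4 (by positivity)).trans_eq ?_))
    exact mul_div_cancel₀ _ hQ.ne'
  have h2 := ENNReal.toReal_mono
    (ENNReal.mul_ne_top ENNReal.ofReal_ne_top (measure_ne_top _ _)) h1
  rwa [ENNReal.toReal_mul, ENNReal.toReal_ofReal (Real.exp_pos _).le] at h2

/-- LOW. -/
theorem meas_low {f : Ω → ℕ} (hf : Measurable f) (hg : Measurable g) (t : ℝ) :
    μ.real {x | (f x + 1) * Real.log 2 + t < Ic μ f g x} ≤ Real.exp (-t) * μ.real univ := by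
  have hq : Wts μ g fun (_ : Ω) (i : ℕ) => (1 : ℝ) / 2 / 2 ^ i :=
    ⟨fun _ => measurable_const, fun _ _ => by positivity, Det.of_forall fun _ _ _ => rfl,
      ae_of_all _ fun _ s => sum_le_hasSum s (fun _ _ => by positivity) (hasSum_geometric_two' 1)⟩
  refine le_trans (E5_mono (ae_of_all _ fun x hx => ?_)) (meas_Ic_gt hf hg hq t)
  refine ⟨by positivity, lt_of_eq_of_lt ?_ hx⟩
  rw [div_div, one_div, Real.log_inv, neg_neg, Real.log_mul (by norm_num) (by positivity),
    Real.log_pow]
  ring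

end Pool.Agent.P.MP_d483fb_an.Z.Ent
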