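import Pool.Agent.P.MP_d483fb_an.Z.Ent.E5

/-!
Digits of finite entropy.
-/

namespace Pool.Agent.P.MP_d483fb_an.Z.Ent

open MeasureTheory ProbabilityTheory Set Filter
open scoped ENNReal

set_option linter.unusedSectionVars false

variable {Ω Z D D' : Type*} [MeasurableSpace Ω] [StandardBorelSpace Ω] [Nonempty Ω]
  [MeasurableSpace Z] [StandardBorelSpace Z]
  [MeasurableSpace D] [Countable D] [MeasurableSingletonClass D]
  [MeasurableSpace D'] [Countable D'] [MeasurableSingletonClass D']
  {μ : Measure Ω} [IsProbabilityMeasure μ] {g : Ω → Z} {f : Ω → D} {e : Ω → D'}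

omit [StandardBorelSpace Ω] [Nonempty Ω] in
theorem E6_unit : Measurable fun _ : Ω => () := measurable_const

theorem E6_finer (h : FinEnt μ f) (hf : Measurable f) (hg : Measurable g) :
    Integrable (Ic μ f g) μ ∧ Hc μ f g ≤ H0 μ f := by
  have h1 := Hc_finer (μ := μ) hf hg E6_unit (Det.of_forall fun _ _ _ => rfl)
    (Integrable.congr h (EventuallyEq.symm (Ic_unit f)))
  exact ⟨h1.1, h1.2.trans_eq (integral_congr_ae (Ic_unit f))⟩

theorem E6_int {Ω Ω' : Type*} [MeasurableSpace Ω] [MeasurableSpace Ω'] {μ : Measure Ω}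
    {ν : Measure Ω'} {T : Ω' → Ω} (hT : MeasurePreserving T ν μ) {u : Ω → ℝ}
    (hu : Integrable u μ) : ∫ x, u (T x) ∂ν = ∫ x, u x ∂μ := by
  rw [← hT.map_eq] at hu ⊢
  exact (integral_map hT.measurable.aemeasurable hu.aestronglyMeasurable).symm

theorem FinEnt.integrable (h : FinEnt μ f) (hf : Measurable f) (hg : Measurable g) :
    Integrable (Ic μ f g) μ := (E6_finer h hf hg).1

theorem FinEnt.Hc_le (h : FinEnt μ f) (hf : Measurable f) (hg : Measurable g) :
    Hc μ f g ≤ H0 μ f := (E6_finer h hf hg).2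

theorem finEnt_of_weights (hf : Measurable f) {q : D → ℝ} (h0 : ∀ i, 0 ≤ q i)
    (h1 : ∀ s : Finset D, ∑ i ∈ s, q i ≤ 1) (hp : ∀ᵐ x ∂μ, 0 < q (f x))
    (hi : Integrable (fun x => -Real.log (q (f x))) μ) :
    FinEnt μ f ∧ H0 μ f ≤ ∫ x, -Real.log (q (f x)) ∂μ := by
  have h2 := gibbs (μ := μ) hf E6_unit (q := fun _ => q)
    ⟨fun _ => measurable_const, fun _ => h0, Det.of_forall fun _ _ _ => rfl,
      Eventually.of_forall fun _ => h1⟩ MeasurableSet.univ (Sat.univ _)
    (by rwa [Measure.restrict_univ]) hi.integrableOn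
  rw [integrableOn_univ, Measure.restrict_univ] at h2
  exact ⟨h2.1.congr (Ic_unit f), (integral_congr_ae (Ic_unit f)).symm.trans_le h2.2⟩

theorem E6_geom (N : ℕ) : ∑ k ∈ Finset.range N, (1 / 2 : ℝ) ^ (k + 1) = 1 - (1 / 2) ^ N := by
  induction N with
  | zero => simp
  | succ N ih =>
    rw [Finset.sum_range_succ, ih]
    ring

/-- A digit that lies in a set of size exponential in an integrable function. -/
theorem finEnt_of_count (hf : Measurable f) {τ : Ω → ℕ} (hi : Integrable (fun x => (τ x : ℝ)) μ)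
    (S : ℕ → Finset D) {C : ℝ} (hS : ∀ k, ((S k).card : ℝ) ≤ Real.exp (C * (k + 1)))
    (h : ∀ᵐ x ∂μ, f x ∈ S (τ x)) : FinEnt μ f := by
  classical
  obtain ⟨a, ha⟩ : ∃ a : ℝ, a = Real.log 2 + max C 0 := ⟨_, rfl⟩
  have ha0 : 0 ≤ a := ha ▸ add_nonneg (Real.log_nonneg one_le_two) (le_max_right _ _)
  let κ : D → ℕ := fun i => sInf {k | i ∈ S k}
  let q : D → ℝ := fun i => if i ∈ S (κ i) then Real.exp (-(a * (κ i + 1))) else 0
  have hκ : ∀ i k, i ∈ S k → i ∈ S (κ i) ∧ κ i ≤ k := fun i k hk =>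
    ⟨Nat.sInf_mem (s := {k | i ∈ S k}) ⟨k, hk⟩, Nat.sInf_le hk⟩
  have hc : ∀ k : ℕ, ((S k).card : ℝ) * Real.exp (-(a * (k + 1))) ≤ (1 / 2) ^ (k + 1) := by
    intro k
    have e : (1 / 2 : ℝ) ^ (k + 1) = Real.exp (-(Real.log 2 * (k + 1))) := by
      rw [Real.exp_neg, mul_comm, ← Nat.cast_succ, Real.exp_nat_mul, Real.exp_log two_pos,
        one_div, inv_pow]
    refine (mul_le_mul_of_nonneg_right (hS k) (Real.exp_pos _).le).trans ?_
    rw [e, ← Real.exp_add, Real.exp_le_exp, ha]
    have : C * (k + 1) ≤ max C 0 * (k + 1) :=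
      mul_le_mul_of_nonneg_right (le_max_left _ _) (by positivity)
    linarith
  refine (finEnt_of_weights hf (q := q) (fun i => ?_) (fun s => ?_) ?_ ?_).1
  · simp only [q]
    split_ifs
    · exact (Real.exp_pos _).le
    · exact le_rfl
  · obtain ⟨N, hN⟩ : ∃ N, ∀ i ∈ s, κ i < N :=
      ⟨s.sup κ + 1, fun i hi => Nat.lt_succ_of_le (Finset.le_sup hi)⟩
    calc ∑ i ∈ s, q i ≤ ∑ i ∈ s, ∑ k ∈ Finset.range N,
          if i ∈ S k then Real.exp (-(a * (k + 1))) else 0 := by
          refine Finset.sum_le_sum fun i hi => ?_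
          refine Finset.single_le_sum (f := fun k : ℕ =>
            if i ∈ S k then Real.exp (-(a * (k + 1))) else 0) (fun k _ => ?_)
            (Finset.mem_range.2 (hN i hi))
          split_ifs
          · exact (Real.exp_pos _).le
          · exact le_rfl
      _ ≤ ∑ k ∈ Finset.range N, (1 / 2 : ℝ) ^ (k + 1) := by
          rw [Finset.sum_comm]
          refine Finset.sum_le_sum fun k _ => le_trans ?_ (hc k)
          rw [← Finset.sum_filter, Finset.sum_const, nsmul_eq_mul]
          refine mul_le_mul_of_nonneg_right ?_ (Real.exp_pos _).le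
          exact_mod_cast Finset.card_le_card fun i hi => (Finset.mem_filter.1 hi).2
      _ ≤ 1 := by
          rw [E6_geom]
          exact sub_le_self _ (by positivity)
  · filter_upwards [h] with x hx
    simp only [q, if_pos (hκ _ _ hx).1]
    exact Real.exp_pos _
  · refine Integrable.mono' ((hi.add (integrable_const 1)).const_mul a)
      ((measurable_of_countable fun i => -Real.log (q i)).comp hf).aestronglyMeasurable ?_
    filter_upwards [h] with x hx
    simp only [q, if_pos (hκ _ _ hx).1, Real.log_exp, neg_neg, Pi.add_apply]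
    rw [Real.norm_of_nonneg (by positivity)]
    have : (κ (f x) : ℝ) ≤ τ x := by exact_mod_cast (hκ _ _ hx).2
    exact mul_le_mul_of_nonneg_left (by linarith) ha0

theorem finEnt_nat {τ : Ω → ℕ} (hτ : Measurable τ) (hi : Integrable (fun x => (τ x : ℝ)) μ) :
    FinEnt μ τ :=
  finEnt_of_count hτ hi (fun k => {k}) (C := 0) (fun k => by simp)
    (Eventually.of_forall fun x => Finset.mem_singleton_self _)

theorem E6_finset (hf : Measurable f) (s : Finset D) (h : ∀ᵐ x ∂μ, f x ∈ s) :
    FinEnt μ f ∧ H0 μ f ≤ Real.log s.card := by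
  classical
  obtain ⟨x₀, hx₀⟩ := h.exists
  have hs : (0 : ℝ) < s.card := by exact_mod_cast Finset.card_pos.2 ⟨_, hx₀⟩
  have e : (fun x => -Real.log (if f x ∈ s then (s.card : ℝ)⁻¹ else 0)) =ᵐ[μ]
      fun _ => Real.log s.card := by
    filter_upwards [h] with x hx
    rw [if_pos hx, Real.log_inv, neg_neg]
  have h1 := finEnt_of_weights (μ := μ) hf (q := fun i => if i ∈ s then (s.card : ℝ)⁻¹ else 0)
    (fun i => by split_ifs <;> positivity) (fun t => by
      rw [← Finset.sum_filter, Finset.sum_const, nsmul_eq_mul, ← div_eq_mul_inv, div_le_one hs]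
      exact_mod_cast Finset.card_le_card fun i hi => (Finset.mem_filter.1 hi).2)
    (by
      filter_upwards [h] with x hx
      rw [if_pos hx]
      positivity) ((integrable_const _).congr e.symm)
  refine ⟨h1.1, h1.2.trans_eq ?_⟩
  rw [integral_congr_ae e]
  simp

theorem finEnt_fintype [Fintype D] (hf : Measurable f) :
    FinEnt μ f ∧ H0 μ f ≤ Real.log (Fintype.card D) :=
  E6_finset hf Finset.univ (Eventually.of_forall fun _ => Finset.mem_univ _)

theorem finEnt_of_finset (hf : Measurable f) (s : Finset D) (h : ∀ᵐ x ∂μ, f x ∈ s) :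
    FinEnt μ f ∧ H0 μ f ≤ Real.log s.card := E6_finset hf s h

theorem FinEnt.pair (h : FinEnt μ f) (h' : FinEnt μ e) (hf : Measurable f) (he : Measurable e) :
    FinEnt μ (pr2 f e) ∧ H0 μ (pr2 f e) = H0 μ f + Hc μ e f := by
  have h1 := h'.integrable he hf
  refine ⟨(Integrable.add h h1).congr (EventuallyEq.symm (I0_pair hf he)), ?_⟩
  rw [H0, integral_congr_ae (I0_pair hf he), integral_add h h1]
  rfl

theorem FinEnt.of_det (h : FinEnt μ f) (hf : Measurable f) (he : Measurable e) (hd : Det μ f e) :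
    FinEnt μ e ∧ H0 μ e ≤ H0 μ f := by
  have h1 : ∀ᵐ x ∂μ, 0 ≤ I0 μ e x ∧ I0 μ e x ≤ I0 μ f x := by
    filter_upwards [Ic_mono (μ := μ) hf E6_unit ((Det.snd _ f).trans hd), Ic_unit (μ := μ) f,
      Ic_unit (μ := μ) e] with x h2 h3 h4
    rw [← h3, ← h4]
    exact ⟨Ic_nonneg x, h2⟩
  have h2 : FinEnt μ e := by
    refine Integrable.mono' h
      ((measurable_Ic he E6_unit).aestronglyMeasurable.congr (Ic_unit e)) ?_
    filter_upwards [h1] with x hx
    rw [Real.norm_of_nonneg hx.1]
    exact hx.2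
  exact ⟨h2, integral_mono_ae h2 h (h1.mono fun x hx => hx.2)⟩

theorem FinEnt.comp {Ω' : Type*} [MeasurableSpace Ω'] {ν : Measure Ω'} {T : Ω' → Ω}
    (hT : MeasurePreserving T ν μ) (h : FinEnt μ f) (hf : Measurable f) :
    FinEnt ν (f ∘ T) ∧ H0 ν (f ∘ T) = H0 μ f := by
  have e : I0 ν (f ∘ T) = fun x => I0 μ f (T x) := by
    funext x
    have := hT.measureReal_preimage (s := {y | f y = f (T x)})
      (hf (measurableSet_singleton (f (T x)))).nullMeasurableSet
    rw [I0, I0, ← this]
    rfl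
  rw [FinEnt, H0, e]
  exact ⟨hT.integrable_comp_of_integrable h, E6_int hT h⟩

theorem FinEnt.names {T : Ω → Ω} (hT : MeasurePreserving T μ μ) (h : FinEnt μ f)
    (hf : Measurable f) (n : ℕ) :
    FinEnt μ (names T f n) ∧ H0 μ (names T f n) ≤ n * H0 μ f := by
  induction n with
  | zero =>
    have h1 := finEnt_of_finset (μ := μ) (measurable_names hT.measurable hf 0) {Fin.elim0}
      (Eventually.of_forall fun x => Finset.mem_singleton.2 (Subsingleton.elim _ _))
    simpa using h1
  | succ n ih =>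
    have hm := measurable_names hT.measurable hf n
    have hm' := hf.comp (hT.iterate n).measurable
    have h1 := h.comp (hT.iterate n) hf
    have h2 := ih.1.pair h1.1 hm hm'
    have h3 := h2.1.of_det (hm.prodMk hm') (measurable_names hT.measurable hf (n + 1))
      (Det.of_forall fun x y hxy => names_eq_iff.2 fun i hi => by
        rcases Nat.lt_succ_iff_lt_or_eq.1 hi with hi | rfl
        · exact names_eq_iff.1 (congrArg Prod.fst hxy) i hi
        · exact congrArg Prod.snd hxy)
    refine ⟨h3.1, h3.2.trans ?_⟩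
    have h4 := h1.1.Hc_le hm' hm
    rw [h2.2, Nat.cast_succ, add_mul, one_mul]
    exact add_le_add ih.2 (h4.trans_eq h1.2)

theorem Hc_pair (h : FinEnt μ f) (h' : FinEnt μ e) (hf : Measurable f) (he : Measurable e)
    (hg : Measurable g) : Hc μ (pr2 f e) g = Hc μ f g + Hc μ e (pr2 g f) := by
  rw [Hc, integral_congr_ae (Ic_pair hf he hg),
    integral_add (h.integrable hf hg) (h'.integrable he (hg.prodMk hf))]
  rfl

theorem Incr.Hc_names {T : Ω → Ω} (hT : MeasurePreserving T μ μ) (h : FinEnt μ f)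
    (hf : Measurable f) (hg : Measurable g) (hi : Incr μ T g f) (n : ℕ) :
    Hc μ (names T f n) g = n * Hc μ f g := by
  have h1 := h.integrable hf hg
  rw [Hc, integral_congr_ae (hi.Ic_names hT hf hg n)]
  simp only [birkhoffSum]
  rw [integral_finsetSum (f := fun k x => Ic μ f g (T^[k] x)) _
      fun k _ => (hT.iterate k).integrable_comp_of_integrable h1,
    Finset.sum_congr rfl fun k _ => E6_int (hT.iterate k) h1, Finset.sum_const, Finset.card_range,
    nsmul_eq_mul]
  rfl

end Pool.Agent.P.MP_d483fb_an.Z.Ent
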