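import Pool.Agent.P.MP_d483fb_an.Z.Ent.E6

/-!
E7: approximation of a label by finitely valued functions of it.
-/

namespace Pool.Agent.P.MP_d483fb_an.Z.Ent

open MeasureTheory ProbabilityTheory Set Filter
open scoped ENNReal

variable {Ω Z D : Type*} [MeasurableSpace Ω] [StandardBorelSpace Ω] [Nonempty Ω]
  [MeasurableSpace Z] [StandardBorelSpace Z]
  [MeasurableSpace D] [Countable D] [MeasurableSingletonClass D]
  {μ : Measure Ω} [IsProbabilityMeasure μ] {g : Ω → Z} {f : Ω → D}

open Classical in
/-- The first `n` bits of a point for a generating sequence. -/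
noncomputable def E7_bits (Z : Type*) [MeasurableSpace Z] [StandardBorelSpace Z] (n : ℕ) (z : Z) :
    Fin n → Bool := fun j => decide (z ∈ MeasurableSpace.natGeneratingSequence Z j)

theorem E7_meas (n : ℕ) : Measurable (E7_bits Z n) := by
  classical
  refine measurable_pi_lambda _ fun j => ?_
  refine measurable_to_bool ?_
  have : (fun z => E7_bits Z n z j) ⁻¹' {true} = MeasurableSpace.natGeneratingSequence Z j := by
    ext z
    simp [E7_bits]
  rw [this]
  exact MeasurableSpace.measurableSet_natGeneratingSequence _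

/-- The filtration of the first bits of the label. -/
noncomputable def E7_filt (hg : Measurable g) : Filtration ℕ ‹MeasurableSpace Ω› where
  seq n := MeasurableSpace.comap (E7_bits Z n ∘ g) inferInstance
  mono' := by
    intro m n hmn
    have e : E7_bits Z m ∘ g =
        (fun (b : Fin n → Bool) (j : Fin m) => b (Fin.castLE hmn j)) ∘ (E7_bits Z n ∘ g) := by
      funext x j
      simp [E7_bits]
    change MeasurableSpace.comap (E7_bits Z m ∘ g) _ ≤ MeasurableSpace.comap (E7_bits Z n ∘ g) _
    rw [e, ← MeasurableSpace.comap_comp]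
    exact MeasurableSpace.comap_mono (measurable_of_countable _).comap_le
  le' n := ((E7_meas n).comp hg).comap_le

omit [StandardBorelSpace Ω] [Nonempty Ω] in
theorem E7_sup (hg : Measurable g) :
    ⨆ n, E7_filt hg n = MeasurableSpace.comap g ‹MeasurableSpace Z› := by
  apply le_antisymm
  · refine iSup_le fun n => ?_
    change MeasurableSpace.comap (E7_bits Z n ∘ g) _ ≤ _
    rw [← MeasurableSpace.comap_comp]
    exact MeasurableSpace.comap_mono (E7_meas n).comap_le
  · conv_lhs => rw [← MeasurableSpace.generateFrom_natGeneratingSequence Z]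
    rw [MeasurableSpace.comap_generateFrom]
    refine MeasurableSpace.generateFrom_le ?_
    rintro _ ⟨_, ⟨j, rfl⟩, rfl⟩
    refine (le_iSup (fun n => E7_filt hg n) (j + 1)) _ ?_
    refine ⟨{b : Fin (j + 1) → Bool | b (Fin.last j) = true}, (Set.to_countable _).measurableSet, ?_⟩
    ext x
    simp [E7_bits]

theorem E7_tendsto (hf : Measurable f) (hg : Measurable g) :
    ∀ᵐ x ∂μ, Tendsto (fun n => Pc μ f (E7_bits Z n ∘ g) x) atTop (nhds (Pc μ f g x)) := by
  have key : ∀ i : D, ∀ᵐ x ∂μ, Tendsto (fun n => (cp μ (E7_bits Z n ∘ g) x).real {y | f y = i})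
      atTop (nhds ((cp μ g x).real {y | f y = i})) := by
    intro i
    have hs : MeasurableSet {y | f y = i} := hf (measurableSet_singleton i)
    have h1 := tendsto_ae_condExp (μ := μ) (ℱ := E7_filt hg)
      ((id ⁻¹' {y | f y = i}).indicator fun _ => (1 : ℝ))
    rw [E7_sup hg] at h1
    have h2 := condDistrib_ae_eq_condExp (μ := μ) hg measurable_id hs
    have h3 : ∀ᵐ x ∂μ, ∀ n, _ := ae_all_iff.2 fun n =>
      condDistrib_ae_eq_condExp (μ := μ) ((E7_meas n).comp hg) measurable_id hs
    filter_upwards [h1, h2, h3] with x a b c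
    unfold cp
    rw [b]
    refine a.congr fun n => ?_
    exact (c n).symm
  filter_upwards [ae_all_iff.2 key] with x hx
  exact hx (f x)

theorem exists_finite_label (h : FinEnt μ f) (hf : Measurable f) (hg : Measurable g) {ε : ℝ}
    (hε : 0 < ε) : ∃ (p : ℕ) (L : Z → Fin (p + 1)), Measurable L ∧
      Hc μ f (L ∘ g) ≤ Hc μ f g + ε := by
  classical
  set a : ℝ := Real.exp (-(ε / 2)) with ha
  have ha0 : 0 < a := Real.exp_pos _
  have ha1 : a < 1 := by
    rw [ha]
    exact Real.exp_lt_one_iff.2 (by linarith)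
  set P0 : D → ℝ := fun i => μ.real {y | f y = i} with hP0
  have hP0m : Measurable fun x => P0 (f x) := (measurable_of_countable P0).comp hf
  have hP0pos : ∀ᵐ x ∂μ, 0 < P0 (f x) := by
    have h1 := Pc_pos (μ := μ) (g := fun _ : Ω => ()) hf measurable_const
    filter_upwards [h1, cp_unit (μ := μ)] with x hx hy
    unfold Pc at hx
    rw [hy] at hx
    exact hx
  have hP0le : ∀ i, P0 i ≤ 1 := fun i => measureReal_le_one
  have hP0nn : ∀ i, 0 ≤ P0 i := fun i => measureReal_nonneg
  set F : ℕ → Ω → ℝ := fun n x =>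
    -Real.log (a * Pc μ f (E7_bits Z n ∘ g) x + (1 - a) * P0 (f x)) with hF
  set G : Ω → ℝ := fun x => -Real.log (a * Pc μ f g x + (1 - a) * P0 (f x)) with hG
  have hFm : ∀ n, Measurable (F n) := fun n =>
    ((((measurable_Pc hf ((E7_meas n).comp hg)).const_mul a).add (hP0m.const_mul _)).log).neg
  have hGm : Measurable G :=
    ((((measurable_Pc hf hg).const_mul a).add (hP0m.const_mul _)).log).neg
  have hb : ∀ t p : ℝ, 0 ≤ t → t ≤ 1 → 0 < p → p ≤ 1 →
      ‖-Real.log (a * t + (1 - a) * p)‖ ≤ -Real.log (1 - a) + -Real.log p := by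
    intro t p h0 h1 h2 h3
    have e1 : 0 < (1 - a) * p := mul_pos (by linarith) h2
    have e2 : (1 - a) * p ≤ a * t + (1 - a) * p := by nlinarith
    have e3 : a * t + (1 - a) * p ≤ 1 := by nlinarith
    have e4 := Real.log_le_log e1 e2
    have e5 := Real.log_nonpos (by linarith) e3
    rw [Real.log_mul (by linarith) h2.ne'] at e4
    rw [Real.norm_eq_abs, abs_of_nonneg (by linarith)]
    linarith
  have hdom : Integrable (fun x => -Real.log (1 - a) + I0 μ f x) μ :=
    (integrable_const _).add h
  have hFb : ∀ n, ∀ᵐ x ∂μ, ‖F n x‖ ≤ -Real.log (1 - a) + I0 μ f x := fun n => by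
    filter_upwards [hP0pos] with x hx
    exact hb _ _ (Pc_nonneg x) (Pc_le_one x) hx (hP0le _)
  have hlim : ∀ᵐ x ∂μ, Tendsto (fun n => F n x) atTop (nhds (G x)) := by
    filter_upwards [hP0pos, E7_tendsto (μ := μ) hf hg] with x hx hy
    have e1 : 0 < (1 - a) * P0 (f x) := mul_pos (by linarith) hx
    have e2 : 0 ≤ a * Pc μ f g x := mul_nonneg ha0.le (Pc_nonneg x)
    exact (((hy.const_mul a).add_const _).log (by linarith)).neg
  have hconv := tendsto_integral_of_dominated_convergence _
    (fun n => (hFm n).aestronglyMeasurable) hdom hFb hlim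
  have hGi : Integrable G μ := by
    refine hdom.mono' hGm.aestronglyMeasurable ?_
    filter_upwards [hP0pos] with x hx
    exact hb _ _ (Pc_nonneg x) (Pc_le_one x) hx (hP0le _)
  have hGle : ∫ x, G x ∂μ ≤ Hc μ f g + ε / 2 := by
    have hi := h.integrable hf hg
    have : ∫ x, G x ∂μ ≤ ∫ x, (Ic μ f g x + ε / 2) ∂μ := by
      refine integral_mono_ae hGi (hi.add (integrable_const _)) ?_
      filter_upwards [hP0pos, Pc_pos (μ := μ) hf hg] with x hx hy
      have e1 : 0 < (1 - a) * P0 (f x) := mul_pos (by linarith) hx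
      have e2 : 0 < a * Pc μ f g x := mul_pos ha0 hy
      have e4 := Real.log_le_log e2 (show a * Pc μ f g x ≤
        a * Pc μ f g x + (1 - a) * P0 (f x) by linarith)
      rw [Real.log_mul ha0.ne' hy.ne', ha, Real.log_exp] at e4
      simp only [hG, Ic]
      linarith
    rw [integral_add hi (integrable_const _)] at this
    simpa [Hc] using this
  obtain ⟨n, hn⟩ := (hconv.eventually (gt_mem_nhds
    (show ∫ x, G x ∂μ < ∫ x, G x ∂μ + ε / 2 by linarith))).exists
  obtain ⟨p, hp⟩ : ∃ p, Fintype.card (Fin n → Bool) = p + 1 :=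
    Nat.exists_eq_succ_of_ne_zero Fintype.card_ne_zero
  let e : (Fin n → Bool) ≃ Fin (p + 1) := Fintype.equivFinOfCardEq hp
  have hL : Measurable (e ∘ E7_bits Z n) := (measurable_of_countable e).comp (E7_meas n)
  refine ⟨p, e ∘ E7_bits Z n, hL, ?_⟩
  have hdet : Det μ ((e ∘ E7_bits Z n) ∘ g) (E7_bits Z n ∘ g) :=
    Det.of_forall fun x y hxy => e.injective hxy
  have hw := wts_cp (μ := μ) hf ((E7_meas n).comp hg) hdet
  have hq : Wts μ ((e ∘ E7_bits Z n) ∘ g) fun x i =>
      a * (cp μ (E7_bits Z n ∘ g) x).real {y | f y = i} + (1 - a) * P0 i := by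
    refine ⟨fun i => ((hw.meas i).const_mul a).add measurable_const, fun x i => ?_, ?_, ?_⟩
    · exact add_nonneg (mul_nonneg ha0.le (hw.nonneg x i)) (mul_nonneg (by linarith) (hP0nn i))
    · refine hw.det.trans (Det.of_forall fun x y hxy => ?_)
      funext i
      rw [congrFun hxy i]
    · filter_upwards [hw.sum] with x hx s
      have h1 := hx s
      have h2 : ∑ i ∈ s, P0 i ≤ 1 := by
        have := sum_measureReal_preimage_singleton (μ := μ) s (f := f)
          (fun i _ => hf (measurableSet_singleton i))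
        have e2 : ∑ i ∈ s, P0 i = μ.real (f ⁻¹' s) := this
        rw [e2]
        exact measureReal_le_one
      rw [Finset.sum_add_distrib, ← Finset.mul_sum, ← Finset.mul_sum]
      nlinarith
  have hFi : Integrable (F n) μ := hdom.mono' (hFm n).aestronglyMeasurable (hFb n)
  have hgb := gibbs (μ := μ) hf (hL.comp hg) hq MeasurableSet.univ (Sat.univ _) (by
    rw [Measure.restrict_univ]
    filter_upwards [hP0pos] with x hx
    have e1 : 0 < (1 - a) * P0 (f x) := mul_pos (by linarith) hx
    have e2 := mul_nonneg ha0.le (hw.nonneg x (f x))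
    linarith) hFi.integrableOn
  have h3 := hgb.2
  rw [Measure.restrict_univ] at h3
  have h4 : Hc μ f ((e ∘ E7_bits Z n) ∘ g) ≤ ∫ x, F n x ∂μ := h3
  linarith

end Pool.Agent.P.MP_d483fb_an.Z.Ent
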