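import Pool.Agent.P.MP_d483fb_an.Z.Ent.Defs
import Pool.Agent.P.MP_d483fb_an.Z.Ent.Cd

/-!
# The Gibbs inequality in real form
-/

open MeasureTheory ProbabilityTheory Set Filter
open scoped ENNReal

namespace Pool.Agent.P.MP_d483fb_an.Z.Ent

variable {Ω Y D : Type*} [MeasurableSpace Ω] [StandardBorelSpace Ω] [Nonempty Ω]
  [MeasurableSpace Y] [MeasurableSpace D] [Countable D] [MeasurableSingletonClass D]
  {μ : Measure Ω} [IsFiniteMeasure μ] {g : Ω → Y} {f : Ω → D}

omit [Nonempty Ω] [IsFiniteMeasure μ] in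
/-- A saturated measurable set is almost everywhere the preimage of a measurable set. -/
theorem gb_sat [StandardBorelSpace Y] (hg : Measurable g) {B : Set Ω} (hB : MeasurableSet B)
    (hS : Sat μ g B) : ∃ C : Set Y, MeasurableSet C ∧ B =ᵐ[μ] g ⁻¹' C := by
  obtain ⟨S, hS1, hS2⟩ := hS
  obtain ⟨t, ht, htm, ht0⟩ := exists_measurable_superset_of_null (mem_ae_iff.1 hS1)
  have hsub : ∀ x ∈ tᶜ, x ∈ S := fun x hx => by
    by_contra hxS
    exact hx (ht hxS)
  obtain ⟨C, hC, hC'⟩ := exists_sat hg htm.compl hB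
    (fun x hx y hy hxy hxB => by
      have := hS2 x (hsub x hx) y (hsub y hy) hxy
      simp only [eq_iff_iff] at this
      exact this.1 hxB)
  refine ⟨C, hC, ?_⟩
  have h0 : ∀ᵐ x ∂μ, x ∈ tᶜ := by
    rw [ae_iff]
    simpa using ht0
  filter_upwards [h0] with x hx
  exact propext (hC' x hx)

theorem gb_ne_zero (hg : Measurable g) (hf : Measurable f) :
    ∀ᵐ x ∂μ, condDistrib id g μ (g x) (f ⁻¹' {f x}) ≠ 0 := by
  classical
  set κ := condDistrib id g μ with hκ
  have hS : MeasurableSet {p : Y × Ω | κ p.1 (f ⁻¹' {f p.2}) = 0} :=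
    cd_measurable κ hf (measurableSet_singleton 0)
  have h1 := cd_lintegral (μ := μ) hg (measurable_one.indicator hS)
  have hS' : MeasurableSet {x | κ (g x) (f ⁻¹' {f x}) = 0} := (hg.prodMk measurable_id) hS
  have h2 : ∀ x, {x | κ (g x) (f ⁻¹' {f x}) = 0}.indicator (1 : Ω → ℝ≥0∞) x =
      {p : Y × Ω | κ p.1 (f ⁻¹' {f p.2}) = 0}.indicator 1 (g x, x) := by
    intro x
    simp [indicator]
  rw [ae_iff]
  simp only [not_not]
  rw [← lintegral_indicator_one hS']
  simp_rw [h2]
  rw [h1]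
  refine lintegral_eq_zero_of_ae_eq_zero (ae_of_all _ fun x => ?_)
  have h3 : ∀ w, {p : Y × Ω | κ p.1 (f ⁻¹' {f p.2}) = 0}.indicator (1 : Y × Ω → ℝ≥0∞) (g x, w) =
      (fun i => if κ (g x) (f ⁻¹' {i}) = 0 then (1 : ℝ≥0∞) else 0) (f w) := by
    intro w
    simp [indicator]
  simp only [h3]
  rw [lintegral_digit _ hf (fun i => if κ (g x) (f ⁻¹' {i}) = 0 then (1 : ℝ≥0∞) else 0)]
  simp only [Pi.zero_apply, ENNReal.tsum_eq_zero]
  intro i
  by_cases hi : κ (g x) (f ⁻¹' {i}) = 0
  · rw [← hκ, hi, mul_zero]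
  · simp [hi]

omit [MeasurableSpace D] [Countable D] [MeasurableSingletonClass D] in
theorem gb_Pc (x : Ω) : Pc μ f g x = (condDistrib id g μ (g x) (f ⁻¹' {f x})).toReal := rfl

omit [MeasurableSpace D] [Countable D] [MeasurableSingletonClass D] in
theorem gb_Ic_nonneg (x : Ω) : 0 ≤ Ic μ f g x := by
  unfold Ic Pc
  exact neg_nonneg.2 (Real.log_nonpos measureReal_nonneg measureReal_le_one)

theorem gb_measurable_Ic (hg : Measurable g) (hf : Measurable f) : Measurable (Ic μ f g) :=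
  (((cd_measurable (condDistrib id g μ) hf).comp
    (hg.prodMk measurable_id)).ennreal_toReal.log).neg

/-- Gibbs inequality: if `q` is a subprobability weight depending on the label and
`exp (-u x) ≤ q (g x) (f x)` on the saturated set `B`, then `∫_B I(f | g) ≤ ∫_B u`. -/
theorem gb_le [StandardBorelSpace Y] (hg : Measurable g) (hf : Measurable f)
    {q : Y → D → ℝ≥0∞} (hq : ∀ i, Measurable fun a => q a i) (hq1 : ∀ a, ∑' i, q a i ≤ 1)
    {B : Set Ω} (hB : MeasurableSet B) (hS : Sat μ g B) {u : Ω → ℝ} (hu : IntegrableOn u B μ)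
    (hqu : ∀ᵐ x ∂μ, x ∈ B → ENNReal.ofReal (Real.exp (-u x)) ≤ q (g x) (f x)) :
    IntegrableOn (Ic μ f g) B μ ∧ ∫ x in B, Ic μ f g x ∂μ ≤ ∫ x in B, u x ∂μ := by
  obtain ⟨C, hC, hBC⟩ := gb_sat hg hB hS
  set κ := condDistrib id g μ with hκ
  set r : Ω → ℝ≥0∞ := fun x => q (g x) (f x) / κ (g x) (f ⁻¹' {f x}) with hr
  have hrm : Measurable r :=
    ((measurable_from_prod_countable_left (f := fun p : Y × D => q p.1 p.2) hq).comp
      (hg.prodMk hf)).div ((cd_measurable κ hf).comp (hg.prodMk measurable_id))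
  have h1 : ∫⁻ x in B, r x ∂μ ≤ μ B := by
    rw [Measure.restrict_congr_set hBC, measure_congr hBC]
    exact cd_gibbs hg hf hq hq1 hC
  have hfin : ∫⁻ x in B, r x ∂μ ≠ ∞ := ne_top_of_le_ne_top (measure_ne_top _ _) h1
  have hri : IntegrableOn (fun x => (r x).toReal) B μ :=
    integrable_toReal_of_lintegral_ne_top hrm.aemeasurable hfin
  have hrI : ∫ x in B, (r x).toReal ∂μ ≤ μ.real B := by
    rw [integral_toReal hrm.aemeasurable (ae_lt_top hrm hfin)]
    exact ENNReal.toReal_mono (measure_ne_top _ _) h1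
  have hpt : ∀ᵐ x ∂(μ.restrict B), Ic μ f g x ≤ u x + (r x).toReal - 1 := by
    filter_upwards [ae_restrict_of_ae (gb_ne_zero (μ := μ) hg hf), ae_restrict_mem hB,
      ae_restrict_of_ae hqu, ae_lt_top hrm hfin] with x h0 hxB hx hrx
    have hP : 0 < Pc μ f g x := ENNReal.toReal_pos h0 (measure_ne_top _ _)
    have h2 : Real.exp (-u x) / Pc μ f g x ≤ (r x).toReal := by
      have h3 : ENNReal.ofReal (Real.exp (-u x)) / κ (g x) (f ⁻¹' {f x}) ≤ r x :=
        ENNReal.div_le_div_right (hx hxB) _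
      have h4 := ENNReal.toReal_mono hrx.ne h3
      rwa [ENNReal.toReal_div, ENNReal.toReal_ofReal (Real.exp_pos _).le] at h4
    have h5 := Real.log_le_sub_one_of_pos (div_pos (Real.exp_pos (-u x)) hP)
    rw [Real.log_div (Real.exp_pos _).ne' hP.ne', Real.log_exp] at h5
    unfold Ic
    linarith
  have hint : IntegrableOn (fun x => u x + (r x).toReal - 1) B μ :=
    (hu.add hri).sub (integrable_const 1)
  have hI : IntegrableOn (Ic μ f g) B μ := by
    refine hint.mono' (gb_measurable_Ic hg hf).aestronglyMeasurable ?_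
    filter_upwards [hpt] with x hx
    rwa [Real.norm_eq_abs, abs_of_nonneg (gb_Ic_nonneg x)]
  refine ⟨hI, (integral_mono_ae hI hint hpt).trans ?_⟩
  rw [integral_sub (f := fun x => u x + (r x).toReal) (hu.add hri) (integrable_const 1),
    integral_add hu hri]
  simp only [integral_const, MeasurableSet.univ, measureReal_restrict_apply, univ_inter,
    smul_eq_mul, mul_one]
  linarith

/-- Gibbs inequality, tail form: `μ {q (g x) (f x) > c P(f | g)} ≤ μ(Ω) / c`. -/
theorem gb_tail (hg : Measurable g) (hf : Measurable f)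
    {q : Y → D → ℝ≥0∞} (hq : ∀ i, Measurable fun a => q a i) (hq1 : ∀ a, ∑' i, q a i ≤ 1)
    (t : ℝ) :
    μ.real {x | Real.exp t * Pc μ f g x < (q (g x) (f x)).toReal}
      ≤ Real.exp (-t) * μ.real univ := by
  set κ := condDistrib id g μ with hκ
  set r : Ω → ℝ≥0∞ := fun x => q (g x) (f x) / κ (g x) (f ⁻¹' {f x}) with hr
  have hrm : Measurable r :=
    ((measurable_from_prod_countable_left (f := fun p : Y × D => q p.1 p.2) hq).comp
      (hg.prodMk hf)).div ((cd_measurable κ hf).comp (hg.prodMk measurable_id))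
  have h1 : ∫⁻ x, r x ∂μ ≤ μ univ := by
    simpa using cd_gibbs (μ := μ) hg hf hq hq1 MeasurableSet.univ
  have h2 : μ {x | Real.exp t * Pc μ f g x < (q (g x) (f x)).toReal}
      ≤ μ {x | ENNReal.ofReal (Real.exp t) ≤ r x} := by
    refine measure_mono_ae ?_
    filter_upwards [gb_ne_zero (μ := μ) hg hf] with x h0 hx
    have hx' : Real.exp t * Pc μ f g x < (q (g x) (f x)).toReal := hx
    change ENNReal.ofReal (Real.exp t) ≤ q (g x) (f x) / κ (g x) (f ⁻¹' {f x})
    rw [ENNReal.le_div_iff_mul_le (Or.inl h0) (Or.inl (measure_ne_top _ _)),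
      ← ENNReal.ofReal_toReal (measure_ne_top (κ (g x)) (f ⁻¹' {f x})),
      ← ENNReal.ofReal_mul (Real.exp_pos t).le]
    exact (ENNReal.ofReal_le_ofReal hx'.le).trans ENNReal.ofReal_toReal_le
  have h3 := meas_ge_le_lintegral_div (μ := μ) hrm.aemeasurable
    (ε := ENNReal.ofReal (Real.exp t)) (by simp [Real.exp_pos]) ENNReal.ofReal_ne_top
  have h4 : μ {x | Real.exp t * Pc μ f g x < (q (g x) (f x)).toReal}
      ≤ μ univ / ENNReal.ofReal (Real.exp t) :=
    h2.trans (h3.trans (ENNReal.div_le_div_right h1 _))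
  have h5 := ENNReal.toReal_mono
    (ENNReal.div_ne_top (measure_ne_top μ univ) (by simp [Real.exp_pos])) h4
  rw [ENNReal.toReal_div, ENNReal.toReal_ofReal (Real.exp_pos t).le] at h5
  rw [Real.exp_neg, mul_comm, ← div_eq_mul_inv]
  exact h5

end Pool.Agent.P.MP_d483fb_an.Z.Ent
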