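import Pool.Agent.P.MP_d483fb_an.Z.Ent.KRV1

/-!
Product forms of conditional independence: the marginals given the finer labels.
-/

namespace Pool.Agent.P.MP_d483fb_an.Z.Ent

open MeasureTheory ProbabilityTheory Set Filter Topology
open scoped ENNReal NNReal

variable {Ω Y S A : Type*} [MeasurableSpace Ω] [MeasurableSpace Y] [MeasurableSpace S]
  [MeasurableSpace A] {μ : Measure Ω} [IsProbabilityMeasure μ] {F : Ω → Y} {s : Ω → S}
  {al : Ω → A} [StandardBorelSpace Ω] [Nonempty Ω]

/-- Under conditional independence the law of `al` given `(F, s)` is its law given `F`. -/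
theorem krv_marg_snd [StandardBorelSpace A] (hF : Measurable F) (hs : Measurable s)
    (hal : Measurable al)
    (hp : ∀ᵐ x ∂μ, (cp μ F x).map (pr2 s al) = ((cp μ F x).map s).prod ((cp μ F x).map al)) :
    ∀ᵐ x ∂μ, (cp μ (pr2 F s) x).map al = (cp μ F x).map al := by
  have h := isDis_condDistrib μ hF
  have hFs : Measurable (pr2 F s) := hF.prodMk hs
  have h' := isDis_condDistrib μ hFs
  have hν := Measure.isProbabilityMeasure_map (μ := μ) hFs.aemeasurable
  have k1 := Kernel.IsMarkovKernel.map (condDistrib id (pr2 F s) μ) hal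
  have k2 := Kernel.IsMarkovKernel.map (condDistrib id F μ) hal
  have eq : μ.map (pr2 F s) ⊗ₘ (condDistrib id (pr2 F s) μ).map al =
      μ.map (pr2 F s) ⊗ₘ ((condDistrib id F μ).map al).comap Prod.fst measurable_fst := by
    refine Measure.ext_of_lintegral _ fun g hg => ?_
    have hG : Measurable fun z : Y × S =>
        ∫⁻ a, g (z, a) ∂((condDistrib id F μ).map al).comap Prod.fst measurable_fst z :=
      hg.lintegral_kernel_prod_right'
    rw [Measure.lintegral_compProd hg, Measure.lintegral_compProd hg,
      lintegral_map hg.lintegral_kernel_prod_right' hFs, lintegral_map hG hFs]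
    have e1 : ∀ x, ∫⁻ a, g (pr2 F s x, a) ∂((condDistrib id (pr2 F s) μ).map al) (pr2 F s x) =
        ∫⁻ y, g (pr2 F s x, al y) ∂(condDistrib id (pr2 F s) μ) (pr2 F s x) := fun x => by
      rw [Kernel.map_apply _ hal, lintegral_map (by fun_prop) hal]
    rw [lintegral_congr e1, h'.lint (g := fun z => g (z.1, al z.2)) (by fun_prop),
      ← h.lint (g := fun z => g ((z.1, s z.2), al z.2)) (by fun_prop),
      ← h.lint (g := fun z => ∫⁻ a, g ((z.1, s z.2), a)
        ∂((condDistrib id F μ).map al).comap Prod.fst measurable_fst (z.1, s z.2))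
        (hG.comp (by fun_prop : Measurable fun z : Y × Ω => (z.1, s z.2)))]
    refine lintegral_congr_ae ?_
    filter_upwards [hp] with x hx
    have m : Measurable fun p : S × A => g ((F x, p.1), p.2) := by fun_prop
    have e2 := congrArg (fun m : Measure (S × A) => ∫⁻ p, g ((F x, p.1), p.2) ∂m) hx
    rw [lintegral_map m (hs.prodMk hal), lintegral_prod _ m.aemeasurable,
      lintegral_map m.lintegral_prod_right' hs] at e2
    simp only [Kernel.comap_apply, Kernel.map_apply _ hal]
    exact e2
  filter_upwards [ae_of_ae_map hFs.aemeasurable (Kernel.ae_eq_of_compProd_eq eq)] with x hx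
  rw [Kernel.map_apply _ hal, Kernel.comap_apply, Kernel.map_apply _ hal] at hx
  exact hx

/-- Under conditional independence the law of `s` given `(F, al)` is its law given `F`. -/
theorem krv_marg_fst [StandardBorelSpace S] (hF : Measurable F) (hs : Measurable s)
    (hal : Measurable al)
    (hp : ∀ᵐ x ∂μ, (cp μ F x).map (pr2 s al) = ((cp μ F x).map s).prod ((cp μ F x).map al)) :
    ∀ᵐ x ∂μ, (cp μ (pr2 F al) x).map s = (cp μ F x).map s := by
  refine krv_marg_snd hF hal hs ?_
  filter_upwards [hp] with x hx
  rw [← Measure.prod_swap, ← hx, Measure.map_map measurable_swap (hs.prodMk hal)]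
  rfl

/-- The product form with the conditional measures of the finer labels. -/
theorem krv_fine [StandardBorelSpace S] [StandardBorelSpace A] (hF : Measurable F)
    (hs : Measurable s) (hal : Measurable al)
    (hp : ∀ᵐ x ∂μ, (cp μ F x).map (pr2 s al) = ((cp μ F x).map s).prod ((cp μ F x).map al)) :
    ∀ᵐ x ∂μ, (cp μ F x).map (pr2 s al) =
      ((cp μ (pr2 F al) x).map s).prod ((cp μ (pr2 F s) x).map al) := by
  filter_upwards [hp, krv_marg_fst hF hs hal hp, krv_marg_snd hF hs hal hp] with x h1 h2 h3
  rw [h1, h2, h3]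

end Pool.Agent.P.MP_d483fb_an.Z.Ent
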