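import Pool.Agent.P.MP_d483fb_an.Z.Ent.E6
import Pool.Agent.P.MP_d483fb_an.Z.Ent.KRV2

/-!
E12: exact product structure of conditional measures.
-/

namespace Pool.Agent.P.MP_d483fb_an.Z.Ent

open MeasureTheory ProbabilityTheory Set Filter
open scoped ENNReal

variable {Ω Z S A : Type*} [MeasurableSpace Ω] [StandardBorelSpace Ω] [Nonempty Ω]
  [MeasurableSpace Z] [StandardBorelSpace Z] [MeasurableSpace S] [StandardBorelSpace S]
  [MetricSpace A] [PolishSpace A] [MeasurableSpace A] [BorelSpace A]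
  {μ : Measure Ω} [IsProbabilityMeasure μ] {F : Ω → Z} {s : Ω → S} {al : Ω → A}

theorem krv_core (hF : Measurable F) (hs : Measurable s) (ha : Measurable al) {D : ℕ → Type*}
    [∀ n, MeasurableSpace (D n)] [∀ n, Countable (D n)] [∀ n, MeasurableSingletonClass (D n)]
    {e : ∀ n, Ω → D n} (he : ∀ n, Measurable (e n)) (hi : ∀ n, Integrable (Ic μ (e n) F) μ)
    (hR : ∀ n, Rect μ F (e n) s al)
    (hH : ∀ n, Hc μ (e n) F ≤ Hc μ (e n) (pr2 F s) + Hc μ (e n) (pr2 F al))
    (hS : Shrink μ F e al) :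
    ∀ᵐ x ∂μ, (cp μ F x).map (pr2 s al) = ((cp μ F x).map s).prod ((cp μ F x).map al) :=
  krv_digits hF hs ha he hR hi
    (fun n => (Hc_finer (he n) (hF.prodMk hs) hF (Det.fst F s) (hi n)).1)
    (fun n => (Hc_finer (he n) (hF.prodMk ha) hF (Det.fst F al) (hi n)).1) hH hS

omit [StandardBorelSpace Z] in
/-- For a product the marginals are the conditional laws. -/
theorem prod_cond {A : Type*} [MeasurableSpace A] [StandardBorelSpace A] {al : Ω → A}
    (hF : Measurable F) (hs : Measurable s) (ha : Measurable al)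
    (h : ∀ᵐ x ∂μ, (cp μ F x).map (pr2 s al) = ((cp μ F x).map s).prod ((cp μ F x).map al)) :
    ∀ᵐ x ∂μ, (cp μ (pr2 F al) x).map s = (cp μ F x).map s ∧
      (cp μ (pr2 F s) x).map al = (cp μ F x).map al :=
  (krv_marg_fst hF hs ha h).and (krv_marg_snd hF hs ha h)

/-- E12. -/
theorem krv {D : Type*} [MeasurableSpace D] [Countable D] [MeasurableSingletonClass D]
    {T : Ω → Ω} {d : Ω → D} (hT : MeasurePreserving T μ μ) (hd : Measurable d) (hH : FinEnt μ d)
    (hF : Measurable F) (hs : Measurable s) (ha : Measurable al) (iF : Incr μ T F d)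
    (iS : Incr μ T (pr2 F s) d) (iA : Incr μ T (pr2 F al) d)
    (hR : ∀ n, Rect μ F (names T d n) s al) (hS : Shrink μ F (names T d) al)
    (hle : Hc μ d F ≤ Hc μ d (pr2 F s) + Hc μ d (pr2 F al)) :
    ∀ᵐ x ∂μ, (cp μ F x).map (pr2 s al) =
      ((cp μ (pr2 F al) x).map s).prod ((cp μ (pr2 F s) x).map al) := by
  have he := measurable_names hT.measurable hd
  refine krv_fine hF hs ha (krv_core hF hs ha he
    (fun n => (hH.names hT hd n).1.integrable (he n) hF) hR (fun n => ?_) hS)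
  rw [iF.Hc_names hT hH hd hF, iS.Hc_names hT hH hd (hF.prodMk hs),
    iA.Hc_names hT hH hd (hF.prodMk ha), ← mul_add]
  exact mul_le_mul_of_nonneg_left hle (Nat.cast_nonneg n)

end Pool.Agent.P.MP_d483fb_an.Z.Ent
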