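import Mathlib

/-!
Conditional independence from an entropy inequality and a rectangle property (core of E12).
-/

namespace Pool.Agent.P.MP_d483fb_an.Z

open MeasureTheory ProbabilityTheory Set Filter Topology
open scoped ENNReal NNReal BoundedContinuousFunction

/-- `κ` disintegrates `μ` over the label `lab`. -/
structure IsDis {Ω Y : Type*} [MeasurableSpace Ω] [MeasurableSpace Y] (μ : Measure Ω)
    (lab : Ω → Y) (κ : Kernel Y Ω) : Prop where
  meas : Measurable lab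
  eq : μ.map lab ⊗ₘ κ = μ.map (fun x => (lab x, x))

theorem isDis_condDistrib {Ω Y : Type*} [MeasurableSpace Ω] [StandardBorelSpace Ω] [Nonempty Ω]
    [MeasurableSpace Y] (μ : Measure Ω) [IsFiniteMeasure μ] {lab : Ω → Y} (h : Measurable lab) :
    IsDis μ lab (condDistrib id lab μ) :=
  ⟨h, compProd_map_condDistrib aemeasurable_id⟩

section basic
variable {Ω Y ι : Type*} [MeasurableSpace Ω] [MeasurableSpace Y] {μ : Measure Ω}
  [IsProbabilityMeasure μ] {lab : Ω → Y} {κ : Kernel Y Ω} [IsMarkovKernel κ]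

theorem IsDis.lint' (h : IsDis μ lab κ) {g : Y × Ω → ℝ≥0∞} (hg : Measurable g) :
    ∫⁻ f, ∫⁻ y, g (f, y) ∂κ f ∂(μ.map lab) = ∫⁻ x, g (lab x, x) ∂μ := by
  rw [← Measure.lintegral_compProd hg, h.eq, lintegral_map hg (h.meas.prodMk measurable_id')]

theorem IsDis.lint (h : IsDis μ lab κ) {g : Y × Ω → ℝ≥0∞} (hg : Measurable g) :
    ∫⁻ x, ∫⁻ y, g (lab x, y) ∂κ (lab x) ∂μ = ∫⁻ x, g (lab x, x) ∂μ := by
  rw [← h.lint' hg, lintegral_map hg.lintegral_kernel_prod_right' h.meas]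

theorem IsDis.ae (h : IsDis μ lab κ) {p : Y × Ω → Prop} (hp : MeasurableSet {z | p z})
    (hx : ∀ᵐ x ∂μ, p (lab x, x)) : ∀ᵐ x ∂μ, ∀ᵐ y ∂κ (lab x), p (lab x, y) := by
  have h1 : ∀ᵐ z ∂(μ.map lab ⊗ₘ κ), p z := by
    rw [h.eq]
    exact (ae_map_iff (h.meas.prodMk measurable_id').aemeasurable hp).mpr hx
  exact ae_of_ae_map h.meas.aemeasurable (Measure.ae_ae_of_ae_compProd h1)

theorem IsDis.ae_atom [StandardBorelSpace Y] (h : IsDis μ lab κ) {Z : Set Ω} (hZ : MeasurableSet Z)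
    (hZ' : ∀ᵐ x ∂μ, x ∈ Z) : ∀ᵐ x ∂μ, ∀ᵐ y ∂κ (lab x), lab y = lab x ∧ y ∈ Z := by
  refine h.ae (p := fun z => lab z.2 = z.1 ∧ z.2 ∈ Z) ?_ (hZ'.mono fun x hx => ⟨rfl, hx⟩)
  let _ := upgradeStandardBorel Y
  exact (measurableSet_eq_fun (h.meas.comp measurable_snd) measurable_fst).inter
    (measurable_snd hZ)

variable [MeasurableSpace ι] [Countable ι] [MeasurableSingletonClass ι] {e : Ω → ι}

/-- The conditional probability of the value `i`. -/
noncomputable def cpr (κ : Kernel Y Ω) (e : Ω → ι) (f : Y) (i : ι) : ℝ≥0∞ := κ f (e ⁻¹' {i})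

omit [IsMarkovKernel κ] [Countable ι] in
theorem measurable_cpr (he : Measurable e) (i : ι) : Measurable fun f => cpr κ e f i :=
  κ.measurable_coe (he (measurableSet_singleton i))

omit [IsMarkovKernel κ] in
theorem measurable_cpr' {W : Type*} [MeasurableSpace W] (he : Measurable e) {f : W → Y}
    {i : W → ι} (hf : Measurable f) (hi : Measurable i) :
    Measurable fun w => cpr κ e (f w) (i w) :=
  (measurable_from_prod_countable_left (f := fun z : Y × ι => cpr κ e z.1 z.2)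
    fun i => measurable_cpr he i).comp (hf.prodMk hi)

omit [MeasurableSpace ι] [Countable ι] [MeasurableSingletonClass ι] in
theorem cpr_le_one (f : Y) (i : ι) : cpr κ e f i ≤ 1 := prob_le_one

omit [Countable ι] in
theorem IsDis.rep (h : IsDis μ lab κ) (he : Measurable e) (i : ι) {G : Y → ℝ≥0∞}
    (hG : Measurable G) : ∫⁻ x, (e ⁻¹' {i}).indicator 1 x * G (lab x) ∂μ =
      ∫⁻ x, cpr κ e (lab x) i * G (lab x) ∂μ := by
  have hm : MeasurableSet (e ⁻¹' {i}) := he (measurableSet_singleton i)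
  have h1 : Measurable ((e ⁻¹' {i}).indicator 1 : Ω → ℝ≥0∞) := measurable_one.indicator hm
  rw [← h.lint (g := fun z => (e ⁻¹' {i}).indicator 1 z.2 * G z.1)
    ((h1.comp measurable_snd).mul (hG.comp measurable_fst))]
  refine lintegral_congr fun x => ?_
  show ∫⁻ y, (e ⁻¹' {i}).indicator 1 y * G (lab x) ∂κ (lab x) = _
  rw [lintegral_mul_const _ h1, lintegral_indicator_one hm]
  rfl

theorem IsDis.pos (h : IsDis μ lab κ) (he : Measurable e) :
    ∀ᵐ x ∂μ, cpr κ e (lab x) (e x) ≠ 0 := by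
  have key : ∀ i, ∀ᵐ x ∂μ, e x = i → cpr κ e (lab x) i ≠ 0 := by
    intro i
    have hm : MeasurableSet (e ⁻¹' {i}) := he (measurableSet_singleton i)
    have hN : MeasurableSet {f | cpr κ e f i = 0} :=
      measurable_cpr he i (measurableSet_singleton 0)
    have hG : Measurable ({f | cpr κ e f i = 0}.indicator 1 : Y → ℝ≥0∞) :=
      measurable_one.indicator hN
    have h1 := h.rep he i hG
    have h2 : ∫⁻ x, cpr κ e (lab x) i * {f | cpr κ e f i = 0}.indicator 1 (lab x) ∂μ = 0 := by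
      refine (lintegral_congr fun x => ?_).trans lintegral_zero
      by_cases hx : cpr κ e (lab x) i = 0 <;> simp [hx]
    have h3 : Measurable ((e ⁻¹' {i}).indicator 1 : Ω → ℝ≥0∞) := measurable_one.indicator hm
    have h4 := h.meas
    rw [h2, lintegral_eq_zero_iff (by fun_prop)] at h1
    filter_upwards [h1] with x hx hi h0
    simp [hi, h0] at hx
  filter_upwards [ae_all_iff.mpr key] with x hx using hx _ rfl

end basic

section pair
variable {Ω Y S A ι : Type*} [MeasurableSpace Ω] [MeasurableSpace Y] [MeasurableSpace S]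
  [MeasurableSpace A] {μ : Measure Ω} [IsProbabilityMeasure μ] {F : Ω → Y} {s : Ω → S}
  {al : Ω → A} {κ : Kernel Y Ω} [IsMarkovKernel κ] {κS : Kernel (Y × S) Ω} [IsMarkovKernel κS]
  {κA : Kernel (Y × A) Ω} [IsMarkovKernel κA]

/-- The relatively independent pair over the label. -/
noncomputable def pairM (μ : Measure Ω) (F : Ω → Y) (κ : Kernel Y Ω) : Measure (Y × Ω × Ω) :=
  μ.map F ⊗ₘ (κ ×ₖ κ)

theorem IsDis.prob_pair (h : IsDis μ F κ) : IsProbabilityMeasure (pairM μ F κ) := by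
  have := Measure.isProbabilityMeasure_map (μ := μ) h.meas.aemeasurable
  unfold pairM
  infer_instance

theorem lint_pair {g : Y × Ω × Ω → ℝ≥0∞} (hg : Measurable g) :
    ∫⁻ w, g w ∂pairM μ F κ = ∫⁻ f, ∫⁻ x, ∫⁻ y, g (f, x, y) ∂κ f ∂κ f ∂(μ.map F) := by
  rw [pairM, Measure.lintegral_compProd hg]
  refine lintegral_congr fun f => ?_
  rw [Kernel.prod_apply, lintegral_prod _ (Measurable.aemeasurable (by fun_prop))]

theorem lint_swap {g : Y × Ω × Ω → ℝ≥0∞} (hg : Measurable g) :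
    ∫⁻ w, g w ∂pairM μ F κ = ∫⁻ w, g (w.1, w.2.2, w.2.1) ∂pairM μ F κ := by
  rw [lint_pair hg, lint_pair (by fun_prop)]
  refine lintegral_congr fun f => ?_
  exact lintegral_lintegral_swap (f := fun x y => g (f, x, y))
    (hg.comp measurable_prodMk_left).aemeasurable

theorem measurable_inner {W : Type*} [MeasurableSpace W] {G : Y × W × Ω → ℝ≥0∞}
    (hG : Measurable G) : Measurable fun z : Y × W => ∫⁻ y, G (z.1, z.2, y) ∂κ z.1 := by
  have h := Measurable.lintegral_kernel_prod_right' (κ := κ.prodMkRight W)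
    (f := fun z : (Y × W) × Ω => G (z.1.1, z.1.2, z.2)) (hG.comp (by fun_prop))
  simpa using h

theorem IsDis.lint_fst (h : IsDis μ F κ) {g : Y × Ω × Ω → ℝ≥0∞} (hg : Measurable g) :
    ∫⁻ w, g w ∂pairM μ F κ = ∫⁻ x, ∫⁻ y, g (F x, x, y) ∂κ (F x) ∂μ := by
  rw [lint_pair hg]
  exact h.lint' (measurable_inner hg)

theorem IsDis.ae_fst [StandardBorelSpace Y] (h : IsDis μ F κ) {p : Ω → Prop}
    (hp : ∀ᵐ x ∂μ, p x) : ∀ᵐ w ∂pairM μ F κ, F w.2.1 = w.1 ∧ p w.2.1 := by
  obtain ⟨Z, hZ1, hZ2, hZ3⟩ := exists_measurable_superset_of_null hp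
  have hm : MeasurableSet {w : Y × Ω × Ω | F w.2.1 = w.1 ∧ w.2.1 ∉ Z} := by
    let _ := upgradeStandardBorel Y
    exact (measurableSet_eq_fun (h.meas.comp (by fun_prop)) measurable_fst).inter
      ((by fun_prop : Measurable fun w : Y × Ω × Ω => w.2.1) hZ2.compl)
  have h1 : ∀ᵐ w ∂pairM μ F κ, F w.2.1 = w.1 ∧ w.2.1 ∉ Z := by
    rw [ae_iff]
    refine (lintegral_indicator_one hm.compl).symm.trans ?_
    rw [h.lint_fst (measurable_one.indicator hm.compl)]
    refine (lintegral_congr_ae ?_).trans lintegral_zero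
    filter_upwards [measure_eq_zero_iff_ae_notMem.mp hZ3] with x hx
    simp [hx]
  filter_upwards [h1] with w hw
  exact ⟨hw.1, by_contra fun hn => hw.2 (hZ1 hn)⟩

theorem IsDis.ae_snd [StandardBorelSpace Y] (h : IsDis μ F κ) {p : Ω → Prop}
    (hp : ∀ᵐ x ∂μ, p x) : ∀ᵐ w ∂pairM μ F κ, F w.2.2 = w.1 ∧ p w.2.2 := by
  have hs : Measurable fun w : Y × Ω × Ω => (w.1, w.2.2, w.2.1) := by fun_prop
  have e : (pairM μ F κ).map (fun w => (w.1, w.2.2, w.2.1)) = pairM μ F κ := by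
    ext t ht
    rw [← lintegral_indicator_one ht, ← lintegral_indicator_one ht,
      lintegral_map (measurable_one.indicator ht) hs, ← lint_swap (measurable_one.indicator ht)]
  have h1 := h.ae_fst hp
  rw [← e] at h1
  exact ae_of_ae_map hs.aemeasurable h1

variable [MeasurableSpace ι] [Countable ι] [MeasurableSingletonClass ι] {e : Ω → ι}

omit [Countable ι] in
theorem IsDis.rep_pair (h : IsDis μ F κ) (hs : Measurable s) (hS : IsDis μ (fun x => (F x, s x)) κS)
    (he : Measurable e) (i : ι) {G : Y × S × Ω → ℝ≥0∞} (hG : Measurable G) :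
    ∫⁻ w, (e ⁻¹' {i}).indicator 1 w.2.1 * G (w.1, s w.2.1, w.2.2) ∂pairM μ F κ =
      ∫⁻ w, cpr κS e (w.1, s w.2.1) i * G (w.1, s w.2.1, w.2.2) ∂pairM μ F κ := by
  have h1 : Measurable ((e ⁻¹' {i}).indicator 1 : Ω → ℝ≥0∞) :=
    measurable_one.indicator (he (measurableSet_singleton i))
  have h2 := measurable_cpr (κ := κS) he i
  rw [h.lint_fst (by fun_prop), h.lint_fst (by fun_prop)]
  have h4 : ∀ x, Measurable fun y => G (F x, s x, y) := fun x => hG.comp (by fun_prop)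
  simp only [lintegral_const_mul _ (h4 _)]
  exact hS.rep he i (measurable_inner (κ := κ) hG)

/-- The density of the pair conditioned on equal digits. -/
noncomputable def rhoE (κ : Kernel Y Ω) (e : Ω → ι) (w : Y × Ω × Ω) : ℝ≥0∞ :=
  (e ⁻¹' {e w.2.1}).indicator 1 w.2.2 * (cpr κ e w.1 (e w.2.1))⁻¹

/-- The same density seen on the labels. -/
noncomputable def phiE (κ : Kernel Y Ω) (κS : Kernel (Y × S) Ω) (κA : Kernel (Y × A) Ω)
    (e : Ω → ι) (z : Y × S × A) : ℝ≥0∞ :=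
  ∑' i, cpr κS e (z.1, z.2.1) i * (cpr κA e (z.1, z.2.2) i * (cpr κ e z.1 i)⁻¹)

omit [IsMarkovKernel κ] [MeasurableSpace ι] [Countable ι] [MeasurableSingletonClass ι] in
theorem rhoE_eq (w : Y × Ω × Ω) : rhoE κ e w = ∑' i, (e ⁻¹' {i}).indicator 1 w.2.1 *
    ((e ⁻¹' {i}).indicator 1 w.2.2 * (cpr κ e w.1 i)⁻¹) := by
  rw [tsum_eq_single (e w.2.1) fun i hi => by simp [hi.symm]]
  simp [rhoE]

omit [IsMarkovKernel κ] in
theorem measurable_rhoE (he : Measurable e) : Measurable (rhoE κ e) := by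
  rw [show rhoE κ e = _ from funext rhoE_eq]
  refine Measurable.tsum fun i => ?_
  have h1 : Measurable ((e ⁻¹' {i}).indicator 1 : Ω → ℝ≥0∞) :=
    measurable_one.indicator (he (measurableSet_singleton i))
  exact (h1.comp (by fun_prop)).mul ((h1.comp (by fun_prop)).mul
    ((measurable_cpr he i).comp measurable_fst).inv)

omit [IsMarkovKernel κ] [IsMarkovKernel κS] [IsMarkovKernel κA] in
theorem measurable_phiE (he : Measurable e) : Measurable (phiE κ κS κA e) :=
  Measurable.tsum fun i => ((measurable_cpr he i).comp (by fun_prop)).mul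
    (((measurable_cpr he i).comp (by fun_prop)).mul ((measurable_cpr he i).comp measurable_fst).inv)

omit [IsMarkovKernel κ] [MeasurableSpace ι] [Countable ι] [MeasurableSingletonClass ι] in
theorem rhoE_swap (w : Y × Ω × Ω) : rhoE κ e (w.1, w.2.2, w.2.1) = rhoE κ e w := by
  rw [rhoE_eq, rhoE_eq]
  exact tsum_congr fun i => mul_left_comm _ _ _

theorem IsDis.rho_phi (h : IsDis μ F κ) (hs : Measurable s) (hal : Measurable al)
    (hS : IsDis μ (fun x => (F x, s x)) κS) (hA : IsDis μ (fun x => (F x, al x)) κA)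
    (he : Measurable e) {g : Y × S × A → ℝ≥0∞} (hg : Measurable g) :
    ∫⁻ w, rhoE κ e w * g (w.1, s w.2.1, al w.2.2) ∂pairM μ F κ =
      ∫⁻ w, phiE κ κS κA e (w.1, s w.2.1, al w.2.2) * g (w.1, s w.2.1, al w.2.2) ∂pairM μ F κ := by
  have h1 : ∀ i, Measurable ((e ⁻¹' {i}).indicator 1 : Ω → ℝ≥0∞) := fun i =>
    measurable_one.indicator (he (measurableSet_singleton i))
  have h2 := measurable_cpr (κ := κ) he
  have h3 := measurable_cpr (κ := κS) he
  have h4 := measurable_cpr (κ := κA) he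
  simp only [rhoE_eq, phiE, ← ENNReal.tsum_mul_right]
  rw [lintegral_tsum fun i => Measurable.aemeasurable (by have := h1 i; have := h2 i; fun_prop),
    lintegral_tsum fun i => Measurable.aemeasurable
      (by have := h2 i; have := h3 i; have := h4 i; fun_prop)]
  refine tsum_congr fun i => ?_
  have a1 := h1 i
  have a2 := h2 i
  have a3 := h3 i
  have a4 := h4 i
  have e1 := h.rep_pair hs hS he i (G := fun z => (e ⁻¹' {i}).indicator 1 z.2.2 *
    (cpr κ e z.1 i)⁻¹ * g (z.1, z.2.1, al z.2.2)) (by fun_prop)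
  have e2 := h.rep_pair hal hA he i (G := fun z => cpr κS e (z.1, s z.2.2) i *
    (cpr κ e z.1 i)⁻¹ * g (z.1, s z.2.2, z.2.1)) (by fun_prop)
  simp only [mul_assoc] at e1 e2 ⊢
  rw [e1, lint_swap (by fun_prop)]
  conv_rhs => rw [lint_swap (by fun_prop)]
  refine (lintegral_congr fun w => mul_left_comm _ _ _).trans (e2.trans ?_)
  exact lintegral_congr fun w => mul_left_comm _ _ _

theorem IsDis.rho_fst (h : IsDis μ F κ) (he : Measurable e) {g : Y × Ω → ℝ≥0∞}
    (hg : Measurable g) :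
    ∫⁻ w, rhoE κ e w * g (w.1, w.2.1) ∂pairM μ F κ = ∫⁻ x, g (F x, x) ∂μ := by
  have hr := measurable_rhoE (κ := κ) he
  rw [h.lint_fst (by fun_prop)]
  refine lintegral_congr_ae ?_
  filter_upwards [h.pos he] with x hx
  have hm : MeasurableSet (e ⁻¹' {e x}) := he (measurableSet_singleton _)
  show ∫⁻ y, (e ⁻¹' {e x}).indicator 1 y * (cpr κ e (F x) (e x))⁻¹ * g (F x, x) ∂κ (F x) = _
  simp only [mul_assoc]
  rw [lintegral_mul_const _ (measurable_one.indicator hm), lintegral_indicator_one hm, ← mul_assoc]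
  show cpr κ e (F x) (e x) * _ * _ = _
  rw [ENNReal.mul_inv_cancel hx (measure_ne_top _ _), one_mul]

theorem IsDis.rho_snd (h : IsDis μ F κ) (he : Measurable e) {g : Y × Ω → ℝ≥0∞}
    (hg : Measurable g) :
    ∫⁻ w, rhoE κ e w * g (w.1, w.2.2) ∂pairM μ F κ = ∫⁻ x, g (F x, x) ∂μ := by
  have hr := measurable_rhoE (κ := κ) he
  rw [lint_swap (by fun_prop), ← h.rho_fst he hg]
  exact lintegral_congr fun w => by rw [← rhoE_swap]

/-- The information of the value `i`. -/
noncomputable def infE (κ : Kernel Y Ω) (e : Ω → ι) (f : Y) (i : ι) : ℝ≥0∞ :=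
  ENNReal.ofReal (-Real.log (cpr κ e f i).toReal)

omit [IsMarkovKernel κ] in
theorem measurable_infE {W : Type*} [MeasurableSpace W] (he : Measurable e) {f : W → Y}
    {i : W → ι} (hf : Measurable f) (hi : Measurable i) :
    Measurable fun w => infE κ e (f w) (i w) :=
  (measurable_cpr' he hf hi).ennreal_toReal.log.neg.ennreal_ofReal

theorem krv_pt {a b c : ℝ≥0∞} (a0 : a ≠ 0) (b0 : b ≠ 0) (c0 : c ≠ 0) (a1 : a ≤ 1) (b1 : b ≤ 1)
    (c1 : c ≤ 1) : ENNReal.ofReal (((a * (b * c⁻¹))⁻¹).toReal - 1 -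
      Real.log ((a * (b * c⁻¹))⁻¹).toReal) + (1 + (ENNReal.ofReal (-Real.log a.toReal) +
        ENNReal.ofReal (-Real.log b.toReal))) =
      (a * (b * c⁻¹))⁻¹ + ENNReal.ofReal (-Real.log c.toReal) := by
  have at' : a ≠ ∞ := ne_top_of_le_ne_top ENNReal.one_ne_top a1
  have bt : b ≠ ∞ := ne_top_of_le_ne_top ENNReal.one_ne_top b1
  have ct : c ≠ ∞ := ne_top_of_le_ne_top ENNReal.one_ne_top c1
  have ha := ENNReal.toReal_pos a0 at'
  have hb := ENNReal.toReal_pos b0 bt
  have hc := ENNReal.toReal_pos c0 ct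
  have l : ∀ {x : ℝ≥0∞}, x ≤ 1 → 0 ≤ -Real.log x.toReal := fun hx =>
    neg_nonneg.mpr (Real.log_nonpos ENNReal.toReal_nonneg
      (ENNReal.toReal_le_of_le_ofReal zero_le_one (by simpa using hx)))
  have ht : (a * (b * c⁻¹))⁻¹ ≠ ∞ :=
    ENNReal.inv_ne_top.mpr (mul_ne_zero a0 (mul_ne_zero b0 (ENNReal.inv_ne_zero.mpr ct)))
  have e : ((a * (b * c⁻¹))⁻¹).toReal = (a.toReal * (b.toReal * c.toReal⁻¹))⁻¹ := by
    simp only [ENNReal.toReal_inv, ENNReal.toReal_mul]
  have hp : 0 < ((a * (b * c⁻¹))⁻¹).toReal := by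
    rw [e]
    positivity
  have el : Real.log ((a * (b * c⁻¹))⁻¹).toReal =
      -(Real.log a.toReal + (Real.log b.toReal + -Real.log c.toReal)) := by
    rw [e, Real.log_inv, Real.log_mul ha.ne' (by positivity), Real.log_mul hb.ne' (by positivity),
      Real.log_inv]
  have hw := Real.log_le_sub_one_of_pos hp
  conv_rhs => rw [← ENNReal.ofReal_toReal ht]
  rw [← ENNReal.ofReal_one, ← ENNReal.ofReal_add (l a1) (l b1),
    ← ENNReal.ofReal_add zero_le_one (add_nonneg (l a1) (l b1)),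
    ← ENNReal.ofReal_add (by linarith) (add_nonneg zero_le_one (add_nonneg (l a1) (l b1))),
    ← ENNReal.ofReal_add hp.le (l c1), el]
  congr 1
  ring

theorem krv_one {t : ℝ≥0∞} (h0 : t ≠ 0) (ht : t ≠ ∞)
    (h : ENNReal.ofReal (t⁻¹.toReal - 1 - Real.log t⁻¹.toReal) = 0) : t = 1 := by
  have hp : 0 < t⁻¹.toReal := ENNReal.toReal_pos (ENNReal.inv_ne_zero.mpr ht)
    (ENNReal.inv_ne_top.mpr h0)
  rw [ENNReal.ofReal_eq_zero] at h
  by_contra hne
  have h1 : t⁻¹.toReal ≠ 1 := fun e => hne (by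
    rw [ENNReal.toReal_eq_one_iff, ENNReal.inv_eq_one] at e
    exact e)
  linarith [Real.log_lt_sub_one_of_pos hp h1]

/-- One digit: the pair conditioned on equal digits has the same law on the labels. -/
theorem krv_digit [StandardBorelSpace Y] [StandardBorelSpace S] [StandardBorelSpace A]
    (h : IsDis μ F κ) (hs : Measurable s) (hal : Measurable al)
    (hS : IsDis μ (fun x => (F x, s x)) κS) (hA : IsDis μ (fun x => (F x, al x)) κA)
    (he : Measurable e) {Z : Set Ω} (hZ : MeasurableSet Z) (hZ' : ∀ᵐ x ∂μ, x ∈ Z)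
    (rect : ∀ y₁ ∈ Z, ∀ y₂ ∈ Z, ∀ y₁' ∈ Z, ∀ y₂' ∈ Z, F y₂ = F y₁ → F y₁' = F y₁ → F y₂' = F y₁ →
      e y₁ = e y₂ → e y₁' = e y₂' → s y₁ = s y₁' → al y₂ = al y₂' → e y₁ = e y₁')
    (fS : ∫⁻ x, infE κS e (F x, s x) (e x) ∂μ ≠ ∞) (fA : ∫⁻ x, infE κA e (F x, al x) (e x) ∂μ ≠ ∞)
    (ineq : ∫⁻ x, infE κ e (F x) (e x) ∂μ ≤
      ∫⁻ x, infE κS e (F x, s x) (e x) ∂μ + ∫⁻ x, infE κA e (F x, al x) (e x) ∂μ)
    {g : Y × S × A → ℝ≥0∞} (hg : Measurable g) :
    ∫⁻ w, rhoE κ e w * g (w.1, s w.2.1, al w.2.2) ∂pairM μ F κ =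
      ∫⁻ w, g (w.1, s w.2.1, al w.2.2) ∂pairM μ F κ := by
  have hP := h.prob_pair
  have hr := measurable_rhoE (κ := κ) he
  obtain ⟨φ, hφd⟩ : ∃ φ, φ = phiE κ κS κA e := ⟨_, rfl⟩
  have hφ : Measurable φ := hφd ▸ measurable_phiE (κ := κ) (κS := κS) (κA := κA) he
  obtain ⟨W, hWd⟩ : ∃ W : Y × S × A → ℝ≥0∞, W = fun z =>
    ENNReal.ofReal ((φ z)⁻¹.toReal - 1 - Real.log (φ z)⁻¹.toReal) := ⟨_, rfl⟩
  have hW : Measurable W := by
    rw [hWd]
    fun_prop
  have iF : Measurable fun z : Y × Ω => infE κ e z.1 (e z.2) :=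
    measurable_infE he (by fun_prop) (by fun_prop)
  have iS : Measurable fun z : Y × Ω => infE κS e (z.1, s z.2) (e z.2) :=
    measurable_infE he (by fun_prop) (by fun_prop)
  have iA : Measurable fun z : Y × Ω => infE κA e (z.1, al z.2) (e z.2) :=
    measurable_infE he (by fun_prop) (by fun_prop)
  have key : ∀ᵐ w ∂pairM μ F κ, e w.2.2 = e w.2.1 →
      (φ (w.1, s w.2.1, al w.2.2) ≠ 0 ∧ φ (w.1, s w.2.1, al w.2.2) ≠ ∞) ∧
      W (w.1, s w.2.1, al w.2.2) + (1 + (infE κS e (w.1, s w.2.1) (e w.2.1) +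
        infE κA e (w.1, al w.2.2) (e w.2.2))) =
      (φ (w.1, s w.2.1, al w.2.2))⁻¹ + infE κ e w.1 (e w.2.1) := by
    filter_upwards [h.ae_fst (hZ'.and ((h.pos he).and ((hS.pos he).and (hS.ae_atom hZ hZ')))),
      h.ae_snd (hZ'.and ((hA.pos he).and (hA.ae_atom hZ hZ')))] with ⟨f, x, y⟩ h1 h2 hxy
    dsimp only at h1 h2 hxy ⊢
    obtain ⟨rfl, x0, x1, x2, x3⟩ := h1
    obtain ⟨y0, y1, y2, y3⟩ := h2
    rw [y0] at y2 y3
    have e1 : φ (F x, s x, al y) = cpr κS e (F x, s x) (e x) *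
        (cpr κA e (F x, al y) (e x) * (cpr κ e (F x) (e x))⁻¹) := by
      rw [hφd]
      refine tsum_eq_single (e x) fun j hj => ?_
      by_contra hne
      obtain ⟨u, hu, u1, u2⟩ := Measure.exists_mem_of_measure_ne_zero_of_ae
        (left_ne_zero_of_mul hne) (ae_restrict_of_ae x3)
      obtain ⟨v, hv, v1, v2⟩ := Measure.exists_mem_of_measure_ne_zero_of_ae
        (left_ne_zero_of_mul (right_ne_zero_of_mul hne)) (ae_restrict_of_ae y3)
      have hu' : e u = j := hu
      have hv' : e v = j := hv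
      exact hj (hu'.symm.trans (rect x x0 y y1 u u2 v v2 y0 (Prod.mk.inj u1).1 (Prod.mk.inj v1).1
        hxy.symm (hu'.trans hv'.symm) (Prod.mk.inj u1).2.symm (Prod.mk.inj v1).2.symm).symm)
    rw [hxy] at y2 ⊢
    have t : ∀ {x : ℝ≥0∞}, x ≤ 1 → x ≠ ∞ := fun hx => ne_top_of_le_ne_top ENNReal.one_ne_top hx
    refine ⟨?_, ?_⟩
    · rw [e1]
      exact ⟨mul_ne_zero x2 (mul_ne_zero y2 (ENNReal.inv_ne_zero.mpr (t (cpr_le_one _ _)))),
        ENNReal.mul_ne_top (t (cpr_le_one _ _))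
          (ENNReal.mul_ne_top (t (cpr_le_one _ _)) (ENNReal.inv_ne_top.mpr x1))⟩
    · simp only [hWd, e1]
      exact krv_pt x2 y2 x1 (cpr_le_one _ _) (cpr_le_one _ _) (cpr_le_one _ _)
  have r0 : ∀ w : Y × Ω × Ω, e w.2.2 ≠ e w.2.1 → rhoE κ e w = 0 := fun w hw => by
    simp [rhoE, hw]
  have m1 : ∫⁻ w, rhoE κ e w ∂pairM μ F κ = 1 := by
    simpa using h.rho_fst he (g := fun _ => 1) measurable_const
  have s1 : ∫⁻ w, rhoE κ e w * W (w.1, s w.2.1, al w.2.2) ∂pairM μ F κ +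
      (1 + (∫⁻ x, infE κS e (F x, s x) (e x) ∂μ + ∫⁻ x, infE κA e (F x, al x) (e x) ∂μ)) =
      ∫⁻ w, rhoE κ e w * (φ (w.1, s w.2.1, al w.2.2))⁻¹ ∂pairM μ F κ +
        ∫⁻ x, infE κ e (F x) (e x) ∂μ := by
    have b2 : Measurable fun w : Y × Ω × Ω => infE κS e (w.1, s w.2.1) (e w.2.1) :=
      measurable_infE he (by fun_prop) (by fun_prop)
    have c1 : ∫⁻ w, rhoE κ e w * infE κ e w.1 (e w.2.1) ∂pairM μ F κ =
      ∫⁻ x, infE κ e (F x) (e x) ∂μ := h.rho_fst he (g := fun z => infE κ e z.1 (e z.2)) iF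
    have c2 : ∫⁻ w, rhoE κ e w * infE κS e (w.1, s w.2.1) (e w.2.1) ∂pairM μ F κ =
      ∫⁻ x, infE κS e (F x, s x) (e x) ∂μ :=
        h.rho_fst he (g := fun z => infE κS e (z.1, s z.2) (e z.2)) iS
    have c3 : ∫⁻ w, rhoE κ e w * infE κA e (w.1, al w.2.2) (e w.2.2) ∂pairM μ F κ =
      ∫⁻ x, infE κA e (F x, al x) (e x) ∂μ :=
        h.rho_snd he (g := fun z => infE κA e (z.1, al z.2) (e z.2)) iA
    have b3 : Measurable fun w : Y × Ω × Ω => rhoE κ e w * infE κS e (w.1, s w.2.1) (e w.2.1) :=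
      hr.mul b2
    have b4 : Measurable fun w : Y × Ω × Ω => rhoE κ e w * W (w.1, s w.2.1, al w.2.2) := by
      fun_prop
    have b5 : Measurable fun w : Y × Ω × Ω => rhoE κ e w * (φ (w.1, s w.2.1, al w.2.2))⁻¹ := by
      fun_prop
    rw [← c1, ← c2, ← c3, ← m1, ← lintegral_add_left b3, ← lintegral_add_left hr,
      ← lintegral_add_left b4, ← lintegral_add_left b5]
    refine lintegral_congr_ae ?_
    filter_upwards [key] with w hw
    by_cases hxy : e w.2.2 = e w.2.1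
    · rw [← mul_add, ← mul_add, ← (hw hxy).2]
      ring
    · simp [r0 w hxy]
  have s2 : ∫⁻ w, rhoE κ e w * (φ (w.1, s w.2.1, al w.2.2))⁻¹ ∂pairM μ F κ ≤ 1 := by
    rw [h.rho_phi hs hal hS hA he (g := fun z => (φ z)⁻¹) hφ.inv, ← hφd]
    refine (lintegral_mono fun w => ENNReal.mul_inv_le_one _).trans (by simp)
  have s3 : ∫⁻ w, rhoE κ e w * W (w.1, s w.2.1, al w.2.2) ∂pairM μ F κ = 0 := by
    have b := s1.le.trans (add_le_add s2 ineq)
    conv_rhs at b => rw [← zero_add (1 + _)]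
    exact le_zero_iff.mp (ENNReal.le_of_add_le_add_right
      (ENNReal.add_ne_top.mpr ⟨ENNReal.one_ne_top, ENNReal.add_ne_top.mpr ⟨fS, fA⟩⟩) b)
  rw [lintegral_eq_zero_iff (by fun_prop)] at s3
  have hN : MeasurableSet {z | φ z = 1} := hφ (measurableSet_singleton 1)
  have hI : Measurable ({z | φ z = 1}.indicator 1 : Y × S × A → ℝ≥0∞) :=
    measurable_one.indicator hN
  have s4 : ∫⁻ w, {z | φ z = 1}.indicator 1 (w.1, s w.2.1, al w.2.2) ∂pairM μ F κ = 1 := by
    have b := h.rho_phi hs hal hS hA he hI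
    rw [← hφd] at b
    refine (Eq.trans (lintegral_congr fun w => ?_) (b.symm.trans (lintegral_congr_ae ?_))).trans m1
    · by_cases hw : φ (w.1, s w.2.1, al w.2.2) = 1 <;> simp [hw]
    · filter_upwards [key, s3] with w hw h0
      by_cases hr0 : rhoE κ e w = 0
      · simp [hr0]
      · have hxy : e w.2.2 = e w.2.1 := by_contra fun hn => hr0 (r0 w hn)
        have b0 : W (w.1, s w.2.1, al w.2.2) = 0 := (mul_eq_zero.mp h0).resolve_left hr0
        rw [hWd] at b0
        have b1 := krv_one (hw hxy).1.1 (hw hxy).1.2 b0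
        simp [b1]
  have s5 : ∀ᵐ w ∂pairM μ F κ, φ (w.1, s w.2.1, al w.2.2) = 1 := by
    have hm : MeasurableSet {w : Y × Ω × Ω | φ (w.1, s w.2.1, al w.2.2) = 1} :=
      (by fun_prop : Measurable fun w : Y × Ω × Ω => (w.1, s w.2.1, al w.2.2)) hN
    refine (mem_ae_iff_prob_eq_one hm).mpr ?_
    exact (lintegral_indicator_one hm).symm.trans s4
  rw [h.rho_phi hs hal hS hA he hg]
  refine lintegral_congr_ae ?_
  filter_upwards [s5] with w hw
  rw [← hφd, hw, one_mul]

omit [MeasurableSpace ι] [Countable ι] [MeasurableSingletonClass ι] in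
/-- E12, core: conditional independence of `s` and `al` given `F`. -/
theorem krv_core [StandardBorelSpace Y] [StandardBorelSpace S] [StandardBorelSpace A]
    [PseudoMetricSpace A] [BorelSpace A] (h : IsDis μ F κ) (hs : Measurable s) (hal : Measurable al)
    (hS : IsDis μ (fun x => (F x, s x)) κS) (hA : IsDis μ (fun x => (F x, al x)) κA)
    {D : ℕ → Type*} [∀ n, MeasurableSpace (D n)] [∀ n, Countable (D n)]
    [∀ n, MeasurableSingletonClass (D n)] {e : ∀ n, Ω → D n} (he : ∀ n, Measurable (e n))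
    {Z : Set Ω} (hZ : MeasurableSet Z) (hZ' : ∀ᵐ x ∂μ, x ∈ Z)
    (rect : ∀ n, ∀ y₁ ∈ Z, ∀ y₂ ∈ Z, ∀ y₁' ∈ Z, ∀ y₂' ∈ Z, F y₂ = F y₁ → F y₁' = F y₁ →
      F y₂' = F y₁ → e n y₁ = e n y₂ → e n y₁' = e n y₂' → s y₁ = s y₁' → al y₂ = al y₂' →
      e n y₁ = e n y₁')
    (fS : ∀ n, ∫⁻ x, infE κS (e n) (F x, s x) (e n x) ∂μ ≠ ∞)
    (fA : ∀ n, ∫⁻ x, infE κA (e n) (F x, al x) (e n x) ∂μ ≠ ∞)
    (ineq : ∀ n, ∫⁻ x, infE κ (e n) (F x) (e n x) ∂μ ≤
      ∫⁻ x, infE κS (e n) (F x, s x) (e n x) ∂μ + ∫⁻ x, infE κA (e n) (F x, al x) (e n x) ∂μ)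
    (diam : ∀ᵐ x ∂μ, ∀ ε : ℝ, 0 < ε → ∃ N, ∀ n, N ≤ n → ∀ y ∈ Z, F y = F x → e n y = e n x →
      dist (al y) (al x) ≤ ε) :
    ∀ᵐ x ∂μ, (κ (F x)).map (fun y => (s y, al y)) = ((κ (F x)).map s).prod ((κ (F x)).map al) := by
  have hP := h.prob_pair
  have hF := h.meas
  have hν := Measure.isProbabilityMeasure_map (μ := μ) hF.aemeasurable
  have m1 : Measurable fun w : Y × Ω × Ω => (w.1, s w.2.1, al w.2.2) := by fun_prop
  have m2 : Measurable fun x : Ω => (F x, s x, al x) := by fun_prop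
  have test : ∀ {U : Set Y} {B : Set S}, MeasurableSet U → MeasurableSet B → ∀ c : A →ᵇ ℝ≥0,
      ∫⁻ w, (U.indicator 1 w.1 * B.indicator 1 (s w.2.1)) * (c (al w.2.2) : ℝ≥0∞) ∂pairM μ F κ =
        ∫⁻ x, (U.indicator 1 (F x) * B.indicator 1 (s x)) * (c (al x) : ℝ≥0∞) ∂μ := by
    intro U B hU hB c
    have hu : Measurable (U.indicator 1 : Y → ℝ≥0∞) := measurable_one.indicator hU
    have hb : Measurable (B.indicator 1 : S → ℝ≥0∞) := measurable_one.indicator hB
    have hc : Measurable fun a => (c a : ℝ≥0∞) := c.continuous.measurable.coe_nnreal_ennreal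
    have hr := fun n => measurable_rhoE (κ := κ) (he n)
    obtain ⟨C, hC⟩ : ∃ C : ℝ≥0, ∀ a, c a ≤ C := ⟨nndist c 0, fun a => BoundedContinuousFunction.NNReal.upper_bound c a⟩
    let q : ℕ → Ω → ℝ≥0∞ := fun n x => ∫⁻ y, rhoE κ (e n) (F x, x, y) * c (al y) ∂κ (F x)
    have hq : ∀ n, Measurable (q n) := fun n =>
      (measurable_inner (κ := κ) (G := fun w : Y × Ω × Ω => rhoE κ (e n) w * c (al w.2.2))
        (by have := hr n; fun_prop)).comp (hF.prodMk measurable_id')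
    have hy : ∀ n x, Measurable fun y => rhoE κ (e n) (F x, x, y) := fun n x =>
      (hr n).comp (by fun_prop)
    have e1 : ∀ n, ∫⁻ x, (U.indicator 1 (F x) * B.indicator 1 (s x)) * q n x ∂μ =
        ∫⁻ w, (U.indicator 1 w.1 * B.indicator 1 (s w.2.1)) * (c (al w.2.2) : ℝ≥0∞)
          ∂pairM μ F κ := by
      intro n
      have := hr n
      rw [← krv_digit h hs hal hS hA (he n) hZ hZ' (rect n) (fS n) (fA n) (ineq n)
        (g := fun z => (U.indicator 1 z.1 * B.indicator 1 z.2.1) * (c z.2.2 : ℝ≥0∞)) (by fun_prop),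
        h.lint_fst (by fun_prop)]
      refine lintegral_congr fun x => ?_
      have := hy n x
      rw [← lintegral_const_mul _ (by fun_prop)]
      exact lintegral_congr fun y => mul_left_comm _ _ _
    have one : ∀ᵐ x ∂μ, ∀ n, ∫⁻ y, rhoE κ (e n) (F x, x, y) ∂κ (F x) = 1 := by
      refine ae_all_iff.mpr fun n => ?_
      filter_upwards [h.pos (he n)] with x hx
      have hm : MeasurableSet (e n ⁻¹' {e n x}) := he n (measurableSet_singleton _)
      show ∫⁻ y, (e n ⁻¹' {e n x}).indicator 1 y * (cpr κ (e n) (F x) (e n x))⁻¹ ∂κ (F x) = 1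
      rw [lintegral_mul_const _ (measurable_one.indicator hm), lintegral_indicator_one hm]
      exact ENNReal.mul_inv_cancel hx (measure_ne_top _ _)
    have lim : Tendsto (fun n => ∫⁻ x, (U.indicator 1 (F x) * B.indicator 1 (s x)) * q n x ∂μ) atTop
        (𝓝 (∫⁻ x, (U.indicator 1 (F x) * B.indicator 1 (s x)) * (c (al x) : ℝ≥0∞) ∂μ)) := by
      have le1 : ∀ x, (U.indicator 1 (F x) * B.indicator 1 (s x) : ℝ≥0∞) ≤ 1 := fun x =>
        mul_le_one' (indicator_le_self' (fun _ _ => zero_le_one) _)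
          (indicator_le_self' (fun _ _ => zero_le_one) _)
      refine tendsto_lintegral_of_dominated_convergence (fun _ => (C : ℝ≥0∞))
        (fun n => by have := hq n; fun_prop) (fun n => ?_) (by simp) ?_
      · filter_upwards [one] with x hx
        refine (mul_le_of_le_one_left' (le1 x)).trans ?_
        refine (lintegral_mono fun y => mul_le_mul_right (ENNReal.coe_le_coe.mpr (hC _)) _).trans ?_
        rw [lintegral_mul_const _ (hy n x), hx n, one_mul]
      · filter_upwards [one, diam, h.ae_atom hZ hZ'] with x hx hd ha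
        refine ENNReal.Tendsto.const_mul ?_ (Or.inr (ne_top_of_le_ne_top ENNReal.one_ne_top (le1 x)))
        rw [ENNReal.tendsto_atTop ENNReal.coe_ne_top]
        intro ε hε
        have hcc : ContinuousAt (fun a => (c a : ℝ≥0∞)) (al x) :=
          (ENNReal.continuous_coe.comp c.continuous).continuousAt
        obtain ⟨δ, hδ, h1⟩ := Metric.eventually_nhds_iff.mp
          ((ENNReal.tendsto_nhds ENNReal.coe_ne_top).mp hcc ε hε)
        obtain ⟨N, hN⟩ := hd (δ / 2) (half_pos hδ)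
        refine ⟨N, fun n hn => ?_⟩
        have h2 : ∀ᵐ y ∂κ (F x), rhoE κ (e n) (F x, x, y) * (c (al x) - ε) ≤
            rhoE κ (e n) (F x, x, y) * c (al y) ∧ rhoE κ (e n) (F x, x, y) * c (al y) ≤
              rhoE κ (e n) (F x, x, y) * (c (al x) + ε) := by
          filter_upwards [ha] with y hy'
          by_cases hxy : e n y = e n x
          · have h3 := h1 ((hN n hn y hy'.2 hy'.1 hxy).trans_lt (half_lt_self hδ))
            exact ⟨mul_le_mul_right h3.1 _, mul_le_mul_right h3.2 _⟩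
          · simp [rhoE, hxy]
        constructor
        · refine le_trans (le_of_eq ?_) (lintegral_mono_ae (h2.mono fun _ h => h.1))
          rw [lintegral_mul_const _ (hy n x), hx n, one_mul]
        · refine (lintegral_mono_ae (h2.mono fun _ h => h.2)).trans (le_of_eq ?_)
          rw [lintegral_mul_const _ (hy n x), hx n, one_mul]
    simp only [e1] at lim
    exact tendsto_nhds_unique tendsto_const_nhds lim
  have law : (pairM μ F κ).map (fun w => (w.1, s w.2.1, al w.2.2)) =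
      μ.map fun x => (F x, s x, al x) := by
    refine Measure.ext_prod₃ fun {U B T} hU hB hT => ?_
    have hu : Measurable (U.indicator 1 : Y → ℝ≥0∞) := measurable_one.indicator hU
    have hb : Measurable (B.indicator 1 : S → ℝ≥0∞) := measurable_one.indicator hB
    have a1 : MeasurableSet {w : Y × Ω × Ω | w.1 ∈ U ∧ s w.2.1 ∈ B} :=
      (measurable_fst hU).inter ((by fun_prop : Measurable fun w : Y × Ω × Ω => s w.2.1) hB)
    have a2 : MeasurableSet {x : Ω | F x ∈ U ∧ s x ∈ B} := (hF hU).inter (hs hB)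
    have a3 : Measurable fun w : Y × Ω × Ω => al w.2.2 := by fun_prop
    have e2 : ((pairM μ F κ).restrict {w | w.1 ∈ U ∧ s w.2.1 ∈ B}).map (fun w => al w.2.2) =
        (μ.restrict {x | F x ∈ U ∧ s x ∈ B}).map al := by
      refine ext_of_forall_lintegral_eq_of_IsFiniteMeasure fun c => ?_
      have hc : Measurable fun a => (c a : ℝ≥0∞) := c.continuous.measurable.coe_nnreal_ennreal
      rw [lintegral_map hc a3, lintegral_map hc hal, ← lintegral_indicator a1,
        ← lintegral_indicator a2]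
      refine Eq.trans (lintegral_congr fun w => ?_) ((test hU hB c).trans
        (lintegral_congr fun x => ?_))
      · by_cases h1 : w.1 ∈ U <;> by_cases h2 : s w.2.1 ∈ B <;> simp [h1, h2]
      · by_cases h1 : F x ∈ U <;> by_cases h2 : s x ∈ B <;> simp [h1, h2]
    have e3 := congrArg (fun m : Measure A => m T) e2
    simp only [Measure.map_apply a3 hT, Measure.map_apply hal hT, Measure.restrict_apply (a3 hT),
      Measure.restrict_apply (hal hT)] at e3
    rw [Measure.map_apply m1 (hU.prod (hB.prod hT)), Measure.map_apply m2 (hU.prod (hB.prod hT))]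
    convert e3 using 2 <;> ext <;> simp <;> tauto
  have m3 : Measurable fun y => (s y, al y) := by fun_prop
  have k1 := Kernel.IsMarkovKernel.map κ m3
  have k2 := Kernel.IsMarkovKernel.map κ hs
  have k3 := Kernel.IsMarkovKernel.map κ hal
  have eq : μ.map F ⊗ₘ κ.map (fun y => (s y, al y)) = μ.map F ⊗ₘ (κ.map s ×ₖ κ.map al) := by
    rw [Measure.compProd_map m3, h.eq, Kernel.map_prod_map _ _ hs hal,
      Measure.compProd_map (hs.prodMap hal),
      Measure.map_map (measurable_id.prodMap m3) (hF.prodMk measurable_id')]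
    exact law.symm
  filter_upwards [ae_of_ae_map hF.aemeasurable (Kernel.ae_eq_of_compProd_eq eq)] with x hx
  rw [← Kernel.map_apply _ m3, hx, Kernel.prod_apply, Kernel.map_apply _ hs,
    Kernel.map_apply _ hal]

end pair

end Pool.Agent.P.MP_d483fb_an.Z
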