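import Pool.Agent.P.MP_d483fb_an.Z.Ent.Defs
import Pool.Agent.P.MP_d483fb_an.Z.Ent.KRV0

/-!
Conditional independence from the entropy inequality, in the language of `Ent.Defs`.
-/

namespace Pool.Agent.P.MP_d483fb_an.Z.Ent

open MeasureTheory ProbabilityTheory Set Filter Topology
open scoped ENNReal NNReal

theorem KRV1_closed {A : Type*} [MeasurableSpace A] [PseudoMetricSpace A] [BorelSpace A]
    {m m' : Measure A} [IsFiniteMeasure m'] {T : Set A} (hT : IsClosed T)
    (h : ∀ δ : ℝ, 0 < δ → ∀ η : ℝ, 0 < η →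
      m T ≤ m' (Metric.cthickening δ T) + (ENNReal.ofReal η + ENNReal.ofReal η)) :
    m T ≤ m' T := by
  have h1 : Tendsto (fun δ => m' (Metric.cthickening δ T)) (𝓝 0) (𝓝 (m' T)) :=
    tendsto_measure_cthickening_of_isClosed ⟨1, one_pos, measure_ne_top _ _⟩ hT
  have h2 : Tendsto (fun δ : ℝ => ENNReal.ofReal δ) (𝓝 0) (𝓝 0) := by
    simpa using ENNReal.continuous_ofReal.tendsto 0
  have h3 := (h1.add (h2.add h2)).mono_left (nhdsWithin_le_nhds (s := Ioi 0))
  simp only [add_zero] at h3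
  exact ge_of_tendsto h3 (eventually_nhdsWithin_of_forall fun δ hδ => h δ hδ δ hδ)

variable {Ω Y S A : Type*} [MeasurableSpace Ω] [MeasurableSpace Y] [MeasurableSpace S]
  [MeasurableSpace A] {μ : Measure Ω} [IsProbabilityMeasure μ] {F : Ω → Y} {s : Ω → S}
  {al : Ω → A}

/-- If the pair laws agree for all digits and the atoms shrink, the coordinates are independent. -/
theorem krv_limit [StandardBorelSpace Y] [StandardBorelSpace S] [StandardBorelSpace A]
    [PseudoMetricSpace A] [BorelSpace A] {κ : Kernel Y Ω} [IsMarkovKernel κ] (h : IsDis μ F κ)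
    (hs : Measurable s) (hal : Measurable al)
    {D : ℕ → Type*} [∀ n, MeasurableSpace (D n)] [∀ n, Countable (D n)]
    [∀ n, MeasurableSingletonClass (D n)] {e : ∀ n, Ω → D n} (he : ∀ n, Measurable (e n))
    (pair : ∀ n (g : Y × S × A → ℝ≥0∞), Measurable g →
      ∫⁻ w, rhoE κ (e n) w * g (w.1, s w.2.1, al w.2.2) ∂pairM μ F κ =
        ∫⁻ w, g (w.1, s w.2.1, al w.2.2) ∂pairM μ F κ)
    (shr : Shrink μ F e al) :
    ∀ᵐ x ∂μ, (κ (F x)).map (fun y => (s y, al y)) = ((κ (F x)).map s).prod ((κ (F x)).map al) := by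
  have hP := h.prob_pair
  have hF := h.meas
  have hν := Measure.isProbabilityMeasure_map (μ := μ) hF.aemeasurable
  have m1 : Measurable fun w : Y × Ω × Ω => (w.1, s w.2.1, al w.2.2) := by fun_prop
  have m2 : Measurable fun x : Ω => (F x, s x, al x) := by fun_prop
  have a3 : Measurable fun w : Y × Ω × Ω => al w.2.2 := by fun_prop
  have law : (pairM μ F κ).map (fun w => (w.1, s w.2.1, al w.2.2)) =
      μ.map fun x => (F x, s x, al x) := by
    refine Measure.ext_prod₃ fun {U B T} hU hB hT => ?_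
    have a1 : MeasurableSet {w : Y × Ω × Ω | w.1 ∈ U ∧ s w.2.1 ∈ B} :=
      (measurable_fst hU).inter ((by fun_prop : Measurable fun w : Y × Ω × Ω => s w.2.1) hB)
    have a2 : MeasurableSet {x : Ω | F x ∈ U ∧ s x ∈ B} := (hF hU).inter (hs hB)
    obtain ⟨m, hm⟩ : ∃ m, m = ((pairM μ F κ).restrict {w | w.1 ∈ U ∧ s w.2.1 ∈ B}).map
      (fun w => al w.2.2) := ⟨_, rfl⟩
    obtain ⟨m', hm'⟩ : ∃ m', m' = (μ.restrict {x | F x ∈ U ∧ s x ∈ B}).map al := ⟨_, rfl⟩
    have f1 : IsFiniteMeasure m := hm ▸ inferInstance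
    have f2 : IsFiniteMeasure m' := hm' ▸ inferInstance
    have hI : ∀ {T : Set A}, MeasurableSet T →
        Measurable ((U ×ˢ B ×ˢ T).indicator 1 : Y × S × A → ℝ≥0∞) := fun hT =>
      measurable_one.indicator (hU.prod (hB.prod hT))
    have e1 : ∀ n {T : Set A}, MeasurableSet T → m T = ∫⁻ w, rhoE κ (e n) w *
        (U ×ˢ B ×ˢ T).indicator 1 (w.1, s w.2.1, al w.2.2) ∂pairM μ F κ := by
      intro n T hT
      rw [pair n _ (hI hT), hm, Measure.map_apply a3 hT, Measure.restrict_apply (a3 hT),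
        ← lintegral_indicator_one ((a3 hT).inter a1)]
      refine lintegral_congr fun w => ?_
      by_cases h1 : w.1 ∈ U <;> by_cases h2 : s w.2.1 ∈ B <;> by_cases h3 : al w.2.2 ∈ T <;>
        simp [h1, h2, h3]
    have e2 : ∀ n {T : Set A}, MeasurableSet T → m' T = ∫⁻ w, rhoE κ (e n) w *
        (U ×ˢ B ×ˢ T).indicator 1 (w.1, s w.2.1, al w.2.1) ∂pairM μ F κ := by
      intro n T hT
      have := hI hT
      rw [h.rho_fst (he n) (g := fun z => (U ×ˢ B ×ˢ T).indicator 1 (z.1, s z.2, al z.2))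
        (by fun_prop), hm', Measure.map_apply hal hT, Measure.restrict_apply (hal hT),
        ← lintegral_indicator_one ((hal hT).inter a2)]
      refine lintegral_congr fun x => ?_
      by_cases h1 : F x ∈ U <;> by_cases h2 : s x ∈ B <;> by_cases h3 : al x ∈ T <;>
        simp [h1, h2, h3]
    have key : ∀ δ : ℝ, 0 < δ → ∀ η : ℝ, 0 < η → ∃ n, ∀ (u v : Y × Ω × Ω → ℝ≥0∞), Measurable v →
        (∀ w, u w ≤ 1) → (∀ w, dist (al w.2.1) (al w.2.2) ≤ δ → u w ≤ v w) →
        ∫⁻ w, rhoE κ (e n) w * u w ∂pairM μ F κ ≤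
          ∫⁻ w, rhoE κ (e n) w * v w ∂pairM μ F κ + (ENNReal.ofReal η + ENNReal.ofReal η) := by
      intro δ hδ η hη
      obtain ⟨n, G, hG, hGη, hd⟩ := (shr δ hδ η hη).exists
      refine ⟨n, fun u v hv hu huv => ?_⟩
      have hr := measurable_rhoE (κ := κ) (he n)
      have hc : Measurable (Gᶜ.indicator 1 : Ω → ℝ≥0∞) := measurable_one.indicator hG.compl
      have b0 : ∫⁻ x, Gᶜ.indicator 1 x ∂μ ≤ ENNReal.ofReal η := by
        rw [lintegral_indicator_one hG.compl]
        exact (ENNReal.le_ofReal_iff_toReal_le (measure_ne_top _ _) hη.le).mpr hGη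
      have b1 : ∫⁻ w, rhoE κ (e n) w * Gᶜ.indicator 1 w.2.1 ∂pairM μ F κ ≤ ENNReal.ofReal η :=
        (h.rho_fst (he n) (g := fun z => Gᶜ.indicator 1 z.2) (by fun_prop)).trans_le b0
      have b2 : ∫⁻ w, rhoE κ (e n) w * Gᶜ.indicator 1 w.2.2 ∂pairM μ F κ ≤ ENNReal.ofReal η :=
        (h.rho_snd (he n) (g := fun z => Gᶜ.indicator 1 z.2) (by fun_prop)).trans_le b0
      refine le_trans ?_ (add_le_add le_rfl (add_le_add b1 b2))
      rw [← lintegral_add_left (by fun_prop), ← lintegral_add_left (by fun_prop)]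
      refine lintegral_mono_ae ?_
      filter_upwards [h.ae_fst (p := fun _ => True) (by simp),
        h.ae_snd (p := fun _ => True) (by simp)] with w h1 h2
      rw [← mul_add, ← mul_add]
      by_cases hxy : e n w.2.2 = e n w.2.1
      · refine mul_le_mul_right ?_ _
        by_cases hx : w.2.1 ∈ G
        · by_cases hy : w.2.2 ∈ G
          · exact (huv w (hd _ hx _ hy (h1.1.trans h2.1.symm) hxy.symm)).trans le_self_add
          · refine (hu w).trans (le_add_left (le_add_left ?_))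
            simp [hy]
        · refine (hu w).trans (le_add_left (le_add_right ?_))
          simp [hx]
      · simp [rhoE, hxy]
    have ind : ∀ {T : Set A} {δ : ℝ} (f : Y) (σ : S) {a a' : A}, dist a' a ≤ δ →
        ((U ×ˢ B ×ˢ T).indicator 1 (f, σ, a) : ℝ≥0∞) ≤
          (U ×ˢ B ×ˢ Metric.cthickening δ T).indicator 1 (f, σ, a') := by
      intro T δ f σ a a' hd
      by_cases hz : (f, σ, a) ∈ U ×ˢ B ×ˢ T
      · rw [indicator_of_mem hz, indicator_of_mem
          (show (f, σ, a') ∈ U ×ˢ B ×ˢ Metric.cthickening δ T from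
            ⟨hz.1, hz.2.1, Metric.mem_cthickening_of_dist_le a' a δ T hz.2.2 hd⟩)]
        exact le_rfl
      · rw [indicator_of_notMem hz]
        exact zero_le
    have le1 : ∀ {T : Set A} (z : Y × S × A), ((U ×ˢ B ×ˢ T).indicator 1 z : ℝ≥0∞) ≤ 1 :=
      fun z => indicator_le_self' (fun _ _ => zero_le_one) z
    have cl : ∀ T : Set A, IsClosed T → m T = m' T := by
      intro T hT
      refine le_antisymm (KRV1_closed hT fun δ hδ η hη => ?_) (KRV1_closed hT fun δ hδ η hη => ?_)
      · obtain ⟨n, hn⟩ := key δ hδ η hη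
        have hc : MeasurableSet (Metric.cthickening δ T) := Metric.isClosed_cthickening.measurableSet
        have := hI hc
        rw [e1 n hT.measurableSet, e2 n hc]
        exact hn _ _ (by fun_prop) (fun w => le1 _) fun w hw => ind _ _ hw
      · obtain ⟨n, hn⟩ := key δ hδ η hη
        have hc : MeasurableSet (Metric.cthickening δ T) := Metric.isClosed_cthickening.measurableSet
        have := hI hc
        rw [e2 n hT.measurableSet, e1 n hc]
        exact hn _ _ (by fun_prop) (fun w => le1 _) fun w hw => ind _ _ ((dist_comm _ _).trans_le hw)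
    have e3 : m = m' := by
      refine ext_of_generate_finite _ ?_ isPiSystem_isClosed cl (cl _ isClosed_univ)
      rw [BorelSpace.measurable_eq (α := A), borel_eq_generateFrom_isClosed]
    have e4 := congrArg (fun m : Measure A => m T) (hm.symm.trans (e3.trans hm'))
    simp only [Measure.map_apply a3 hT, Measure.map_apply hal hT, Measure.restrict_apply (a3 hT),
      Measure.restrict_apply (hal hT)] at e4
    rw [Measure.map_apply m1 (hU.prod (hB.prod hT)), Measure.map_apply m2 (hU.prod (hB.prod hT))]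
    convert e4 using 2 <;> ext <;> simp <;> tauto
  have m3 : Measurable fun y => (s y, al y) := by fun_prop
  have k1 := Kernel.IsMarkovKernel.map κ m3
  have k2 := Kernel.IsMarkovKernel.map κ hs
  have k3 := Kernel.IsMarkovKernel.map κ hal
  have eq : μ.map F ⊗ₘ κ.map (fun y => (s y, al y)) = μ.map F ⊗ₘ (κ.map s ×ₖ κ.map al) := by
    rw [Measure.compProd_map m3, h.eq, Kernel.map_prod_map _ _ hs hal,
      Measure.compProd_map (hs.prodMap hal),
      Measure.map_map (measurable_id.prodMap m3) (hF.prodMk measurable_id')]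
    exact law.symm
  filter_upwards [ae_of_ae_map hF.aemeasurable (Kernel.ae_eq_of_compProd_eq eq)] with x hx
  rw [← Kernel.map_apply _ m3, hx, Kernel.prod_apply, Kernel.map_apply _ hs,
    Kernel.map_apply _ hal]

variable [StandardBorelSpace Ω] [Nonempty Ω]

theorem KRV1_lint {D : Type*} {e : Ω → D} (hi : Integrable (Ic μ e F) μ) :
    ∫⁻ x, infE (condDistrib id F μ) e (F x) (e x) ∂μ = ENNReal.ofReal (Hc μ e F) :=
  (ofReal_integral_eq_lintegral_ofReal hi (Eventually.of_forall fun _ => neg_nonneg.mpr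
    (Real.log_nonpos measureReal_nonneg measureReal_le_one))).symm

/-- E12 for a sequence of digits. -/
theorem krv_digits [StandardBorelSpace Y] [StandardBorelSpace S] [StandardBorelSpace A]
    [PseudoMetricSpace A] [BorelSpace A] (hF : Measurable F) (hs : Measurable s)
    (hal : Measurable al) {D : ℕ → Type*} [∀ n, MeasurableSpace (D n)] [∀ n, Countable (D n)]
    [∀ n, MeasurableSingletonClass (D n)] {e : ∀ n, Ω → D n} (he : ∀ n, Measurable (e n))
    (rect : ∀ n, Rect μ F (e n) s al) (iF : ∀ n, Integrable (Ic μ (e n) F) μ)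
    (iS : ∀ n, Integrable (Ic μ (e n) (pr2 F s)) μ) (iA : ∀ n, Integrable (Ic μ (e n) (pr2 F al)) μ)
    (ineq : ∀ n, Hc μ (e n) F ≤ Hc μ (e n) (pr2 F s) + Hc μ (e n) (pr2 F al))
    (shr : Shrink μ F e al) :
    ∀ᵐ x ∂μ, (cp μ F x).map (pr2 s al) = ((cp μ F x).map s).prod ((cp μ F x).map al) := by
  have h := isDis_condDistrib μ hF
  refine krv_limit h hs hal he (fun n g hg => ?_) shr
  obtain ⟨W, hW, hR⟩ := rect n
  obtain ⟨Z, hZ1, hZ2, hZ3⟩ := exists_measurable_superset_of_null hW
  have sub : ∀ x ∈ Zᶜ, x ∈ W := fun x hx => by_contra fun hn => hx (hZ1 hn)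
  have e1 := KRV1_lint (iF n)
  have e2 := KRV1_lint (iS n)
  have e3 := KRV1_lint (iA n)
  refine krv_digit h hs hal (isDis_condDistrib μ (hF.prodMk hs))
    (isDis_condDistrib μ (hF.prodMk hal)) (he n) hZ2.compl (measure_eq_zero_iff_ae_notMem.mp hZ3)
    (fun a ha b hb c hc d hd h1 h2 h3 =>
      hR a (sub a ha) b (sub b hb) c (sub c hc) d (sub d hd) h1.symm h2.symm h3.symm)
    (e2.trans_ne ENNReal.ofReal_ne_top) (e3.trans_ne ENNReal.ofReal_ne_top) ?_ hg
  exact e1.le.trans ((ENNReal.ofReal_le_ofReal (ineq n)).trans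
    (ENNReal.ofReal_add_le.trans (add_le_add e2.ge e3.ge)))

end Pool.Agent.P.MP_d483fb_an.Z.Ent
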