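import Pool.Agent.P.MP_d483fb_an.Z.Ent.Sel

/-!
# The Lusin half of the Fano–Lusin lemma (E8)

A measurable map `L` to a finite type is, off a set of small measure, constant on `Rel δ`-pairs;
hence it can be guessed from a label whose atoms only contain `Rel δ`-pairs.
-/

open MeasureTheory Set Filter
open scoped ENNReal

namespace Pool.Agent.P.MP_d483fb_an.Z

/-- `Rel` separates disjoint compact sets: it is monotone in `δ` and any two disjoint compact sets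
contain no `Rel δ`-pair for some `δ > 0`. -/
structure LusinRel {Z : Type*} [TopologicalSpace Z] (Rel : ℝ → Z → Z → Prop) : Prop where
  mono : ∀ ⦃δ δ' : ℝ⦄, 0 < δ → δ ≤ δ' → ∀ ⦃z z' : Z⦄, Rel δ z z' → Rel δ' z z'
  sep : ∀ Q Q' : Set Z, IsCompact Q → IsCompact Q' → Disjoint Q Q' →
    ∃ δ > 0, ∀ z ∈ Q, ∀ z' ∈ Q', ¬ Rel δ z z'

/-- Off a set of small measure a finitely valued measurable map is constant on `Rel δ`-pairs. -/
theorem LusinRel.exists_compact {Z : Type*} [TopologicalSpace Z] [PolishSpace Z]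
    [MeasurableSpace Z] [BorelSpace Z] {Rel : ℝ → Z → Z → Prop} (hR : LusinRel Rel)
    (ν : Measure Z) [IsFiniteMeasure ν] {ι : Type*} [Finite ι] [MeasurableSpace ι]
    [MeasurableSingletonClass ι] {L : Z → ι} (hL : Measurable L) {η : ℝ≥0∞} (hη : η ≠ 0) :
    ∃ δ > 0, ∃ Q : Set Z, IsCompact Q ∧ ν Qᶜ ≤ η ∧
      ∀ z ∈ Q, ∀ z' ∈ Q, Rel δ z z' → L z = L z' := by
  classical
  obtain ⟨e, he0, he⟩ := ENNReal.exists_pos_sum_of_countable hη ι
  have h1 : ∀ i : ι, ∃ K ⊆ L ⁻¹' {i}, IsCompact K ∧ ν (L ⁻¹' {i} \ K) < e i := fun i =>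
    (hL (measurableSet_singleton i)).exists_isCompact_sdiff_lt (measure_ne_top _ _)
      (by exact_mod_cast (he0 i).ne')
  choose K hKs hKc hKν using h1
  have h2 : ∀ p : ι × ι, ∃ δ > 0, p.1 ≠ p.2 → ∀ z ∈ K p.1, ∀ z' ∈ K p.2, ¬ Rel δ z z' := by
    intro p
    by_cases hp : p.1 = p.2
    · exact ⟨1, one_pos, fun h => (h hp).elim⟩
    · obtain ⟨δ, hδ, h⟩ := hR.sep (K p.1) (K p.2) (hKc _) (hKc _) (by
        rw [Set.disjoint_left]
        intro z h1 h2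
        exact hp ((hKs _ h1).symm.trans (hKs _ h2)))
      exact ⟨δ, hδ, fun _ => h⟩
  choose δ hδ0 hδ using h2
  obtain ⟨δ0, hδ00, hδ0le⟩ : ∃ δ0 > 0, ∀ p, δ0 ≤ δ p := by
    rcases isEmpty_or_nonempty (ι × ι) with h | h
    · exact ⟨1, one_pos, fun p => h.elim p⟩
    · obtain ⟨p0, hp0⟩ := Finite.exists_min δ
      exact ⟨δ p0, hδ0 p0, hp0⟩
  refine ⟨δ0, hδ00, ⋃ i, K i, isCompact_iUnion hKc, ?_, ?_⟩
  · have hsub : (⋃ i, K i)ᶜ ⊆ ⋃ i, (L ⁻¹' {i} \ K i) := by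
      intro z hz
      simp only [mem_compl_iff, mem_iUnion, not_exists] at hz
      exact mem_iUnion.2 ⟨L z, rfl, hz _⟩
    calc ν (⋃ i, K i)ᶜ ≤ ∑' i, ν (L ⁻¹' {i} \ K i) :=
          (measure_mono hsub).trans (measure_iUnion_le _)
      _ ≤ ∑' i, (e i : ℝ≥0∞) := ENNReal.tsum_le_tsum fun i => (hKν i).le
      _ ≤ η := he.le
  · intro z hz z' hz' hrel
    obtain ⟨i, hi⟩ := mem_iUnion.1 hz
    obtain ⟨j, hj⟩ := mem_iUnion.1 hz'
    by_cases hij : i = j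
    · exact (hKs _ hi).trans (hij.trans (hKs _ hj).symm)
    · exact (hδ (i, j) hij z hi z' hj (hR.mono hδ00 (hδ0le _) hrel)).elim

/-- The guess.  For `η > 0` there is `δ > 0` (depending only on the law `ν`, `L` and `Rel`) such
that whenever `Lam` has law `ν` and the atoms of the label `g` inside the measurable set `S` only
contain `Rel δ`-pairs, `L ∘ Lam` is a measurable function of `g` on `S` off a set of measure `η`. -/
theorem LusinRel.exists_guess {Z : Type*} [TopologicalSpace Z] [PolishSpace Z]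
    [MeasurableSpace Z] [BorelSpace Z] {Rel : ℝ → Z → Z → Prop} (hR : LusinRel Rel)
    (ν : Measure Z) [IsFiniteMeasure ν] {ι : Type*} [Finite ι] [Nonempty ι] [MeasurableSpace ι]
    [MeasurableSingletonClass ι] {L : Z → ι} (hL : Measurable L) {η : ℝ≥0∞} (hη : η ≠ 0) :
    ∃ δ > 0, ∀ {Ω Y : Type*} [MeasurableSpace Ω] [StandardBorelSpace Ω] [MeasurableSpace Y]
      [StandardBorelSpace Y] (μ : Measure Ω) (Lam : Ω → Z) (g : Ω → Y) (S : Set Ω),
      Measurable Lam → μ.map Lam = ν → Measurable g → MeasurableSet S →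
      (∀ y ∈ S, ∀ y' ∈ S, g y = g y' → Rel δ (Lam y) (Lam y')) →
      ∃ φ : Y → ι, Measurable φ ∧ μ {y | y ∈ S ∧ L (Lam y) ≠ φ (g y)} ≤ η := by
  obtain ⟨δ, hδ, Q, hQ, hQν, hQR⟩ := hR.exists_compact ν hL hη
  refine ⟨δ, hδ, ?_⟩
  intro Ω Y _ _ _ _ μ Lam g S hLam hmap hg hS hrel
  have hQm : MeasurableSet Q := hQ.isClosed.measurableSet
  obtain ⟨φ, hφ, hφ'⟩ := exists_factor hg (hL.comp hLam) (hS.inter (hLam hQm))
    (fun x hx y hy hxy => hQR _ hx.2 _ hy.2 (hrel x hx.1 y hy.1 hxy))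
  refine ⟨φ, hφ, ?_⟩
  calc μ {y | y ∈ S ∧ L (Lam y) ≠ φ (g y)} ≤ μ (Lam ⁻¹' Qᶜ) := by
        refine measure_mono fun y hy hyQ => hy.2 ?_
        exact hφ' y ⟨hy.1, hyQ⟩
    _ = ν Qᶜ := by rw [← hmap, Measure.map_apply hLam hQm.compl]
    _ ≤ η := hQν

end Pool.Agent.P.MP_d483fb_an.Z
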