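import Mathlib

/-!
# Labels: factorisation through a finer label and measurable selection

* `exists_sat` : a measurable set that is saturated for a label inside a measurable set `S` is, on
  `S`, the preimage of a measurable set (Lusin separation);
* `exists_factor` : if on `S` the atoms of `f` are finer than those of `g`, then `g = φ ∘ f` on `S`
  with `φ` measurable;
* `exists_sel` : measurable choice of a point in almost every atom inside a given conull set.
-/

open MeasureTheory ProbabilityTheory Set Filter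

namespace Pool.Agent.P.MP_d483fb_an.Z

variable {Ω Y Z : Type*} [MeasurableSpace Ω] [StandardBorelSpace Ω]
  [MeasurableSpace Y] [StandardBorelSpace Y] [MeasurableSpace Z] [StandardBorelSpace Z]

/-- Lusin separation for labels: two measurable sets with no common label value are separated by
the preimage of a measurable set. -/
theorem exists_sep {f : Ω → Y} (hf : Measurable f) {A B : Set Ω} (hA : MeasurableSet A)
    (hB : MeasurableSet B) (h : ∀ x ∈ A, ∀ y ∈ B, f x ≠ f y) :
    ∃ C : Set Y, MeasurableSet C ∧ (∀ x ∈ A, f x ∈ C) ∧ ∀ y ∈ B, f y ∉ C := by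
  let _ := upgradeStandardBorel Y
  have h1 : AnalyticSet (f '' A) := hA.analyticSet_image hf
  have h2 : AnalyticSet (f '' B) := hB.analyticSet_image hf
  have hd : Disjoint (f '' A) (f '' B) := by
    rw [Set.disjoint_left]
    rintro _ ⟨x, hx, rfl⟩ ⟨y, hy, hxy⟩
    exact h x hx y hy hxy.symm
  obtain ⟨C, hC1, hC2, hC3⟩ := h1.measurablySeparable h2 hd
  exact ⟨C, hC3, fun x hx => hC1 ⟨x, hx, rfl⟩,
    fun y hy hc => Set.disjoint_left.1 hC2 ⟨y, hy, rfl⟩ hc⟩

/-- A measurable set saturated for the label `f` inside the measurable set `S` is on `S` the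
preimage of a measurable set. -/
theorem exists_sat {f : Ω → Y} (hf : Measurable f) {S B : Set Ω} (hS : MeasurableSet S)
    (hB : MeasurableSet B) (h : ∀ x ∈ S, ∀ y ∈ S, f x = f y → x ∈ B → y ∈ B) :
    ∃ C : Set Y, MeasurableSet C ∧ ∀ x ∈ S, (x ∈ B ↔ f x ∈ C) := by
  obtain ⟨C, hC, h1, h2⟩ := exists_sep hf (hS.inter hB) (hS.diff hB)
    (fun x hx y hy hxy => hy.2 (h x hx.1 y hy.1 hxy hx.2))
  refine ⟨C, hC, fun x hx => ⟨fun hb => h1 x ⟨hx, hb⟩, fun hc => ?_⟩⟩
  by_contra hb
  exact h2 x ⟨hx, hb⟩ hc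

/-- If on the measurable set `S` the atoms of `f` are finer than those of `g`, then `g` is on `S`
a measurable function of `f`. -/
theorem exists_factor [Nonempty Z] {f : Ω → Y} {g : Ω → Z} (hf : Measurable f)
    (hg : Measurable g) {S : Set Ω} (hS : MeasurableSet S)
    (h : ∀ x ∈ S, ∀ y ∈ S, f x = f y → g x = g y) :
    ∃ φ : Y → Z, Measurable φ ∧ ∀ x ∈ S, g x = φ (f x) := by
  have hm : Measurable[MeasurableSpace.comap (fun x : S => f x) inferInstance]
      (fun x : S => g x) := by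
    intro B hB
    obtain ⟨C, hC, hC'⟩ := exists_sat hf hS (hg hB)
      (fun x hx y hy hxy hxB => by
        simp only [mem_preimage] at hxB ⊢
        rwa [← h x hx y hy hxy])
    refine ⟨C, hC, ?_⟩
    ext x
    simpa using (hC' x x.2).symm
  obtain ⟨φ, hφ, hφ'⟩ := hm.exists_eq_measurable_comp
  exact ⟨φ, hφ, fun x hx => congrFun hφ' ⟨x, hx⟩⟩

/-- Almost everywhere version of `exists_factor`: the atoms are compared on a conull set. -/
theorem exists_factor_ae [Nonempty Z] {μ : Measure Ω} {f : Ω → Y} {g : Ω → Z}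
    (hf : Measurable f) (hg : Measurable g) {S : Set Ω} (hS : ∀ᵐ x ∂μ, x ∈ S)
    (h : ∀ x ∈ S, ∀ y ∈ S, f x = f y → g x = g y) :
    ∃ φ : Y → Z, Measurable φ ∧ ∀ᵐ x ∂μ, g x = φ (f x) := by
  obtain ⟨t, ht, htm, ht0⟩ := exists_measurable_superset_of_null (mem_ae_iff.1 hS)
  have hsub : ∀ x ∈ tᶜ, x ∈ S := fun x hx => by
    by_contra hxS
    exact hx (ht hxS)
  obtain ⟨φ, hφ, hφ'⟩ := exists_factor hf hg htm.compl
    (fun x hx y hy => h x (hsub x hx) y (hsub y hy))
  refine ⟨φ, hφ, ?_⟩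
  have : ∀ᵐ x ∂μ, x ∈ tᶜ := by
    rw [ae_iff]
    simpa using ht0
  exact this.mono hφ'

/-- The conditional law of the point given its label is carried by the atom and by every conull
measurable set. -/
theorem ae_condDistrib_atom [Nonempty Ω] (ν : Measure Ω) [IsFiniteMeasure ν] {lab : Ω → Y}
    (hl : Measurable lab) {S : Set Ω} (hS : MeasurableSet S) (hSν : ∀ᵐ x ∂ν, x ∈ S) :
    ∀ᵐ y ∂ν, ∀ᵐ w ∂(condDistrib id lab ν (lab y)), lab w = lab y ∧ w ∈ S := by
  let _ := upgradeStandardBorel Y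
  have hm : MeasurableSet {p : Y × Ω | lab p.2 = p.1 ∧ p.2 ∈ S} :=
    (measurableSet_eq_fun (hl.comp measurable_snd) measurable_fst).inter (measurable_snd hS)
  have h1 : ∀ᵐ p ∂((ν.map lab) ⊗ₘ condDistrib id lab ν), lab p.2 = p.1 ∧ p.2 ∈ S := by
    rw [compProd_map_condDistrib aemeasurable_id,
      ae_map_iff (hl.prodMk measurable_id).aemeasurable hm]
    exact hSν.mono fun x hx => ⟨rfl, hx⟩
  have h2 := Measure.ae_ae_of_ae_compProd h1
  exact ae_of_ae_map hl.aemeasurable h2

/-- Measurable selection: in almost every atom of `lab` one can choose measurably (as a function of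
the label) a point of a given conull measurable set. -/
theorem exists_sel0 [Nonempty Ω] (ν : Measure Ω) [IsFiniteMeasure ν] {lab : Ω → Y}
    (hl : Measurable lab) {S : Set Ω} (hS : MeasurableSet S) (hSν : ∀ᵐ x ∂ν, x ∈ S) :
    ∃ w : Y → Ω, Measurable w ∧ ∀ᵐ y ∂ν, lab (w (lab y)) = lab y ∧ w (lab y) ∈ S := by
  let _ := upgradeStandardBorel Y
  obtain ⟨F, hF, hFκ⟩ := Kernel.exists_measurable_map_eq_unitInterval (condDistrib id lab ν)
  have hmF : Measurable fun p : Ω × unitInterval => F (lab p.1) p.2 :=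
    hF.comp ((hl.comp measurable_fst).prodMk measurable_snd)
  have hm : MeasurableSet {p : Ω × unitInterval |
      lab (F (lab p.1) p.2) = lab p.1 ∧ F (lab p.1) p.2 ∈ S} :=
    (measurableSet_eq_fun (hl.comp hmF) (hl.comp measurable_fst)).inter (hmF hS)
  have h1 : ∀ᵐ y ∂ν, ∀ᵐ t : unitInterval,
      lab (F (lab y) t) = lab y ∧ F (lab y) t ∈ S := by
    filter_upwards [ae_condDistrib_atom ν hl hS hSν] with y hy
    rw [← hFκ] at hy
    exact ae_of_ae_map (hF.of_uncurry_left).aemeasurable hy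
  have h2 := (Measure.ae_ae_comm (μ := ν) (ν := (volume : Measure unitInterval))
    (p := fun y t => lab (F (lab y) t) = lab y ∧ F (lab y) t ∈ S) hm).1 h1
  obtain ⟨t, ht⟩ := h2.exists
  exact ⟨fun a => F a t, hF.of_uncurry_right, ht⟩

/-- SEL: `K` measurable, `X'` conull.  There is a measurable `w` such that for almost every `y ∈ K`
the point `w (lab y)` has the label of `y` and lies in `K ∩ X'`. -/
theorem exists_sel [Nonempty Ω] (μ : Measure Ω) [IsFiniteMeasure μ] {lab : Ω → Y}
    (hl : Measurable lab) {K X' : Set Ω} (hK : MeasurableSet K) (hX : ∀ᵐ x ∂μ, x ∈ X') :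
    ∃ w : Y → Ω, Measurable w ∧
      ∀ᵐ y ∂μ, y ∈ K → lab (w (lab y)) = lab y ∧ w (lab y) ∈ K ∧ w (lab y) ∈ X' := by
  obtain ⟨t, ht, htm, ht0⟩ := exists_measurable_superset_of_null (mem_ae_iff.1 hX)
  have h0 : ∀ᵐ x ∂μ, x ∈ tᶜ := by
    rw [ae_iff]
    simpa using ht0
  have h1 : ∀ᵐ x ∂(μ.restrict K), x ∈ K ∩ tᶜ :=
    (ae_restrict_mem hK).and (ae_restrict_of_ae h0)
  obtain ⟨w, hw, hw'⟩ := exists_sel0 (μ.restrict K) hl (hK.inter htm.compl) h1
  refine ⟨w, hw, ?_⟩
  rw [ae_restrict_iff' hK] at hw'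
  filter_upwards [hw'] with y hy hyK
  obtain ⟨h2, h3, h4⟩ := hy hyK
  refine ⟨h2, h3, ?_⟩
  by_contra hx
  exact h4 (ht hx)

end Pool.Agent.P.MP_d483fb_an.Z
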